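import Pool.Agent.Helper900.UB.Defs

set_option autoImplicit false

namespace Pool.Agent.Helper900.UB

open MeasureTheory AddCircle Complex Filter Topology
open scoped ENNReal ComplexConjugate

/-- the `L²` norm as a real number -/
noncomputable def n2 (f : T → ℂ) : ℝ := Real.sqrt (∫ t, ‖f t‖ ^ 2 ∂mu)

lemma n2_nonneg (f : T → ℂ) : 0 ≤ n2 f := Real.sqrt_nonneg _

lemma n2_sq (f : T → ℂ) : n2 f ^ 2 = ∫ t, ‖f t‖ ^ 2 ∂mu :=
  Real.sq_sqrt (integral_nonneg fun _ => by positivity)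

lemma n2_eq {f : T → ℂ} (hf : MemLp f 2 mu) : n2 f = ‖hf.toLp f‖ := by
  rw [n2, ← norm_toLp_sq hf, Real.sqrt_sq (norm_nonneg _)]

lemma n2_add {f g : T → ℂ} (hf : MemLp f 2 mu) (hg : MemLp g 2 mu) :
    n2 (fun t => f t + g t) ≤ n2 f + n2 g := by
  have h : MemLp (fun t => f t + g t) 2 mu := hf.add hg
  rw [n2_eq h, n2_eq hf, n2_eq hg]
  have : h.toLp _ = hf.toLp f + hg.toLp g := MemLp.toLp_add hf hg
  rw [this]
  exact norm_add_le _ _

lemma int_sq {f : T → ℂ} (hf : MemLp f 2 mu) : Integrable (fun t => ‖f t‖ ^ 2) mu :=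
  (memLp_two_iff_integrable_sq_norm hf.1).1 hf

lemma n2_mono {f g : T → ℂ} (hg : MemLp g 2 mu) (h : ∀ᵐ t ∂mu, ‖f t‖ ≤ ‖g t‖) :
    n2 f ≤ n2 g := by
  apply Real.sqrt_le_sqrt
  apply integral_mono_of_nonneg (Eventually.of_forall fun _ => by positivity) (int_sq hg)
  filter_upwards [h] with t ht
  exact pow_le_pow_left₀ (norm_nonneg _) ht 2

lemma n2_congr {f g : T → ℂ} (h : ∀ᵐ t ∂mu, ‖f t‖ = ‖g t‖) : n2 f = n2 g := by
  unfold n2
  congr 1
  apply integral_congr_ae
  filter_upwards [h] with t ht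
  simp only [ht]

lemma n2_smul (c : ℂ) (f : T → ℂ) : n2 (fun t => c * f t) = ‖c‖ * n2 f := by
  unfold n2
  have : (fun t => ‖c * f t‖ ^ 2) = fun t => ‖c‖ ^ 2 * ‖f t‖ ^ 2 := by
    funext t; rw [norm_mul, mul_pow]
  rw [this, integral_const_mul, Real.sqrt_mul (by positivity), Real.sqrt_sq (norm_nonneg _)]

lemma n2_const (c : ℂ) : n2 (fun _ => c) = ‖c‖ := by
  unfold n2
  simp [Real.sqrt_sq (norm_nonneg c)]

lemma n2_sum {ι : Type*} (s : Finset ι) (f : ι → T → ℂ) (h : ∀ i ∈ s, MemLp (f i) 2 mu) :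
    MemLp (fun t => ∑ i ∈ s, f i t) 2 mu ∧ n2 (fun t => ∑ i ∈ s, f i t) ≤ ∑ i ∈ s, n2 (f i) := by
  classical
  induction s using Finset.induction_on with
  | empty =>
    refine ⟨by simp, ?_⟩
    simp [n2_const]
  | insert a s ha ih =>
    obtain ⟨i1, i2⟩ := ih (fun i hi => h i (Finset.mem_insert_of_mem hi))
    simp only [Finset.sum_insert ha]
    have h1 := h a (Finset.mem_insert_self _ _)
    exact ⟨h1.add i1, (n2_add h1 i1).trans (by linarith)⟩

lemma n2_neg (f : T → ℂ) : n2 (fun t => - f t) = n2 f :=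
  n2_congr (Eventually.of_forall fun t => by simp)

lemma n2_le_const {f : T → ℂ} {c : ℝ} (hc : 0 ≤ c) (h : ∀ᵐ t ∂mu, ‖f t‖ ≤ c) : n2 f ≤ c := by
  have := n2_mono (f := f) (g := fun _ => (c : ℂ)) (memLp_const _) (by
    filter_upwards [h] with t ht
    simpa [abs_of_nonneg hc] using ht)
  rw [n2_const] at this
  simpa [abs_of_nonneg hc] using this

lemma inner_one : IsInner (fun _ : T => (1 : ℂ)) := ⟨const_HInf 1, by simp⟩

lemma inner_mul {u v : T → ℂ} (hu : IsInner u) (hv : IsInner v) : IsInner (fun t => u t * v t) := by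
  refine ⟨mul_HInf hu.1 hv.1, ?_⟩
  filter_upwards [hu.2, hv.2] with t h1 h2
  rw [norm_mul, h1, h2, one_mul]

lemma inner_prod {ι : Type*} (s : Finset ι) (f : ι → T → ℂ) (h : ∀ i ∈ s, IsInner (f i)) :
    IsInner (fun t => ∏ i ∈ s, f i t) := by
  classical
  induction s using Finset.induction_on with
  | empty => simpa using inner_one
  | insert a s ha ih =>
    simp only [Finset.prod_insert ha]
    exact inner_mul (h a (Finset.mem_insert_self _ _))
      (ih (fun i hi => h i (Finset.mem_insert_of_mem hi)))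

lemma n2_mul_sub_one {u v : T → ℂ} (hu : IsInner u) (hv : IsInner v) :
    n2 (fun t => u t * v t - 1) ≤ n2 (fun t => u t - 1) + n2 (fun t => v t - 1) := by
  have e1 : (fun t => u t * v t - 1) = fun t => u t * (v t - 1) + (u t - 1) := by
    funext t; ring
  have m1 : MemLp (fun t => v t - 1) ∞ mu := (sub_HInf hv.1 (const_HInf 1)).1
  have m2 : MemLp (fun t => u t - 1) ∞ mu := (sub_HInf hu.1 (const_HInf 1)).1
  have m3 : MemLp (fun t => u t * (v t - 1)) ∞ mu := bdd_mul hu.1.1 m1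
  rw [e1]
  have h3 : n2 (fun t => u t * (v t - 1)) = n2 (fun t => v t - 1) := by
    apply n2_congr
    filter_upwards [hu.2] with t ht
    rw [norm_mul, ht, one_mul]
  have h4 := n2_add (memLp2 m3) (memLp2 m2)
  rw [h3] at h4
  linarith

lemma n2_prod_sub_one {ι : Type*} (s : Finset ι) (f : ι → T → ℂ) (h : ∀ i ∈ s, IsInner (f i)) :
    n2 (fun t => ∏ i ∈ s, f i t - 1) ≤ ∑ i ∈ s, n2 (fun t => f i t - 1) := by
  classical
  induction s using Finset.induction_on with
  | empty => simp [n2_const]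
  | insert a s ha ih =>
    simp only [Finset.prod_insert ha, Finset.sum_insert ha]
    have i1 := ih (fun i hi => h i (Finset.mem_insert_of_mem hi))
    have i2 := n2_mul_sub_one (h a (Finset.mem_insert_self _ _))
      (inner_prod s f (fun i hi => h i (Finset.mem_insert_of_mem hi)))
    linarith

end Pool.Agent.Helper900.UB
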