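import Pool.Agent.Helper900.UB.Outer
import Pool.Agent.Helper900.UB.N2

set_option autoImplicit false

namespace Pool.Agent.Helper900.UB

open MeasureTheory AddCircle Complex Filter Topology
open scoped ENNReal ComplexConjugate

lemma n2_sub_one_sq {g : T → ℂ} (hg : MemLp g ∞ mu) :
    n2 (fun t => g t - 1) ^ 2 = n2 g ^ 2 - 2 * (∫ t, g t ∂mu).re + 1 := by
  rw [n2_sq, n2_sq]
  have hi := memLp_integrable hg
  have h3 : Integrable (fun t => (g t).re) mu := hi.re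
  have h4 := int_sq (memLp2 hg)
  have e1 : ∀ t, ‖g t - 1‖ ^ 2 = (‖g t‖ ^ 2 - 2 * (g t).re) + 1 := by
    intro t
    rw [← Complex.normSq_eq_norm_sq, Complex.normSq_sub, Complex.normSq_eq_norm_sq]
    simp
    ring
  have h2 : ∫ t, (g t).re ∂mu = (∫ t, g t ∂mu).re := integral_re hi
  simp only [e1]
  have h5 : Integrable (fun t => ‖g t‖ ^ 2 - 2 * (g t).re) mu := h4.sub (h3.const_mul 2)
  rw [integral_add h5 (integrable_const _),
    integral_sub h4 (h3.const_mul 2), integral_const_mul, h2]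
  simp

lemma aak_near {e V g : T → ℂ} (he : e ∈ HInf) (hV : IsInner V) (he1 : ∀ᵐ t ∂mu, ‖e t‖ ≤ 1 / 2)
    (hg : g ∈ HInf) (h1 : ∀ᵐ t ∂mu, ‖e t + V t * g t‖ = 1)
    (hmax : ∀ k ∈ HInf, (∀ᵐ t ∂mu, ‖e t + V t * k t‖ ≤ 1) →
      (∫ t, k t ∂mu).re ≤ (∫ t, g t ∂mu).re)
    {x : ℝ} (hx : 0 < x) (hx1 : x ≤ 1 / 2) (hs : n2 e ≤ x ^ 2) :
    n2 (fun t => g t - 1) ≤ Real.sqrt (7 * x) := by
  obtain ⟨e', he', hee⟩ := he.1.1
  have hmeas : MeasurableSet {t | x < ‖e' t‖} :=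
    measurableSet_lt measurable_const he'.norm.measurable
  set B := {t | x < ‖e' t‖} with hB
  have hmB : mu.real B ≤ x ^ 2 := by
    have h2 : n2 e ^ 2 ≤ (x ^ 2) ^ 2 := pow_le_pow_left₀ (n2_nonneg _) hs 2
    rw [n2_sq] at h2
    have h3 : ∫ t, ‖e t‖ ^ 2 ∂mu = ∫ t, ‖e' t‖ ^ 2 ∂mu := by
      apply integral_congr_ae
      filter_upwards [hee] with t ht
      simp only [ht]
    have hm' : MemLp e' 2 mu := (memLp_congr_ae hee).1 (memLp2 he.1)
    have h4 := mul_meas_ge_le_integral_of_nonneg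
      (Eventually.of_forall fun t => by positivity : 0 ≤ᵐ[mu] fun t => ‖e' t‖ ^ 2)
      (int_sq hm') (x ^ 2)
    have h5 : mu.real B ≤ mu.real {t | x ^ 2 ≤ ‖e' t‖ ^ 2} := by
      apply measureReal_mono
      · intro t ht
        exact pow_le_pow_left₀ hx.le (le_of_lt ht) 2
      · exact measure_ne_top _ _
    have h6 : x ^ 2 * mu.real B ≤ x ^ 2 * x ^ 2 := by
      calc x ^ 2 * mu.real B ≤ x ^ 2 * mu.real {t | x ^ 2 ≤ ‖e' t‖ ^ 2} :=
            mul_le_mul_of_nonneg_left h5 (by positivity)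
        _ ≤ ∫ t, ‖e' t‖ ^ 2 ∂mu := h4
        _ ≤ (x ^ 2) ^ 2 := by rw [← h3]; exact h2
        _ = x ^ 2 * x ^ 2 := by ring
    exact le_of_mul_le_mul_left h6 (by positivity)
  set m := mu.real B with hm
  have hm0 : 0 ≤ m := measureReal_nonneg
  obtain ⟨k, hk, hkn, hki⟩ := exists_outer hmeas (a := 1 / 2) (b := 1 - x) (by norm_num)
    (by linarith)
  have hkey := hmax k hk (by
    filter_upwards [hkn, he1, hee, hV.2] with t a1 a2 a3 a4
    have a5 : ‖e t + V t * k t‖ ≤ ‖e t‖ + ‖k t‖ := by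
      calc ‖e t + V t * k t‖ ≤ ‖e t‖ + ‖V t * k t‖ := norm_add_le _ _
        _ = ‖e t‖ + ‖k t‖ := by rw [norm_mul, a4, one_mul]
    by_cases hc : t ∈ B
    · rw [a1.1 hc] at a5; linarith
    · rw [a1.2 hc] at a5
      have : ‖e t‖ ≤ x := by
        rw [a3]; simpa [hB] using hc
      linarith)
  rw [hki, Complex.ofReal_re] at hkey
  have r1 : 1 - x ^ 2 ≤ (1 / 2 : ℝ) ^ m := by
    rw [Real.rpow_def_of_pos (by norm_num)]
    have l1 : Real.log (1 / 2) = - Real.log 2 := by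
      rw [one_div, Real.log_inv]
    have l2 : Real.log 2 ≤ 1 := by
      have := Real.log_two_lt_d9
      linarith
    have l3 : 0 ≤ Real.log 2 := Real.log_nonneg (by norm_num)
    have := Real.add_one_le_exp (Real.log (1 / 2) * m)
    rw [l1] at this ⊢
    nlinarith
  have r2 : 1 - x ≤ (1 - x) ^ (1 - m) := by
    calc 1 - x = (1 - x) ^ (1 : ℝ) := (Real.rpow_one _).symm
      _ ≤ (1 - x) ^ (1 - m) :=
        Real.rpow_le_rpow_of_exponent_ge (by linarith) (by linarith) (by linarith)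
  have hkey2 : 1 - x - x ^ 2 ≤ (∫ t, g t ∂mu).re := by
    refine le_trans ?_ hkey
    have r0 : 0 ≤ 1 - x ^ 2 := by nlinarith
    calc 1 - x - x ^ 2 ≤ (1 - x ^ 2) * (1 - x) := by nlinarith [pow_pos hx 3]
      _ ≤ (1 / 2 : ℝ) ^ m * (1 - x) ^ (1 - m) :=
        mul_le_mul r1 r2 (by linarith) (by positivity)
  have hng : n2 g ≤ 1 + x ^ 2 := by
    have c1 : n2 g = n2 (fun t => (e t + V t * g t) + - e t) := by
      apply n2_congr
      filter_upwards [hV.2] with t ht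
      rw [show e t + V t * g t + - e t = V t * g t by ring, norm_mul, ht, one_mul]
    have m1 : MemLp (fun t => e t + V t * g t) ∞ mu := (add_HInf he (mul_HInf hV.1 hg)).1
    have m2 : MemLp (fun t => - e t) ∞ mu := he.1.neg
    have c2 := n2_add (memLp2 m1) (memLp2 m2)
    rw [n2_neg] at c2
    have c3 : n2 (fun t => e t + V t * g t) ≤ 1 :=
      n2_le_const zero_le_one (by filter_upwards [h1] with t ht; exact ht.le)
    rw [c1]
    linarith
  have hfin := n2_sub_one_sq hg.1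
  apply Real.le_sqrt_of_sq_le
  rw [hfin]
  have hn0 := n2_nonneg g
  have : n2 g ^ 2 ≤ (1 + x ^ 2) ^ 2 := pow_le_pow_left₀ hn0 hng 2
  nlinarith [mul_pos hx hx, pow_pos hx 3, pow_pos hx 4,
    mul_le_mul_of_nonneg_left hx1 (le_of_lt (pow_pos hx 3)),
    mul_le_mul_of_nonneg_left hx1 (le_of_lt (pow_pos hx 2)), mul_le_mul_of_nonneg_left hx1 hx.le]

end Pool.Agent.Helper900.UB
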