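import Pool.Agent.Helper900.UB.T2
import Pool.Agent.Helper900.UB.Near

set_option autoImplicit false

namespace Pool.Agent.Helper900.UB

open MeasureTheory AddCircle Complex Filter Topology
open scoped ENNReal ComplexConjugate

/-- grid cell -/
noncomputable def cell (N : ℕ) (z : ℂ) : ℤ × ℤ := (⌊(N : ℝ) * z.re⌋, ⌊(N : ℝ) * z.im⌋)

/-- corner of a grid cell -/
noncomputable def cpt (N : ℕ) (p : ℤ × ℤ) : ℂ := ((p.1 : ℂ) + p.2 * I) / N

/-- cells meeting the unit disc and away from zero -/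
noncomputable def gridS (N : ℕ) : Finset (ℤ × ℤ) :=
  ((Finset.Icc (-(N : ℤ)) N) ×ˢ (Finset.Icc (-(N : ℤ)) N)).filter (fun p => 4 / (N : ℝ) < ‖cpt N p‖)

lemma cell_meas (N : ℕ) : Measurable (cell N) := by
  unfold cell
  apply Measurable.prodMk
  · exact Int.measurable_floor.comp (measurable_const.mul Complex.measurable_re)
  · exact Int.measurable_floor.comp (measurable_const.mul Complex.measurable_im)

lemma cell_near {N : ℕ} (hN : 0 < N) (z : ℂ) : ‖z - cpt N (cell N z)‖ ≤ 2 / N := by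
  have hN' : (0 : ℝ) < N := by exact_mod_cast hN
  have hNc : (N : ℂ) ≠ 0 := by exact_mod_cast hN.ne'
  have h1 := Int.floor_le ((N : ℝ) * z.re)
  have h2 := Int.lt_floor_add_one ((N : ℝ) * z.re)
  have h3 := Int.floor_le ((N : ℝ) * z.im)
  have h4 := Int.lt_floor_add_one ((N : ℝ) * z.im)
  set a : ℤ := ⌊(N : ℝ) * z.re⌋
  set b : ℤ := ⌊(N : ℝ) * z.im⌋
  have e1 : z - cpt N (a, b) = (((N : ℝ) * z.re - a : ℝ) + ((N : ℝ) * z.im - b : ℝ) * I) / N := by
    rw [cpt]
    field_simp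
    apply Complex.ext <;> simp <;> ring
  change ‖z - cpt N (a, b)‖ ≤ 2 / N
  rw [e1, norm_div]
  have : ‖(N : ℂ)‖ = N := by simp
  rw [this]
  gcongr
  calc ‖(((N : ℝ) * z.re - a : ℝ) : ℂ) + (((N : ℝ) * z.im - b : ℝ) : ℂ) * I‖
      ≤ ‖(((N : ℝ) * z.re - a : ℝ) : ℂ)‖ + ‖(((N : ℝ) * z.im - b : ℝ) : ℂ) * I‖ := norm_add_le _ _
    _ = |(N : ℝ) * z.re - a| + |(N : ℝ) * z.im - b| := by
        rw [norm_mul, Complex.norm_I, mul_one, Complex.norm_real, Complex.norm_real,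
          Real.norm_eq_abs, Real.norm_eq_abs]
    _ ≤ 1 + 1 := by
        apply add_le_add
        · rw [abs_le]; constructor <;> linarith
        · rw [abs_le]; constructor <;> linarith
    _ = 2 := by norm_num

lemma cell_mem {N : ℕ} {z : ℂ} (hz : ‖z‖ ≤ 1) :
    cell N z ∈ (Finset.Icc (-(N : ℤ)) N) ×ˢ (Finset.Icc (-(N : ℤ)) N) := by
  have h1 := (Complex.abs_re_le_norm z).trans hz
  have h2 := (Complex.abs_im_le_norm z).trans hz
  rw [abs_le] at h1 h2
  have hN : (0 : ℝ) ≤ N := Nat.cast_nonneg N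
  have key : ∀ y : ℝ, -1 ≤ y → y ≤ 1 → ⌊(N : ℝ) * y⌋ ∈ Finset.Icc (-(N : ℤ)) N := by
    intro y hy1 hy2
    rw [Finset.mem_Icc]
    constructor
    · apply Int.le_floor.2
      push_cast
      nlinarith
    · have h5 : ((⌊(N : ℝ) * y⌋ : ℤ) : ℝ) ≤ ((N : ℤ) : ℝ) := by
        refine (Int.floor_le _).trans ?_
        push_cast
        nlinarith
      exact_mod_cast h5
  rw [Finset.mem_product]
  exact ⟨key _ h1.1 h1.2, key _ h2.1 h2.2⟩

lemma cpt_bound {N : ℕ} (hN : 0 < N) {p : ℤ × ℤ} (hp : p ∈ gridS N) : ‖cpt N p‖ ≤ 2 := by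
  have hN' : (0 : ℝ) < N := by exact_mod_cast hN
  unfold gridS at hp
  rw [Finset.mem_filter, Finset.mem_product, Finset.mem_Icc, Finset.mem_Icc] at hp
  obtain ⟨⟨⟨a1, a2⟩, ⟨b1, b2⟩⟩, -⟩ := hp
  have h1 : |(p.1 : ℝ)| ≤ N := by
    rw [abs_le]; constructor
    · exact_mod_cast a1
    · exact_mod_cast a2
  have h2 : |(p.2 : ℝ)| ≤ N := by
    rw [abs_le]; constructor
    · exact_mod_cast b1
    · exact_mod_cast b2
  unfold cpt
  rw [norm_div]
  have : ‖(N : ℂ)‖ = N := by simp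
  rw [this, div_le_iff₀ hN']
  calc ‖(p.1 : ℂ) + p.2 * I‖ ≤ ‖(p.1 : ℂ)‖ + ‖(p.2 : ℂ) * I‖ := norm_add_le _ _
    _ = |(p.1 : ℝ)| + |(p.2 : ℝ)| := by
        rw [norm_mul, Complex.norm_I, mul_one, Complex.norm_intCast, Complex.norm_intCast]
    _ ≤ 2 * N := by linarith

lemma cell_sum {N : ℕ} (hN : 0 < N) {z : ℂ} (hz : ‖z‖ ≤ 1) :
    ‖z - ∑ p ∈ gridS N, cpt N p * (if cell N z = p then 1 else 0)‖ ≤ 6 / N := by
  have hN' : (0 : ℝ) < N := by exact_mod_cast hN
  simp only [mul_ite, mul_one, mul_zero, Finset.sum_ite_eq]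
  have h1 := cell_near hN z
  split_ifs with hc
  · refine h1.trans ?_
    gcongr
    norm_num
  · have h2 : ‖cpt N (cell N z)‖ ≤ 4 / N := by
      by_contra h
      push Not at h
      exact hc (Finset.mem_filter.2 ⟨cell_mem hz, h⟩)
    calc ‖z - 0‖ = ‖(z - cpt N (cell N z)) + cpt N (cell N z)‖ := by ring_nf
      _ ≤ ‖z - cpt N (cell N z)‖ + ‖cpt N (cell N z)‖ := norm_add_le _ _
      _ ≤ 2 / N + 4 / N := add_le_add h1 h2
      _ = 6 / N := by ring

lemma cell_away {N : ℕ} (hN : 0 < N) {z : ℂ} {p : ℤ × ℤ} (hp : p ∈ gridS N) (h : cell N z = p) :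
    2 / N ≤ ‖z‖ := by
  have h1 := cell_near hN z
  rw [h] at h1
  have h2 := (Finset.mem_filter.1 hp).2
  have h3 : ‖cpt N p‖ ≤ ‖z‖ + ‖z - cpt N p‖ := by
    calc ‖cpt N p‖ = ‖z - (z - cpt N p)‖ := by ring_nf
      _ ≤ _ := norm_sub_le _ _
  have : (4 : ℝ) / N = 2 / N + 2 / N := by ring
  linarith

lemma n2_one_sub_uv {u v : T → ℂ} (hu : IsInner u) (hv : IsInner v) :
    n2 (fun t => 1 - u t * conj (v t)) ≤ n2 (fun t => u t - 1) + n2 (fun t => v t - 1) := by
  have m1 : MemLp (fun t => v t - 1) ∞ mu := (sub_HInf hv.1 (const_HInf 1)).1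
  have m2 : MemLp (fun t => u t - 1) ∞ mu := (sub_HInf hu.1 (const_HInf 1)).1
  have m3 : MemLp (fun t => - (u t - 1)) ∞ mu := m2.neg
  have h1 : n2 (fun t => 1 - u t * conj (v t)) = n2 (fun t => (v t - 1) + - (u t - 1)) := by
    apply n2_congr
    filter_upwards [hv.2] with t ht
    have e1 : v t * conj (v t) = 1 := by
      rw [Complex.mul_conj, Complex.normSq_eq_norm_sq, ht]; simp
    have e2 : 1 - u t * conj (v t) = ((v t - 1) + - (u t - 1)) * conj (v t) := by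
      linear_combination -e1
    rw [e2, norm_mul, RCLike.norm_conj, ht, mul_one]
  rw [h1]
  have h2 := n2_add (memLp2 m1) (memLp2 m3)
  rw [n2_neg] at h2
  linarith

theorem approx {η δ : ℝ} (hη : 0 < η) (hδ : 0 < δ) :
    ∃ δ' > 0, ∀ g ∈ HInf, (∀ᵐ t ∂mu, ‖g t‖ ≤ 1) →
      ∃ φ f k : T → ℂ, IsInner φ ∧ f ∈ HInf ∧ k ∈ HInf ∧
        (∀ᵐ t ∂mu, k t = φ t * conj (f t)) ∧ (∀ᵐ t ∂mu, ‖f t - g t‖ ≤ η) ∧
        (∫ t, ‖g t‖ ^ 2 ∂mu ≤ δ' → ∫ t, ‖φ t - 1‖ ^ 2 ∂mu ≤ δ) := by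
  classical
  -- parameters
  obtain ⟨ε', hε', hε'η⟩ : ∃ ε' : ℝ, 0 < ε' ∧ 3 * ε' = η := ⟨η / 3, by positivity, by ring⟩
  obtain ⟨N, hN, hN6⟩ : ∃ N : ℕ, 0 < N ∧ 6 / (N : ℝ) ≤ ε' / 2 := by
    obtain ⟨N, hN⟩ := exists_nat_gt (12 / ε')
    have h0 : (0 : ℝ) < N := lt_trans (by positivity) hN
    refine ⟨N, by exact_mod_cast h0, ?_⟩
    rw [div_le_iff₀ h0]
    rw [div_lt_iff₀ hε'] at hN
    linarith
  have hN' : (0 : ℝ) < N := by exact_mod_cast hN
  set S := gridS N with hS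
  set J : ℝ := (S.card : ℝ) with hJ
  have hJ0 : 0 ≤ J := Nat.cast_nonneg _
  set ε₁ : ℝ := ε' / (2 * (J + 1)) with hε₁
  have hε₁0 : 0 < ε₁ := by positivity
  set s : ℝ := Real.sqrt δ with hs
  have hs0 : 0 < s := Real.sqrt_pos.2 hδ
  obtain ⟨x, hx0, hx1, hx2, hx3⟩ : ∃ x : ℝ, 0 < x ∧ x ≤ 1 / 2 ∧ x ≤ s / 4 ∧ 7 * x ≤ (s / 4) ^ 2 := by
    refine ⟨min (1 / 2) (min (s / 4) (s ^ 2 / 112)), by positivity, min_le_left _ _,
      (min_le_right _ _).trans (min_le_left _ _), ?_⟩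
    have : min (1 / 2) (min (s / 4) (s ^ 2 / 112)) ≤ s ^ 2 / 112 :=
      (min_le_right _ _).trans (min_le_right _ _)
    linarith
  obtain ⟨d₁, hd0, hd1, hd2⟩ : ∃ d₁ : ℝ, 0 < d₁ ∧ 2 * (J * d₁) ≤ s / 4 ∧
      2 * (J * d₁) ≤ ε' * x ^ 2 := by
    refine ⟨min (s / 4) (ε' * x ^ 2) / (2 * (J + 1)), by positivity, ?_, ?_⟩
    · have h1 : min (s / 4) (ε' * x ^ 2) ≤ s / 4 := min_le_left _ _
      have h2 : 2 * (J * (min (s / 4) (ε' * x ^ 2) / (2 * (J + 1)))) =
        (J / (J + 1)) * min (s / 4) (ε' * x ^ 2) := by field_simp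
      rw [h2]
      have h3 : J / (J + 1) ≤ 1 := by rw [div_le_one (by positivity)]; linarith
      calc _ ≤ 1 * min (s / 4) (ε' * x ^ 2) := mul_le_mul_of_nonneg_right h3 (by positivity)
        _ ≤ _ := by linarith
    · have h1 : min (s / 4) (ε' * x ^ 2) ≤ ε' * x ^ 2 := min_le_right _ _
      have h2 : 2 * (J * (min (s / 4) (ε' * x ^ 2) / (2 * (J + 1)))) =
        (J / (J + 1)) * min (s / 4) (ε' * x ^ 2) := by field_simp
      rw [h2]
      have h3 : J / (J + 1) ≤ 1 := by rw [div_le_one (by positivity)]; linarith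
      calc _ ≤ 1 * min (s / 4) (ε' * x ^ 2) := mul_le_mul_of_nonneg_right h3 (by positivity)
        _ ≤ _ := by linarith
  obtain ⟨η₁, hη₁, hDR⟩ := douglas_rudin (ε := ε₁) (δ := d₁ ^ 2) hε₁0 (by positivity)
  refine ⟨min (η₁ * (2 / N) ^ 2) ((ε' * x ^ 2) ^ 2), by positivity, fun g hg hg1 => ?_⟩
  obtain ⟨g', hg', hgg⟩ := hg.1.1
  -- the sets
  set E : ℤ × ℤ → Set T := fun p => {t | cell N (g' t) = p} with hE
  have hEm : ∀ p, MeasurableSet (E p) := fun p =>
    ((cell_meas N).comp hg'.measurable) (measurableSet_singleton p)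
  choose u v hu hv huv hsm using fun p => hDR (E p) (hEm p)
  set h : T → ℂ := fun t => ∑ p ∈ S, (cpt N p / 2) * (1 - u p t * conj (v p t)) with hh
  set V : T → ℂ := fun t => ∏ p ∈ S, v p t with hV
  set U : T → ℂ := fun t => ∏ p ∈ S, u p t with hU
  set V' : ℤ × ℤ → T → ℂ := fun p t => ∏ q ∈ S.erase p, v q t with hV'
  set U' : ℤ × ℤ → T → ℂ := fun p t => ∏ q ∈ S.erase p, u q t with hU'
  have iV : IsInner V := inner_prod S v (fun i _ => hv i)
  have iU : IsInner U := inner_prod S u (fun i _ => hu i)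
  have iV' : ∀ p, IsInner (V' p) := fun p => inner_prod _ v (fun i _ => hv i)
  have iU' : ∀ p, IsInner (U' p) := fun p => inner_prod _ u (fun i _ => hu i)
  have allv : ∀ᵐ t ∂mu, ∀ p ∈ S, ‖v p t‖ = 1 := by
    filter_upwards [ae_all_iff.2 (fun p => (hv p).2)] with t ht p _ using ht p
  have allu : ∀ᵐ t ∂mu, ∀ p ∈ S, ‖u p t‖ = 1 := by
    filter_upwards [ae_all_iff.2 (fun p => (hu p).2)] with t ht p _ using ht p
  have alluv : ∀ᵐ t ∂mu, ∀ p ∈ S, (t ∉ E p → ‖u p t * conj (v p t) - 1‖ ≤ ε₁) ∧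
        (t ∈ E p → ‖u p t * conj (v p t) + 1‖ ≤ ε₁) := by
    filter_upwards [ae_all_iff.2 huv] with t ht p _ using ht p
  have unim : ∀ z : ℂ, ‖z‖ = 1 → z * conj z = 1 := by
    intro z hz
    rw [Complex.mul_conj, Complex.normSq_eq_norm_sq, hz]; simp
  set G : T → ℂ := fun t => ∑ p ∈ S, (cpt N p / 2) * (V t - u p t * V' p t) with hG
  have mG : G ∈ HInf := sum_HInf S _ (fun p _ =>
    smul_HInf (sub_HInf iV.1 (mul_HInf (hu p).1 (iV' p).1)) _)
  have hVG : ∀ᵐ t ∂mu, V t * h t = G t := by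
    filter_upwards [allv] with t ht
    simp only [hh, hG, Finset.mul_sum]
    apply Finset.sum_congr rfl
    intro p hp
    have e1 : V t = v p t * V' p t := (Finset.mul_prod_erase S (fun q => v q t) hp).symm
    have e2 := unim _ (ht p hp)
    rw [e1]
    linear_combination (-(cpt N p / 2) * V' p t * u p t) * e2
  -- the error
  have hgh : ∀ᵐ t ∂mu, ‖g t - h t‖ ≤ ε' := by
    filter_upwards [alluv, hgg, hg1] with t a1 a2 a3
    rw [a2] at a3 ⊢
    have b1 := cell_sum hN a3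
    have b2 : ‖∑ p ∈ S, cpt N p * (if cell N (g' t) = p then 1 else 0) - h t‖ ≤ J * ε₁ := by
      simp only [hh]
      rw [← Finset.sum_sub_distrib]
      calc ‖∑ p ∈ S, (cpt N p * (if cell N (g' t) = p then 1 else 0) -
            (cpt N p / 2) * (1 - u p t * conj (v p t)))‖
          ≤ ∑ p ∈ S, ‖(cpt N p * (if cell N (g' t) = p then 1 else 0) -
            (cpt N p / 2) * (1 - u p t * conj (v p t)))‖ := norm_sum_le _ _
        _ ≤ ∑ p ∈ S, ε₁ := by
            apply Finset.sum_le_sum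
            intro p hp
            have c1 := cpt_bound hN hp
            have c2 : ‖cpt N p / 2‖ ≤ 1 := by
              rw [norm_div]; simp; linarith
            obtain ⟨d1, d2⟩ := a1 p hp
            split_ifs with hc
            · have d3 := d2 hc
              have d4 : cpt N p * 1 - (cpt N p / 2) * (1 - u p t * conj (v p t)) =
                (cpt N p / 2) * (u p t * conj (v p t) + 1) := by ring
              rw [d4, norm_mul]
              calc _ ≤ 1 * ε₁ := mul_le_mul c2 d3 (norm_nonneg _) zero_le_one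
                _ = ε₁ := one_mul _
            · have d3 := d1 hc
              have d4 : cpt N p * 0 - (cpt N p / 2) * (1 - u p t * conj (v p t)) =
                (cpt N p / 2) * (u p t * conj (v p t) - 1) := by ring
              rw [d4, norm_mul]
              calc _ ≤ 1 * ε₁ := mul_le_mul c2 d3 (norm_nonneg _) zero_le_one
                _ = ε₁ := one_mul _
        _ = J * ε₁ := by rw [Finset.sum_const, nsmul_eq_mul]
    have b3 : J * ε₁ ≤ ε' / 2 := by
      rw [hε₁]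
      have : J * (ε' / (2 * (J + 1))) = (J / (J + 1)) * (ε' / 2) := by field_simp
      rw [this]
      have h3 : J / (J + 1) ≤ 1 := by rw [div_le_one (by positivity)]; linarith
      nlinarith
    calc ‖g' t - h t‖ = ‖(g' t - ∑ p ∈ S, cpt N p * (if cell N (g' t) = p then 1 else 0)) +
          (∑ p ∈ S, cpt N p * (if cell N (g' t) = p then 1 else 0) - h t)‖ := by ring_nf
      _ ≤ 6 / N + J * ε₁ := (norm_add_le _ _).trans (add_le_add b1 b2)
      _ ≤ ε' := by linarith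
  -- e
  have hε'c : ((2 * ε' : ℝ) : ℂ) ≠ 0 := by
    rw [Complex.ofReal_ne_zero]; positivity
  set e : T → ℂ := fun t => ((2 * ε' : ℝ) : ℂ)⁻¹ * (V t * g t - G t) with he
  have me : e ∈ HInf := smul_HInf (sub_HInf (mul_HInf iV.1 hg) mG) _
  have hen : ∀ᵐ t ∂mu, ‖e t‖ = (2 * ε')⁻¹ * ‖g t - h t‖ := by
    filter_upwards [hVG, iV.2] with t a1 a2
    simp only [he]
    rw [← a1, ← mul_sub, norm_mul, norm_mul, a2, norm_inv, Complex.norm_real, Real.norm_eq_abs,
      abs_of_pos (by positivity)]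
    ring
  have he1 : ∀ᵐ t ∂mu, ‖e t‖ ≤ 1 / 2 := by
    filter_upwards [hen, hgh] with t a1 a2
    rw [a1, inv_mul_le_iff₀ (by positivity)]
    linarith
  obtain ⟨g₂, mg₂, hψ, hmax⟩ := aak me iV he1
  set ψ : T → ℂ := fun t => e t + V t * g₂ t with hψd
  have iψ : IsInner ψ := ⟨add_HInf me (mul_HInf iV.1 mg₂), hψ⟩
  have mf : (fun t => g t + ((2 * ε' : ℝ) : ℂ) * g₂ t) ∈ HInf :=
    add_HInf hg (smul_HInf mg₂ _)
  set k : T → ℂ := fun t => (∑ p ∈ S, (conj (cpt N p) / 2) * (U t * ψ t - v p t * (U' p t * ψ t)))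
    + ((2 * ε' : ℝ) : ℂ) * (V t * U t) with hk
  have mk : k ∈ HInf := by
    apply add_HInf
    · apply sum_HInf
      intro p _
      apply smul_HInf
      exact sub_HInf (mul_HInf iU.1 iψ.1) (mul_HInf (hv p).1 (mul_HInf (iU' p).1 iψ.1))
    · exact smul_HInf (mul_HInf iV.1 iU.1) _
  refine ⟨fun t => U t * ψ t, _, k, inner_mul iU iψ, mf, mk, ?_, ?_, ?_⟩
  · -- the relation
    filter_upwards [hVG, iV.2, iψ.2, allu, allv] with t a1 a2 a3 a4 a5
    have c1 : V t * conj (V t) = 1 := unim _ a2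
    have c2 : ψ t * conj (ψ t) = 1 := unim _ a3
    have f1 : g t + ((2 * ε' : ℝ) : ℂ) * g₂ t = h t + ((2 * ε' : ℝ) : ℂ) * (conj (V t) * ψ t) := by
      have f2 : V t * (g t + ((2 * ε' : ℝ) : ℂ) * g₂ t) = G t + ((2 * ε' : ℝ) : ℂ) * ψ t := by
        simp only [hψd, he]
        field_simp
        ring
      have f3 : V t * (h t + ((2 * ε' : ℝ) : ℂ) * (conj (V t) * ψ t)) =
          G t + ((2 * ε' : ℝ) : ℂ) * ψ t := by
        rw [mul_add, a1]
        linear_combination (((2 * ε' : ℝ) : ℂ) * ψ t) * c1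
      have hV0 : V t ≠ 0 := by
        intro h0; rw [h0, norm_zero] at a2; exact one_ne_zero a2.symm
      exact mul_left_cancel₀ hV0 (f2.trans f3.symm)
    rw [f1]
    simp only [hk, hh, map_add, map_mul, map_sum, map_sub, map_div₀, Complex.conj_conj,
      Complex.conj_ofReal, map_one, map_ofNat, mul_add, Finset.mul_sum]
    congr 1
    · apply Finset.sum_congr rfl
      intro p hp
      have e1 : U t = u p t * U' p t := (Finset.mul_prod_erase S (fun q => u q t) hp).symm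
      have e2 := unim _ (a4 p hp)
      rw [e1]
      linear_combination ((conj (cpt N p) / 2) * U' p t * ψ t * v p t) * e2
    · linear_combination (-((2 * ε' : ℝ) : ℂ) * U t * V t) * c2
  · filter_upwards [he1, hψ, iV.2] with t a1 a2 a3
    have b1 : ‖g₂ t‖ ≤ 3 / 2 := by
      calc ‖g₂ t‖ = ‖V t * g₂ t‖ := by rw [norm_mul, a3, one_mul]
        _ = ‖(e t + V t * g₂ t) - e t‖ := by ring_nf
        _ ≤ ‖e t + V t * g₂ t‖ + ‖e t‖ := norm_sub_le _ _
        _ ≤ 1 + 1 / 2 := by rw [a2]; linarith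
        _ = 3 / 2 := by norm_num
    calc ‖g t + ((2 * ε' : ℝ) : ℂ) * g₂ t - g t‖ = ‖((2 * ε' : ℝ) : ℂ)‖ * ‖g₂ t‖ := by
          rw [add_sub_cancel_left, norm_mul]
      _ = (2 * ε') * ‖g₂ t‖ := by
          rw [Complex.norm_real, Real.norm_eq_abs, abs_of_pos (by positivity)]
      _ ≤ (2 * ε') * (3 / 2) := by gcongr
      _ = η := by rw [← hε'η]; ring
  · intro hsmall
    -- measures of the sets
    have hn2g : n2 g ≤ ε' * x ^ 2 := by
      apply Real.sqrt_le_iff.2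
      exact ⟨by positivity, hsmall.trans (min_le_right _ _)⟩
    have hEs : ∀ p ∈ S, mu.real (E p) ≤ η₁ := by
      intro p hp
      have hm' : MemLp g' 2 mu := (memLp_congr_ae hgg).1 (memLp2 hg.1)
      have h4 := mul_meas_ge_le_integral_of_nonneg
        (Eventually.of_forall fun t => by positivity : 0 ≤ᵐ[mu] fun t => ‖g' t‖ ^ 2)
        (int_sq hm') ((2 / (N : ℝ)) ^ 2)
      have h5 : mu.real (E p) ≤ mu.real {t | (2 / (N : ℝ)) ^ 2 ≤ ‖g' t‖ ^ 2} := by
        apply measureReal_mono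
        · intro t ht
          exact pow_le_pow_left₀ (by positivity) (cell_away hN hp ht) 2
        · exact measure_ne_top _ _
      have h3 : ∫ t, ‖g t‖ ^ 2 ∂mu = ∫ t, ‖g' t‖ ^ 2 ∂mu := by
        apply integral_congr_ae
        filter_upwards [hgg] with t ht
        simp only [ht]
      have h6 : (2 / (N : ℝ)) ^ 2 * mu.real (E p) ≤ (2 / (N : ℝ)) ^ 2 * η₁ := by
        calc _ ≤ (2 / (N : ℝ)) ^ 2 * mu.real {t | (2 / (N : ℝ)) ^ 2 ≤ ‖g' t‖ ^ 2} :=
              mul_le_mul_of_nonneg_left h5 (by positivity)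
          _ ≤ ∫ t, ‖g' t‖ ^ 2 ∂mu := h4
          _ ≤ η₁ * (2 / N) ^ 2 := by rw [← h3]; exact hsmall.trans (min_le_left _ _)
          _ = _ := by ring
      exact le_of_mul_le_mul_left h6 (by positivity)
    have hu1 : ∀ p ∈ S, n2 (fun t => u p t - 1) ≤ d₁ := fun p hp =>
      Real.sqrt_le_iff.2 ⟨hd0.le, (hsm p (hEs p hp)).1⟩
    have hv1 : ∀ p ∈ S, n2 (fun t => v p t - 1) ≤ d₁ := fun p hp =>
      Real.sqrt_le_iff.2 ⟨hd0.le, (hsm p (hEs p hp)).2⟩
    have hU1 : n2 (fun t => U t - 1) ≤ J * d₁ := by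
      refine (n2_prod_sub_one S u (fun i _ => hu i)).trans ?_
      refine (Finset.sum_le_sum hu1).trans ?_
      rw [Finset.sum_const, nsmul_eq_mul]
    have hV1 : n2 (fun t => V t - 1) ≤ J * d₁ := by
      refine (n2_prod_sub_one S v (fun i _ => hv i)).trans ?_
      refine (Finset.sum_le_sum hv1).trans ?_
      rw [Finset.sum_const, nsmul_eq_mul]
    have muv : ∀ p, MemLp (fun t => (cpt N p / 2) * (1 - u p t * conj (v p t))) ∞ mu := by
      intro p
      apply bdd_mul (memLp_const _)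
      exact (memLp_const (1 : ℂ)).sub (bdd_mul (hu p).1.1 (bdd_conj (hv p).1.1))
    have hh1 := n2_sum S (fun p t => (cpt N p / 2) * (1 - u p t * conj (v p t)))
      (fun p _ => memLp2 (muv p))
    have hh2 : n2 h ≤ 2 * (J * d₁) := by
      refine hh1.2.trans ?_
      have : ∀ p ∈ S, n2 (fun t => (cpt N p / 2) * (1 - u p t * conj (v p t))) ≤ 2 * d₁ := by
        intro p hp
        rw [n2_smul]
        have c1 := cpt_bound hN hp
        have c2 : ‖cpt N p / 2‖ ≤ 1 := by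
          rw [norm_div]; simp; linarith
        have c3 := n2_one_sub_uv (hu p) (hv p)
        have c4 := hu1 p hp
        have c5 := hv1 p hp
        calc _ ≤ 1 * n2 (fun t => 1 - u p t * conj (v p t)) :=
              mul_le_mul_of_nonneg_right c2 (n2_nonneg _)
          _ ≤ 2 * d₁ := by linarith
      refine (Finset.sum_le_sum this).trans ?_
      rw [Finset.sum_const, nsmul_eq_mul]
      linarith
    have hne : n2 e ≤ x ^ 2 := by
      have c1 : n2 e = n2 (fun t => ((2 * ε' : ℝ) : ℂ)⁻¹ * (g t - h t)) := by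
        apply n2_congr
        filter_upwards [hen] with t ht
        rw [ht, norm_mul, norm_inv, Complex.norm_real, Real.norm_eq_abs,
          abs_of_pos (by positivity : 0 < 2 * ε')]
      have c2 : n2 (fun t => g t - h t) ≤ n2 g + n2 h := by
        have c3 : (fun t => g t - h t) = fun t => g t + - h t := by funext t; ring
        rw [c3]
        have c4 : MemLp (fun t => - h t) 2 mu := hh1.1.neg
        have c5 := n2_add (memLp2 hg.1) c4
        rwa [n2_neg] at c5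
      rw [c1, n2_smul, norm_inv, Complex.norm_real, Real.norm_eq_abs,
          abs_of_pos (by positivity : 0 < 2 * ε'), inv_mul_le_iff₀ (by positivity)]
      linarith
    have hg2 := aak_near me iV he1 mg₂ hψ hmax hx0 hx1 hne
    have hg3 : Real.sqrt (7 * x) ≤ s / 4 :=
      Real.sqrt_le_iff.2 ⟨by positivity, hx3⟩
    have hψ1 : n2 (fun t => ψ t - 1) ≤ x ^ 2 + s / 4 + J * d₁ := by
      have c0 : (fun t => ψ t - 1) = fun t => (e t + V t * (g₂ t - 1)) + (V t - 1) := by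
        funext t; simp only [hψd]; ring
      have m1 : MemLp (fun t => V t * (g₂ t - 1)) ∞ mu :=
        (mul_HInf iV.1 (sub_HInf mg₂ (const_HInf 1))).1
      have m2 : MemLp (fun t => e t + V t * (g₂ t - 1)) ∞ mu := me.1.add m1
      have m3 : MemLp (fun t => V t - 1) ∞ mu := (sub_HInf iV.1 (const_HInf 1)).1
      have c1 := n2_add (memLp2 m2) (memLp2 m3)
      have c2 := n2_add (memLp2 me.1) (memLp2 m1)
      have c3 : n2 (fun t => V t * (g₂ t - 1)) = n2 (fun t => g₂ t - 1) := by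
        apply n2_congr
        filter_upwards [iV.2] with t ht
        rw [norm_mul, ht, one_mul]
      rw [c0]
      linarith
    have hfin := n2_mul_sub_one iU iψ
    have hx4 : x ^ 2 ≤ s / 4 := by nlinarith
    have hfin2 : n2 (fun t => U t * ψ t - 1) ≤ s := by linarith
    calc ∫ t, ‖U t * ψ t - 1‖ ^ 2 ∂mu = n2 (fun t => U t * ψ t - 1) ^ 2 := (n2_sq _).symm
      _ ≤ s ^ 2 := pow_le_pow_left₀ (n2_nonneg _) hfin2 2
      _ = δ := Real.sq_sqrt hδ.le

end Pool.Agent.Helper900.UB
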