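import Pool.Agent.Helper900.UB.ClaimTwo

set_option autoImplicit false

namespace Pool.Agent.Helper900.UB

open MeasureTheory AddCircle Complex Filter Topology
open scoped ENNReal ComplexConjugate

/-- the open unit disc -/
abbrev Disc : Type := Metric.ball (0 : ℂ) 1

/-- bounded analytic functions on the disc, as bounded continuous functions -/
noncomputable abbrev Hol : Set (BoundedContinuousFunction Disc ℂ) :=
  {f : BoundedContinuousFunction (Metric.ball (0:ℂ) 1) ℂ |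
        ∃ F : ℂ → ℂ, DifferentiableOn ℂ F (Metric.ball (0:ℂ) 1) ∧
          ∀ z : Metric.ball (0:ℂ) 1, f z = F (z : ℂ)}

/-- the space of bounded analytic functions -/
noncomputable abbrev V : Submodule ℂ (BoundedContinuousFunction Disc ℂ) := Submodule.span ℂ Hol

lemma mem_Hol {f : BoundedContinuousFunction Disc ℂ} (hf : f ∈ V) : f ∈ Hol := by
  induction hf using Submodule.span_induction with
  | mem x hx => exact hx
  | zero => exact ⟨fun _ => 0, differentiableOn_const _, fun z => rfl⟩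
  | add x y _ _ hx hy =>
    obtain ⟨F, hF, hFx⟩ := hx
    obtain ⟨G, hG, hGy⟩ := hy
    refine ⟨fun z => F z + G z, hF.add hG, fun z => ?_⟩
    rw [BoundedContinuousFunction.add_apply, hFx, hGy]
  | smul c x _ hx =>
    obtain ⟨F, hF, hFx⟩ := hx
    refine ⟨fun z => c * F z, hF.const_mul c, fun z => ?_⟩
    rw [BoundedContinuousFunction.smul_apply, hFx, smul_eq_mul]

lemma disc_lt (z : Disc) : ‖(z : ℂ)‖ < 1 := by
  have := z.2
  rwa [Metric.mem_ball, dist_zero_right] at this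

/-- the element of `V` given by a boundary function -/
noncomputable def bcf (f : T → ℂ) (hf : f ∈ HInf) : BoundedContinuousFunction Disc ℂ :=
  BoundedContinuousFunction.ofNormedAddCommGroup (fun z : Disc => ext f (z : ℂ))
    ((ext_diff hf.1).continuousOn.comp_continuous continuous_subtype_val (fun z => z.2))
    (exists_bound hf.1).choose (fun z => ext_bound hf (exists_bound hf.1).choose_spec.2 (disc_lt z))

lemma bcf_apply (f : T → ℂ) (hf : f ∈ HInf) (z : Disc) : bcf f hf z = ext f (z : ℂ) := rfl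

/-- the element of `V` given by a boundary function -/
noncomputable def elt (f : T → ℂ) (hf : f ∈ HInf) : V :=
  ⟨bcf f hf, Submodule.subset_span ⟨ext f, ext_diff hf.1, fun _ => rfl⟩⟩

lemma elt_norm {f : T → ℂ} (hf : f ∈ HInf) {M : ℝ} (hM : ∀ᵐ t ∂mu, ‖f t‖ ≤ M) :
    ‖elt f hf‖ ≤ M := by
  have hM0 : 0 ≤ M := by
    obtain ⟨t, ht⟩ := hM.exists
    exact (norm_nonneg _).trans ht
  show ‖bcf f hf‖ ≤ M
  rw [BoundedContinuousFunction.norm_le hM0]
  intro z
  exact ext_bound hf hM (disc_lt z)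

/-- the functional on boundary functions -/
noncomputable def Lf (Λ : V →L[ℂ] ℂ) (f : T → ℂ) : ℂ :=
  open Classical in if hf : f ∈ HInf then Λ (elt f hf) else 0

lemma Lf_eq (Λ : V →L[ℂ] ℂ) {f : T → ℂ} (hf : f ∈ HInf) : Lf Λ f = Λ (elt f hf) := by
  unfold Lf
  rw [dif_pos hf]

lemma Lf_isFunc (Λ : V →L[ℂ] ℂ) : IsFunc (Lf Λ) ‖Λ‖ := by
  refine ⟨fun f hf g hg => ?_, fun f hf c => ?_, fun f hf M hM => ?_⟩
  · rw [Lf_eq Λ hf, Lf_eq Λ hg, Lf_eq Λ (add_HInf hf hg), ← map_add]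
    congr 1
    apply Subtype.ext
    apply BoundedContinuousFunction.ext
    intro z
    exact ext_add (memLp_integrable hf.1) (memLp_integrable hg.1) (disc_lt z)
  · rw [Lf_eq Λ hf, Lf_eq Λ (smul_HInf hf c), ← smul_eq_mul, ← map_smul]
    congr 1
    apply Subtype.ext
    apply BoundedContinuousFunction.ext
    intro z
    exact ext_smul (memLp_integrable hf.1) c (disc_lt z)
  · rw [Lf_eq Λ hf]
    refine (Λ.le_opNorm _).trans ?_
    exact mul_le_mul_of_nonneg_left (elt_norm hf hM) (norm_nonneg _)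

lemma ae_theta {P : T → Prop} (h : ∀ᵐ t ∂mu, P t) :
    ∀ᵐ θ : ℝ, P ((θ / (2 * Real.pi) : ℝ) : T) := by
  have h3 := P648.ae_line h
  rw [ae_iff] at h3 ⊢
  have := Real.volume_preimage_mul_right (a := (2 * Real.pi)⁻¹) (by positivity)
    {x : ℝ | ¬ P (x : T)}
  rw [h3, mul_zero] at this
  exact this

theorem bridge (Λ : ℕ → (V →L[ℂ] ℂ))
    (h : ∀ φ : V,
        (∃ F : ℂ → ℂ, (∀ z : Metric.ball (0:ℂ) 1,
            (φ : BoundedContinuousFunction (Metric.ball (0:ℂ) 1) ℂ) z = F (z : ℂ)) ∧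
          ∀ᵐ θ : ℝ, ∃ w : ℂ, ‖w‖ = 1 ∧
            Filter.Tendsto (fun r : ℝ => F ((r : ℂ) * Complex.exp ((θ : ℂ) * Complex.I)))
              (nhdsWithin (1 : ℝ) (Set.Iio 1)) (nhds w)) →
        ∃ C : ℝ, ∀ n : ℕ, ‖Λ n φ‖ ≤ C) :
    ∃ C : ℝ, ∀ n : ℕ, ‖Λ n‖ ≤ C := by
  obtain ⟨C, hC⟩ := core (L := fun n => Lf (Λ n)) (K := fun n => ‖Λ n‖)
    (fun n => Lf_isFunc (Λ n)) (by
      intro φ hφ
      obtain ⟨C, hC⟩ := h (elt φ hφ.1) ⟨ext φ, fun _ => rfl, by
        filter_upwards [fatou hφ.1, ae_theta hφ.2] with θ a1 a2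
        exact ⟨_, a2, a1⟩⟩
      exact ⟨C, fun n => by rw [Lf_eq _ hφ.1]; exact hC n⟩)
  refine ⟨max C 0, fun n => ?_⟩
  apply ContinuousLinearMap.opNorm_le_bound _ (le_max_right _ _)
  intro x
  obtain ⟨F, hF, hFx⟩ := mem_Hol x.2
  obtain ⟨f, hf, hfb, hfe⟩ := exists_boundary hF (M := ‖x‖) (by
    intro z hz
    have hz' : z ∈ Metric.ball (0 : ℂ) 1 := by rwa [Metric.mem_ball, dist_zero_right]
    have h1 := hFx ⟨z, hz'⟩
    rw [← h1]
    exact BoundedContinuousFunction.norm_coe_le_norm (x : BoundedContinuousFunction Disc ℂ) _)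
  have hxe : elt f hf = x := by
    apply Subtype.ext
    apply BoundedContinuousFunction.ext
    intro z
    rw [hFx z]
    exact hfe z (disc_lt z)
  by_cases hx0 : ‖x‖ = 0
  · have : x = 0 := norm_eq_zero.1 hx0
    rw [this]
    simp
  have hxpos : 0 < ‖x‖ := lt_of_le_of_ne (norm_nonneg _) (Ne.symm hx0)
  have hm : (fun t => ((‖x‖ : ℂ))⁻¹ * f t) ∈ HInf := smul_HInf hf _
  have h1 : ‖Lf (Λ n) (fun t => ((‖x‖ : ℂ))⁻¹ * f t)‖ ≤ C := hC n _ hm (by
    filter_upwards [hfb] with t ht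
    rw [norm_mul, norm_inv, Complex.norm_real, Real.norm_of_nonneg hxpos.le,
      inv_mul_le_iff₀ hxpos, mul_one]
    exact ht)
  rw [(Lf_isFunc (Λ n)).2.1 f hf, norm_mul, norm_inv, Complex.norm_real,
    Real.norm_of_nonneg hxpos.le, inv_mul_le_iff₀ hxpos, Lf_eq _ hf, hxe] at h1
  calc ‖Λ n x‖ ≤ ‖x‖ * C := h1
    _ = C * ‖x‖ := mul_comm _ _
    _ ≤ max C 0 * ‖x‖ := mul_le_mul_of_nonneg_right (le_max_left _ _) hxpos.le

end Pool.Agent.Helper900.UB
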