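import Pool.Agent.Helper900.UB.Approx

set_option autoImplicit false

namespace Pool.Agent.Helper900.UB

open MeasureTheory AddCircle Complex Filter Topology
open scoped ENNReal ComplexConjugate

lemma IsFunc.nonneg {L : (T → ℂ) → ℂ} {K : ℝ} (hL : IsFunc L K) : 0 ≤ K := by
  have := hL.2.2 _ (const_HInf 0) 1 (by simp)
  rw [mul_one] at this
  exact (norm_nonneg _).trans this

/-- uniform limits of inner functions -/
lemma unif_lim {Φ : ℕ → T → ℂ} {τ : ℕ → ℝ} (hΦ : ∀ n, IsInner (Φ n)) (hτ0 : ∀ n, 0 ≤ τ n)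
    (hτ : Tendsto τ atTop (𝓝 0))
    (h : ∀ n, ∀ᵐ t ∂mu, ‖Φ (n + 1) t - Φ n t‖ ≤ τ n - τ (n + 1)) :
    ∃ Ψ : T → ℂ, IsInner Ψ ∧ ∀ n, ∀ᵐ t ∂mu, ‖Ψ t - Φ n t‖ ≤ τ n := by
  have h' : ∀ᵐ t ∂mu, ∀ n, ‖Φ (n + 1) t - Φ n t‖ ≤ τ n - τ (n + 1) := ae_all_iff.2 h
  have key : ∀ᵐ t ∂mu, ∀ n m, n ≤ m → ‖Φ m t - Φ n t‖ ≤ τ n - τ m := by
    filter_upwards [h'] with t ht n m hnm
    induction m, hnm using Nat.le_induction with
    | base => simp
    | succ m hm ih =>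
      calc ‖Φ (m + 1) t - Φ n t‖ = ‖(Φ (m + 1) t - Φ m t) + (Φ m t - Φ n t)‖ := by ring_nf
        _ ≤ ‖Φ (m + 1) t - Φ m t‖ + ‖Φ m t - Φ n t‖ := norm_add_le _ _
        _ ≤ (τ m - τ (m + 1)) + (τ n - τ m) := add_le_add (ht m) ih
        _ = τ n - τ (m + 1) := by ring
  have hex : ∀ᵐ t ∂mu, ∃ l, Tendsto (fun n => Φ n t) atTop (𝓝 l) := by
    filter_upwards [key] with t ht
    apply cauchySeq_tendsto_of_complete
    refine Metric.cauchySeq_iff'.2 fun ε hε => ?_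
    obtain ⟨N, hN⟩ := (hτ.eventually (gt_mem_nhds hε)).exists
    refine ⟨N, fun n hn => ?_⟩
    rw [dist_eq_norm]
    have := ht N n hn
    have h0 := hτ0 n
    linarith
  obtain ⟨Ψ, hΨm, hΨ⟩ := exists_stronglyMeasurable_limit_of_tendsto_ae
    (fun n => (hΦ n).1.1.1) hex
  have hclose : ∀ n, ∀ᵐ t ∂mu, ‖Ψ t - Φ n t‖ ≤ τ n := by
    intro n
    filter_upwards [key, hΨ] with t a1 a2
    have a3 : Tendsto (fun m => ‖Φ m t - Φ n t‖) atTop (𝓝 ‖Ψ t - Φ n t‖) :=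
      (a2.sub_const _).norm
    refine le_of_tendsto a3 ?_
    filter_upwards [eventually_ge_atTop n] with m hm
    have := a1 n m hm
    have h0 := hτ0 m
    linarith
  refine ⟨Ψ, ⟨P646.closed_HInf hΨm.aestronglyMeasurable Φ τ (fun n => (hΦ n).1) hτ hclose, ?_⟩,
    hclose⟩
  filter_upwards [hΨ, ae_all_iff.2 (fun n => (hΦ n).2)] with t a1 a2
  have a3 : Tendsto (fun m => ‖Φ m t‖) atTop (𝓝 ‖Ψ t‖) := a1.norm
  simp only [a2] at a3
  exact tendsto_nhds_unique a3 tendsto_const_nhds |>.trans rfl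

/-- the quotients used in the construction -/
lemma quot_inner {P H W : T → ℂ} (hP : IsInner P) (hH : H ∈ HInf) (hW : W ∈ HInf)
    (hHW : ∀ᵐ t ∂mu, H t = P t * conj (1 + W t)) (hWb : ∀ᵐ t ∂mu, ‖W t‖ ≤ 1 / 4) :
    IsInner (fun t => H t / (1 + W t)) := by
  refine ⟨?_, ?_⟩
  · have := mul_HInf hH (inv_HInf hW (q := 1 / 4) (by norm_num) hWb)
    refine congr_HInf this (Eventually.of_forall fun t => ?_)
    simp only [div_eq_mul_inv]
  · filter_upwards [hHW, hWb, hP.2] with t a1 a2 a3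
    have h0 := P646.one_add_ne (q := 1 / 4) (by norm_num) a2
    rw [norm_div, a1, norm_mul, a3, one_mul, RCLike.norm_conj, div_self]
    exact norm_ne_zero_iff.2 h0

/-- pointwise comparison of two quotients -/
lemma quot_diff {H W H' W' : ℂ} {ε : ℝ} (hε : 0 ≤ ε) (h1 : ‖H / (1 + W)‖ = 1) (hW : ‖W‖ ≤ 1 / 4)
    (hW' : ‖W'‖ ≤ 1 / 4) (hd : ‖H' - H‖ ≤ 2 * ε) (hd' : ‖W' - W‖ ≤ 2 * ε) :
    ‖H' / (1 + W') - H / (1 + W)‖ ≤ 6 * ε := by
  have h0 := P646.one_add_ne (q := 1 / 4) (by norm_num) hW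
  have h0' := P646.one_add_ne (q := 1 / 4) (by norm_num) hW'
  have e1 : H' / (1 + W') - H / (1 + W) =
      ((H' - H) + -((H / (1 + W)) * (W' - W))) * (1 + W')⁻¹ := by
    field_simp
    ring
  have e2 := P646.norm_inv_one_add (q := 1 / 4) (by norm_num) hW'
  rw [e1, norm_mul]
  have e3 : ‖(H' - H) + -((H / (1 + W)) * (W' - W))‖ ≤ 4 * ε := by
    refine (norm_add_le _ _).trans ?_
    rw [norm_neg, norm_mul, h1, one_mul]
    linarith
  calc _ ≤ (4 * ε) * (1 - 1 / 4)⁻¹ := mul_le_mul e3 e2 (norm_nonneg _) (by positivity)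
    _ ≤ 6 * ε := by
        have : (1 - 1 / 4 : ℝ)⁻¹ = 4 / 3 := by norm_num
        rw [this]; linarith

/-- one step of the gliding hump -/
lemma hump_step {L : (T → ℂ) → ℂ} {K : ℝ} (hL : IsFunc L K) {P H W f g : T → ℂ}
    (hH : H ∈ HInf) (hW : W ∈ HInf)
    (hWb : ∀ᵐ t ∂mu, ‖W t‖ ≤ 1 / 12)
    (hf : f ∈ HInf) (hg : g ∈ HInf) (hfg : ∀ᵐ t ∂mu, g t = P t * conj (f t)) (hP : IsInner P)
    (hfb : ∀ᵐ t ∂mu, ‖f t‖ ≤ 2) {ε : ℝ} (hε : 0 < ε) (hε1 : ε ≤ 1 / 32) {B : ℝ}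
    (hB : ∀ D' ∈ HInf, (∀ᵐ t ∂mu, ‖1 - D' t‖ ≤ 1 / 4) → B / ε < ‖L (fun t => f t * D' t)‖) :
    ∃ a : ℂ, ‖a‖ = ε ∧ B ≤ ‖L (fun t => (H t + a * f t) / (1 + (W t + conj a * g t)))‖ := by
  by_contra hcon
  push Not at hcon
  have hW4 : ∀ᵐ t ∂mu, ‖W t‖ ≤ 1 / 4 := by
    filter_upwards [hWb] with t ht
    linarith
  have hD' := inv_HInf hW (q := 1 / 12) (by norm_num) hWb
  have hgb : ∀ᵐ t ∂mu, ‖g t‖ ≤ 2 := by
    filter_upwards [hfg, hfb, hP.2] with t a1 a2 a3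
    rw [a1, norm_mul, a3, one_mul, RCLike.norm_conj]; exact a2
  have h1 : ∀ᵐ t ∂mu, ‖1 - (1 + W t)⁻¹‖ ≤ 1 / 4 := by
    filter_upwards [hWb] with t ht
    have h0 := P646.one_add_ne (q := 1 / 12) (by norm_num) ht
    have h2 := P646.norm_inv_one_add (q := 1 / 12) (by norm_num) ht
    have e1 : 1 - (1 + W t)⁻¹ = W t * (1 + W t)⁻¹ := by field_simp; ring
    rw [e1, norm_mul]
    calc _ ≤ (1 / 12) * (1 - 1 / 12)⁻¹ := mul_le_mul ht h2 (norm_nonneg _) (by positivity)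
      _ ≤ 1 / 4 := by norm_num
  have h2 := hB _ hD' h1
  have key := avg_mobius hL (H := H) (f := fun t => (ε : ℂ) * f t) (g := fun t => (ε : ℂ) * g t)
    (D := fun t => 1 + W t) (D' := fun t => (1 + W t)⁻¹) hH (smul_HInf hf _) (smul_HInf hg _)
    (add_HInf (const_HInf 1) hW) hD' (by
      filter_upwards [hWb] with t ht
      exact mul_inv_cancel₀ (P646.one_add_ne (q := 1 / 12) (by norm_num) ht)) (q := 1 / 12)
    (by norm_num) (by
      filter_upwards [hWb, hgb] with t ht ht2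
      have h2 := P646.norm_inv_one_add (q := 1 / 12) (by norm_num) ht
      rw [norm_mul, norm_mul, Complex.norm_real, Real.norm_of_nonneg hε.le]
      have e3 : ε * ‖g t‖ ≤ 1 / 16 := by
        calc ε * ‖g t‖ ≤ (1 / 32) * 2 := mul_le_mul hε1 ht2 (norm_nonneg _) (by norm_num)
          _ = 1 / 16 := by norm_num
      calc _ ≤ (1 / 16) * (1 - 1 / 12)⁻¹ := mul_le_mul e3 h2 (norm_nonneg _) (by norm_num)
        _ ≤ 1 / 12 := by norm_num) (M := B) (by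
      intro ζ hζ
      have h3 := hcon (ε * ζ) (by
        rw [norm_mul, hζ, mul_one, Complex.norm_real, Real.norm_of_nonneg hε.le])
      refine le_trans (le_of_eq ?_) h3.le
      congr 2
      funext t
      rw [map_mul, Complex.conj_ofReal]
      congr 1 <;> ring)
  have e4 : L (fun t => (ε : ℂ) * f t * (1 + W t)⁻¹) =
      (ε : ℂ) * L (fun t => f t * (1 + W t)⁻¹) := by
    rw [← hL.2.1 _ (mul_HInf hf hD') (ε : ℂ)]
    congr 1
    funext t
    ring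
  rw [e4, norm_mul, Complex.norm_real, Real.norm_of_nonneg hε.le] at key
  rw [div_lt_iff₀ hε] at h2
  linarith

/-- selection of a large and `L²`-small bump -/
lemma stage {L : ℕ → (T → ℂ) → ℂ} {K : ℕ → ℝ} (hL : ∀ n, IsFunc (L n) (K n))
    (hc : ∀ C : ℝ, 0 ≤ C → ∃ n, ∀ δ > 0, ∃ g ∈ HInf, (∀ᵐ t ∂mu, ‖g t‖ ≤ 1) ∧
      ∫ t, ‖g t‖ ^ 2 ∂mu ≤ δ ∧ C < ‖L n g‖) (m : ℕ) (B : ℝ) :
    ∃ (n : ℕ) (φ f k : T → ℂ), IsInner φ ∧ f ∈ HInf ∧ k ∈ HInf ∧
      (∀ᵐ t ∂mu, k t = φ t * conj (f t)) ∧ (∀ᵐ t ∂mu, ‖f t‖ ≤ 2) ∧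
      ∫ t, ‖φ t - 1‖ ^ 2 ∂mu ≤ ((1 / 2 : ℝ) ^ m) ^ 2 ∧
      ∀ D' ∈ HInf, (∀ᵐ t ∂mu, ‖1 - D' t‖ ≤ 1 / 4) → B < ‖L n (fun t => f t * D' t)‖ := by
  obtain ⟨n, hn⟩ := hc (2 * |B| + 4) (by positivity)
  have hK := (hL n).nonneg
  set A : Set ℝ := {C | ∀ δ > 0, ∃ g ∈ HInf, (∀ᵐ t ∂mu, ‖g t‖ ≤ 1) ∧
      ∫ t, ‖g t‖ ^ 2 ∂mu ≤ δ ∧ C < ‖L n g‖} with hA
  have hAne : (2 * |B| + 4) ∈ A := hn
  have hAb : BddAbove A := by
    refine ⟨K n, fun C hC => ?_⟩
    obtain ⟨g, hg, hg1, -, hg2⟩ := hC 1 one_pos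
    have := (hL n).2.2 g hg 1 hg1
    linarith
  set N := sSup A with hN
  have hN1 : 2 * |B| + 4 ≤ N := le_csSup hAb hAne
  obtain ⟨C, hCA, hC⟩ := exists_lt_of_lt_csSup ⟨_, hAne⟩ (show N - 1 < sSup A by linarith)
  have hNA : (N + 1) ∉ A := by
    intro h
    have := le_csSup hAb h
    linarith
  simp only [hA, Set.mem_ofPred_eq, not_forall, not_exists, not_and, not_lt] at hNA
  obtain ⟨δ₀, hδ₀, hsm⟩ := hNA
  obtain ⟨δ', hδ', happ⟩ := approx (η := (1 + K n)⁻¹) (δ := ((1 / 2 : ℝ) ^ m) ^ 2)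
    (by positivity) (by positivity)
  obtain ⟨g, hg, hg1, hg2, hg3⟩ := hCA (min δ₀ δ') (lt_min hδ₀ hδ')
  obtain ⟨φ, f, k, hφ, hf, hk, hkf, hfg, hφ1⟩ := happ g hg hg1
  have hη1 : (1 + K n)⁻¹ ≤ 1 := inv_le_one_of_one_le₀ (by linarith)
  refine ⟨n, φ, f, k, hφ, hf, hk, hkf, ?_, hφ1 (hg2.trans (min_le_right _ _)), ?_⟩
  · filter_upwards [hfg, hg1] with t a1 a2
    calc ‖f t‖ = ‖(f t - g t) + g t‖ := by ring_nf
      _ ≤ ‖f t - g t‖ + ‖g t‖ := norm_add_le _ _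
      _ ≤ 2 := by linarith
  · intro D' hD' hD1
    have m1 : (fun t => (f t - g t) * D' t) ∈ HInf := mul_HInf (sub_HInf hf hg) hD'
    have m2 : (fun t => 4 * (g t * (1 - D' t))) ∈ HInf :=
      smul_HInf (mul_HInf hg (sub_HInf (const_HInf 1) hD')) 4
    have m3 : (fun t => (f t - g t) * D' t + g t) ∈ HInf := add_HInf m1 hg
    -- decomposition
    have e1 : L n (fun t => (f t - g t) * D' t + g t) =
        L n (fun t => (f t - g t) * D' t) + L n g := (hL n).1 _ m1 _ hg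
    have e2 : L n (fun t => (-(1 / 4) : ℂ) * (4 * (g t * (1 - D' t)))) =
        (-(1 / 4) : ℂ) * L n (fun t => 4 * (g t * (1 - D' t))) := (hL n).2.1 _ m2 _
    have e3 : L n (fun t => ((f t - g t) * D' t + g t) +
        (-(1 / 4) : ℂ) * (4 * (g t * (1 - D' t)))) =
        L n (fun t => (f t - g t) * D' t + g t) +
        L n (fun t => (-(1 / 4) : ℂ) * (4 * (g t * (1 - D' t)))) :=
      (hL n).1 _ m3 _ (smul_HInf m2 _)
    have e4 : (fun t => ((f t - g t) * D' t + g t) +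
        (-(1 / 4) : ℂ) * (4 * (g t * (1 - D' t)))) = fun t => f t * D' t := by
      funext t; ring
    rw [e4, e1, e2] at e3
    have b1 : ‖L n (fun t => (f t - g t) * D' t)‖ ≤ 5 / 4 := by
      have := (hL n).2.2 _ m1 ((1 + K n)⁻¹ * (5 / 4)) (by
        filter_upwards [hfg, hD1] with t a1 a2
        rw [norm_mul]
        have a3 : ‖D' t‖ ≤ 5 / 4 := by
          calc ‖D' t‖ = ‖1 - (1 - D' t)‖ := by ring_nf
            _ ≤ ‖(1 : ℂ)‖ + ‖1 - D' t‖ := norm_sub_le _ _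
            _ ≤ 5 / 4 := by rw [norm_one]; linarith
        exact mul_le_mul a1 a3 (norm_nonneg _) (by positivity))
      refine this.trans ?_
      have h5 : K n * (1 + K n)⁻¹ ≤ 1 := by
        rw [← div_eq_mul_inv, div_le_one (by linarith)]; linarith
      nlinarith
    have b2 : ‖L n (fun t => 4 * (g t * (1 - D' t)))‖ ≤ N + 1 := by
      apply hsm _ m2
      · filter_upwards [hg1, hD1] with t a1 a2
        rw [norm_mul, norm_mul]
        simp only [Complex.norm_ofNat]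
        nlinarith [norm_nonneg (g t), norm_nonneg (1 - D' t)]
      · refine le_trans ?_ (hg2.trans (min_le_left _ _))
        apply integral_mono_of_nonneg (Eventually.of_forall fun _ => by positivity)
          (int_sq (memLp2 hg.1))
        filter_upwards [hD1] with t a2
        apply pow_le_pow_left₀ (norm_nonneg _)
        rw [norm_mul, norm_mul]
        simp only [Complex.norm_ofNat]
        nlinarith [norm_nonneg (g t), norm_nonneg (1 - D' t)]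
    have b3 : ‖L n g‖ ≤ ‖L n (fun t => f t * D' t)‖ + 5 / 4 + (N + 1) / 4 := by
      have e5 : L n g = L n (fun t => f t * D' t) + (- L n (fun t => (f t - g t) * D' t) +
          (1 / 4 : ℂ) * L n (fun t => 4 * (g t * (1 - D' t)))) := by
        rw [e3]; ring
      calc ‖L n g‖ = ‖L n (fun t => f t * D' t) + (- L n (fun t => (f t - g t) * D' t) +
          (1 / 4 : ℂ) * L n (fun t => 4 * (g t * (1 - D' t))))‖ := by rw [← e5]
        _ ≤ ‖L n (fun t => f t * D' t)‖ + ‖- L n (fun t => (f t - g t) * D' t) +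
          (1 / 4 : ℂ) * L n (fun t => 4 * (g t * (1 - D' t)))‖ := norm_add_le _ _
        _ ≤ ‖L n (fun t => f t * D' t)‖ + (‖- L n (fun t => (f t - g t) * D' t)‖ +
          ‖(1 / 4 : ℂ) * L n (fun t => 4 * (g t * (1 - D' t)))‖) :=
            add_le_add le_rfl (norm_add_le _ _)
        _ ≤ _ := by
            rw [norm_neg, norm_mul]
            have : ‖(1 / 4 : ℂ)‖ = 1 / 4 := by simp
            rw [this]
            linarith
    have := le_abs_self B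
    have h9 := abs_nonneg B
    linarith

theorem claim_one {L : ℕ → (T → ℂ) → ℂ} {K : ℕ → ℝ} (hL : ∀ n, IsFunc (L n) (K n))
    (hb : ∀ φ : T → ℂ, IsInner φ → ∃ C : ℝ, ∀ n, ‖L n φ‖ ≤ C) :
    ∃ C : ℝ, 0 ≤ C ∧ ∀ n, ∃ δ > 0, ∀ g ∈ HInf, (∀ᵐ t ∂mu, ‖g t‖ ≤ 1) →
      ∫ t, ‖g t‖ ^ 2 ∂mu ≤ δ → ‖L n g‖ ≤ C := by
  by_contra hcon
  push Not at hcon
  have hst := stage hL hcon
  choose n φ f k hφ hf hk hkf hfb hφ1 hlarge using hst
  -- the small numbers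
  let ε : ℕ → ℝ := fun j => Nat.rec (1 / 32 : ℝ)
    (fun j e => e / (4 * (1 + K (n j ((j + 1 : ℝ) / e))))) j
  have hε0 : ε 0 = 1 / 32 := rfl
  let b : ℕ → ℝ := fun j => (j + 1 : ℝ) / ε j
  have hεs : ∀ j, ε (j + 1) = ε j / (4 * (1 + K (n j (b j)))) := fun j => rfl
  have hK : ∀ m, 0 ≤ K m := fun m => (hL m).nonneg
  have hεpos : ∀ j, 0 < ε j := by
    intro j
    induction j with
    | zero => rw [hε0]; norm_num
    | succ j ih => rw [hεs]; have := hK (n j (b j)); positivity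
  have hε4 : ∀ j, 4 * ε (j + 1) ≤ ε j := by
    intro j
    rw [hεs]
    have h1 := hK (n j (b j))
    have h2 := hεpos j
    rw [← mul_div_assoc, div_le_iff₀ (by positivity)]
    nlinarith
  have hεK : ∀ j, 4 * ((1 + K (n j (b j))) * ε (j + 1)) = ε j := by
    intro j
    rw [hεs]
    have h1 := hK (n j (b j))
    field_simp
  have hε32 : ∀ j, ε j ≤ (1 / 32) * (1 / 4) ^ j := by
    intro j
    induction j with
    | zero => rw [hε0]; norm_num
    | succ j ih => have := hε4 j; rw [pow_succ]; linarith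
  have hε32' : ∀ j, ε j ≤ 1 / 32 := fun j => (hε32 j).trans (by
    have : (1 / 4 : ℝ) ^ j ≤ 1 := pow_le_one₀ (by norm_num) (by norm_num)
    linarith)
  -- the product
  obtain ⟨P, hP, hQ⟩ := inf_prod (φ := fun j => φ j (b j)) (fun j => hφ j (b j))
    (fun j => hφ1 j (b j))
  choose Q hQi hPQ using hQ
  let F : ℕ → T → ℂ := fun j => f j (b j)
  let G : ℕ → T → ℂ := fun j t => Q j t * k j (b j) t
  have hFm : ∀ j, F j ∈ HInf := fun j => hf j (b j)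
  have hGm : ∀ j, G j ∈ HInf := fun j => mul_HInf (hQi j).1 (hk j (b j))
  have hFb : ∀ j, ∀ᵐ t ∂mu, ‖F j t‖ ≤ 2 := fun j => hfb j (b j)
  have hGF : ∀ j, ∀ᵐ t ∂mu, G j t = P t * conj (F j t) := by
    intro j
    filter_upwards [hPQ j, hkf j (b j)] with t a1 a2
    simp only [G, F]
    rw [a1, a2]
    ring
  have hGb : ∀ j, ∀ᵐ t ∂mu, ‖G j t‖ ≤ 2 := by
    intro j
    filter_upwards [hGF j, hFb j, hP.2] with t a1 a2 a3
    rw [a1, norm_mul, a3, one_mul, RCLike.norm_conj]; exact a2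
  -- the recursion
  let Inv : ℕ → (T → ℂ) × (T → ℂ) → Prop := fun j x => x.1 ∈ HInf ∧ x.2 ∈ HInf ∧
    (∀ᵐ t ∂mu, x.1 t = P t * conj (1 + x.2 t)) ∧
    ∀ᵐ t ∂mu, ‖x.2 t‖ ≤ (8 / 3) * (1 / 32 - ε j)
  have hstep : ∀ j x, ∃ y : (T → ℂ) × (T → ℂ), Inv j x → (Inv (j + 1) y ∧
      (∀ᵐ t ∂mu, ‖y.1 t - x.1 t‖ ≤ 2 * ε j) ∧ (∀ᵐ t ∂mu, ‖y.2 t - x.2 t‖ ≤ 2 * ε j) ∧
      (j + 1 : ℝ) ≤ ‖L (n j (b j)) (fun t => y.1 t / (1 + y.2 t))‖) := by
    intro j x
    by_cases hx : Inv j x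
    swap
    · exact ⟨x, fun h => absurd h hx⟩
    obtain ⟨hx1, hx2, hx3, hx4⟩ := hx
    obtain ⟨a, ha, haL⟩ := hump_step (hL (n j (b j))) (P := P) (H := x.1) (W := x.2)
      (f := F j) (g := G j) hx1 hx2 (by
        filter_upwards [hx4] with t ht
        have := hεpos j
        linarith) (hFm j) (hGm j) (hGF j) hP (hFb j) (hεpos j) (hε32' j)
      (B := (j + 1 : ℝ)) (fun D' hD' hD1 => hlarge j (b j) D' hD' hD1)
    refine ⟨(fun t => x.1 t + a * F j t, fun t => x.2 t + conj a * G j t), fun _ =>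
      ⟨⟨add_HInf hx1 (smul_HInf (hFm j) a), add_HInf hx2 (smul_HInf (hGm j) _), ?_, ?_⟩,
        ?_, ?_, haL⟩⟩
    · filter_upwards [hx3, hGF j, hP.2] with t a1 a2 a3
      have c1 : P t * conj (P t) = 1 := by
        rw [Complex.mul_conj, Complex.normSq_eq_norm_sq, a3]; simp
      rw [a1, a2]
      simp only [map_add, map_mul, Complex.conj_conj, map_one]
      linear_combination (- a * F j t) * c1
    · filter_upwards [hx4, hGb j] with t a1 a2
      have h4 := hε4 j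
      have h5 := hεpos j
      calc ‖x.2 t + conj a * G j t‖ ≤ ‖x.2 t‖ + ‖conj a * G j t‖ := norm_add_le _ _
        _ ≤ (8 / 3) * (1 / 32 - ε j) + ε j * 2 := by
            apply add_le_add a1
            rw [norm_mul, RCLike.norm_conj, ha]
            exact mul_le_mul_of_nonneg_left a2 h5.le
        _ ≤ (8 / 3) * (1 / 32 - ε (j + 1)) := by linarith
    · filter_upwards [hFb j] with t a1
      have h5 := hεpos j
      show ‖x.1 t + a * F j t - x.1 t‖ ≤ 2 * ε j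
      rw [add_sub_cancel_left]
      rw [norm_mul, ha]
      nlinarith
    · filter_upwards [hGb j] with t a1
      have h5 := hεpos j
      show ‖x.2 t + conj a * G j t - x.2 t‖ ≤ 2 * ε j
      rw [add_sub_cancel_left]
      rw [norm_mul, RCLike.norm_conj, ha]
      nlinarith
  choose nx hnx using hstep
  let x : ℕ → (T → ℂ) × (T → ℂ) := fun j => Nat.rec (P, fun _ => 0) (fun j y => nx j y) j
  have hx0 : x 0 = (P, fun _ => 0) := rfl
  have hxs : ∀ j, x (j + 1) = nx j (x j) := fun j => rfl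
  have hInv : ∀ j, Inv j (x j) := by
    intro j
    induction j with
    | zero =>
      rw [hx0]
      refine ⟨hP.1, const_HInf 0, Eventually.of_forall fun t => by simp, ?_⟩
      exact Eventually.of_forall fun t => by rw [hε0]; simp
    | succ j ih => rw [hxs]; exact (hnx j (x j) ih).1
  have hx4 : ∀ j, ∀ᵐ t ∂mu, ‖(x j).2 t‖ ≤ 1 / 4 := by
    intro j
    filter_upwards [(hInv j).2.2.2] with t ht
    have := hεpos j
    linarith
  let Φ : ℕ → T → ℂ := fun j t => (x j).1 t / (1 + (x j).2 t)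
  have hΦ : ∀ j, IsInner (Φ j) := fun j =>
    quot_inner hP (hInv j).1 (hInv j).2.1 (hInv j).2.2.1 (hx4 j)
  have hΦd : ∀ j, ∀ᵐ t ∂mu, ‖Φ (j + 1) t - Φ j t‖ ≤ 8 * ε j - 8 * ε (j + 1) := by
    intro j
    obtain ⟨-, h1, h2, -⟩ := hnx j (x j) (hInv j)
    rw [← hxs] at h1 h2
    filter_upwards [h1, h2, hx4 j, hx4 (j + 1), (hΦ j).2] with t a1 a2 a3 a4 a5
    have h4 := hε4 j
    refine (quot_diff (hεpos j).le a5 a3 a4 a1 a2).trans ?_
    linarith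
  obtain ⟨Ψ, hΨ, hΨc⟩ := unif_lim (τ := fun j => 8 * ε j) hΦ
    (fun j => by have := hεpos j; positivity) (by
      refine squeeze_zero (fun j => by have := hεpos j; positivity)
        (fun j => (by have := hε32 j; linarith : 8 * ε j ≤ (1 / 4) * (1 / 4) ^ j)) ?_
      have := (tendsto_pow_atTop_nhds_zero_of_lt_one (r := (1 / 4 : ℝ)) (by norm_num)
        (by norm_num)).const_mul (1 / 4)
      simpa using this) hΦd
  obtain ⟨C, hC⟩ := hb Ψ hΨ
  obtain ⟨j, hj⟩ := exists_nat_gt C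
  obtain ⟨-, -, -, h3⟩ := hnx j (x j) (hInv j)
  rw [← hxs] at h3
  have h4 := P646.L_sub (hL (n j (b j))) hΨ.1 (hΦ (j + 1)).1 (hΨc (j + 1))
  have h5 : K (n j (b j)) * (8 * ε (j + 1)) ≤ 1 := by
    have h6 := hεK j
    have h7 := hεpos (j + 1)
    have h8 := hε32' j
    nlinarith
  have h6 : (j + 1 : ℝ) ≤ ‖L (n j (b j)) (Φ (j + 1))‖ := h3
  have h7 : ‖L (n j (b j)) (Φ (j + 1))‖ ≤ ‖L (n j (b j)) Ψ‖ +
      ‖L (n j (b j)) Ψ - L (n j (b j)) (Φ (j + 1))‖ := by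
    calc ‖L (n j (b j)) (Φ (j + 1))‖ =
        ‖L (n j (b j)) Ψ - (L (n j (b j)) Ψ - L (n j (b j)) (Φ (j + 1)))‖ := by ring_nf
      _ ≤ _ := norm_sub_le _ _
  have h8 := hC (n j (b j))
  linarith

end Pool.Agent.Helper900.UB
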