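import Pool.Agent.Helper900.UB.ClaimOne

set_option autoImplicit false

namespace Pool.Agent.Helper900.UB

open MeasureTheory AddCircle Complex Filter Topology
open scoped ENNReal ComplexConjugate

lemma IsFunc.comp_mul {L : (T → ℂ) → ℂ} {K : ℝ} (hL : IsFunc L K) {V : T → ℂ} (hV : IsInner V) :
    IsFunc (fun f => L (fun t => V t * f t)) K := by
  refine ⟨fun f hf g hg => ?_, fun f hf c => ?_, fun f hf M hM => ?_⟩
  · show L (fun t => V t * (f t + g t)) = L (fun t => V t * f t) + L (fun t => V t * g t)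
    rw [← hL.1 _ (mul_HInf hV.1 hf) _ (mul_HInf hV.1 hg)]
    congr 1; funext t; ring
  · show L (fun t => V t * (c * f t)) = c * L (fun t => V t * f t)
    rw [← hL.2.1 _ (mul_HInf hV.1 hf) c]
    congr 1; funext t; ring
  · apply hL.2.2 _ (mul_HInf hV.1 hf)
    filter_upwards [hM, hV.2] with t a1 a2
    rw [norm_mul, a2, one_mul]; exact a1

lemma n2_lp (F G : Lp ℂ 2 mu) : n2 (fun t => F t - G t) = ‖F - G‖ := by
  have h := n2_eq (Lp.memLp (F - G))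
  rw [Lp.toLp_coeFn] at h
  rw [← h]
  apply n2_congr
  filter_upwards [Lp.coeFn_sub F G] with t ht
  rw [ht]; rfl

lemma closed_inner : IsClosed {F : Lp ℂ 2 mu | IsInner (F : T → ℂ)} := by
  apply isClosed_of_closure_subset
  intro F hF
  have h1 : ∀ n : ℕ, ∃ P : Lp ℂ 2 mu, IsInner (P : T → ℂ) ∧ ‖F - P‖ < (1 / 2 : ℝ) ^ (n + 1) := by
    intro n
    obtain ⟨P, hP, hd⟩ := Metric.mem_closure_iff.1 hF ((1 / 2 : ℝ) ^ (n + 1)) (by positivity)
    exact ⟨P, hP, by rwa [dist_eq_norm] at hd⟩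
  choose P hP hd using h1
  obtain ⟨B, hB, hlim⟩ := P647.lim_inner (P := fun n => (P n : T → ℂ)) hP (by
    intro n
    have h2 : n2 (fun t => P (n + 1) t - P n t) ≤ (1 / 2 : ℝ) ^ n := by
      rw [n2_lp]
      have h3 := hd n
      have h4 := hd (n + 1)
      calc ‖P (n + 1) - P n‖ = ‖(F - P n) - (F - P (n + 1))‖ := by congr 1; abel
        _ ≤ ‖F - P n‖ + ‖F - P (n + 1)‖ := norm_sub_le _ _
        _ ≤ (1 / 2 : ℝ) ^ (n + 1) + (1 / 2 : ℝ) ^ (n + 1 + 1) := add_le_add h3.le h4.le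
        _ ≤ (1 / 2 : ℝ) ^ n := by
          simp only [pow_succ]
          have : (0 : ℝ) < (1 / 2) ^ n := by positivity
          linarith
    rw [← n2_sq]
    exact pow_le_pow_left₀ (n2_nonneg _) h2 2)
  -- the limit is `F`
  have hB2 := memLp2 hB.1.1
  have h5 : Tendsto (fun n => ‖P n - hB2.toLp B‖) atTop (𝓝 0) := by
    have h6 : Tendsto (fun n => Real.sqrt (∫ t, ‖P n t - B t‖ ^ 2 ∂mu)) atTop (𝓝 (Real.sqrt 0)) :=
      (Real.continuous_sqrt.tendsto 0).comp hlim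
    rw [Real.sqrt_zero] at h6
    refine h6.congr fun n => ?_
    rw [← n2_lp]
    apply n2_congr
    filter_upwards [hB2.coeFn_toLp] with t ht
    rw [ht]
  have h7 : Tendsto P atTop (𝓝 (hB2.toLp B)) := tendsto_iff_norm_sub_tendsto_zero.2 h5
  have h8 : Tendsto P atTop (𝓝 F) := by
    apply tendsto_iff_norm_sub_tendsto_zero.2
    refine squeeze_zero (fun n => norm_nonneg _) (fun n => (?_ : _ ≤ (1 / 2 : ℝ) ^ (n + 1)))
      ((tendsto_pow_atTop_nhds_zero_of_lt_one (by norm_num) (by norm_num)).comp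
        (tendsto_add_atTop_nat 1))
    rw [norm_sub_rev]
    exact (hd n).le
  have h9 : F = hB2.toLp B := tendsto_nhds_unique h8 h7
  have h10 : (F : T → ℂ) =ᵐ[mu] B := by rw [h9]; exact hB2.coeFn_toLp
  refine ⟨congr_HInf hB.1 h10.symm, ?_⟩
  filter_upwards [h10, hB.2] with t a1 a2
  rw [a1, a2]

lemma inner_toLp {φ : T → ℂ} (hφ : IsInner φ) :
    IsInner (((memLp2 hφ.1.1).toLp φ : Lp ℂ 2 mu) : T → ℂ) := by
  have h := (memLp2 hφ.1.1).coeFn_toLp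
  refine ⟨congr_HInf hφ.1 h.symm, ?_⟩
  filter_upwards [h, hφ.2] with t a1 a2
  rw [a1, a2]

lemma baire {L : ℕ → (T → ℂ) → ℂ} {K : ℕ → ℝ} (hL : ∀ n, IsFunc (L n) (K n))
    (hb : ∀ φ : T → ℂ, IsInner φ → ∃ C : ℝ, ∀ n, ‖L n φ‖ ≤ C) {C : ℝ} (hC : 0 ≤ C)
    (h1 : ∀ n, ∃ δ > 0, ∀ g ∈ HInf, (∀ᵐ t ∂mu, ‖g t‖ ≤ 1) →
      ∫ t, ‖g t‖ ^ 2 ∂mu ≤ δ → ‖L n g‖ ≤ C) :
    ∃ φ₀ : T → ℂ, IsInner φ₀ ∧ ∃ r > 0, ∃ M : ℝ, 0 ≤ M ∧ ∀ φ : T → ℂ, IsInner φ →
      n2 (fun t => φ t - φ₀ t) < r → ∀ n, ‖L n φ‖ ≤ M := by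
  set X : Set (Lp ℂ 2 mu) := {F | IsInner (F : T → ℂ)} with hX
  have : CompleteSpace X := closed_inner.completeSpace_coe
  have : Nonempty X := ⟨⟨_, inner_toLp inner_one⟩⟩
  obtain ⟨m, x0, hx0⟩ := nonempty_interior_of_iUnion_of_closed
    (f := fun m : ℕ => closure {x : X | ∀ n, ‖L n ((x : Lp ℂ 2 mu) : T → ℂ)‖ ≤ m})
    (fun _ => isClosed_closure) (by
      apply Set.eq_univ_of_forall
      intro x
      obtain ⟨D, hD⟩ := hb _ x.2
      obtain ⟨m, hm⟩ := exists_nat_ge D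
      exact Set.mem_iUnion.2 ⟨m, subset_closure fun n => (hD n).trans hm⟩)
  obtain ⟨r, hr, hball⟩ := Metric.isOpen_iff.1 isOpen_interior x0 hx0
  refine ⟨((x0 : Lp ℂ 2 mu) : T → ℂ), x0.2, r, hr, m + 2 * C, by positivity,
    fun φ hφ hd n => ?_⟩
  have hφ' := inner_toLp hφ
  let x : X := ⟨(memLp2 hφ.1.1).toLp φ, hφ'⟩
  have hxd : dist x x0 < r := by
    rw [Subtype.dist_eq, dist_eq_norm, ← n2_lp]
    refine lt_of_le_of_lt (le_of_eq ?_) hd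
    apply n2_congr
    filter_upwards [(memLp2 hφ.1.1).coeFn_toLp] with t ht
    show ‖((memLp2 hφ.1.1).toLp φ : Lp ℂ 2 mu) t - _‖ = _
    rw [ht]
  have hxc := interior_subset (hball hxd)
  obtain ⟨δ, hδ, hs⟩ := h1 n
  obtain ⟨y, hy, hxy⟩ := Metric.mem_closure_iff.1 hxc (Real.sqrt δ) (Real.sqrt_pos.2 hδ)
  have hyn : ‖L n ((y : Lp ℂ 2 mu) : T → ℂ)‖ ≤ m := hy n
  rw [Subtype.dist_eq, dist_eq_norm, ← n2_lp] at hxy
  have e0 : L n φ = L n ((x : Lp ℂ 2 mu) : T → ℂ) :=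
    P646.L_congr (hL n) hφ.1 hφ'.1 (by
      filter_upwards [(memLp2 hφ.1.1).coeFn_toLp] with t ht
      exact ht.symm)
  have hxi : IsInner ((x : Lp ℂ 2 mu) : T → ℂ) := hφ'
  have hyi : IsInner ((y : Lp ℂ 2 mu) : T → ℂ) := y.2
  have m1 := sub_HInf hxi.1 hyi.1
  have m2 : (fun t => (1 / 2 : ℂ) * (((x : Lp ℂ 2 mu) : T → ℂ) t - ((y : Lp ℂ 2 mu) : T → ℂ) t))
    ∈ HInf := smul_HInf m1 _
  have h2 := hs _ m2 (by
    filter_upwards [hxi.2, hyi.2] with t a1 a2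
    rw [norm_mul]
    have h3 : ‖((x : Lp ℂ 2 mu) : T → ℂ) t - ((y : Lp ℂ 2 mu) : T → ℂ) t‖ ≤ 2 := by
      refine (norm_sub_le _ _).trans ?_
      rw [a1, a2]; norm_num
    have : ‖(1 / 2 : ℂ)‖ = 1 / 2 := by simp
    rw [this]; linarith) (by
    rw [← n2_sq, n2_smul]
    have : ‖(1 / 2 : ℂ)‖ = 1 / 2 := by simp
    rw [this]
    have h4 : 0 ≤ n2 (fun t => ((x : Lp ℂ 2 mu) : T → ℂ) t - ((y : Lp ℂ 2 mu) : T → ℂ) t) :=
      n2_nonneg _
    have h5 : (1 / 2) * n2 (fun t => ((x : Lp ℂ 2 mu) : T → ℂ) t -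
      ((y : Lp ℂ 2 mu) : T → ℂ) t) ≤ Real.sqrt δ := by linarith
    calc _ ≤ Real.sqrt δ ^ 2 := pow_le_pow_left₀ (by positivity) h5 2
      _ = δ := Real.sq_sqrt hδ.le)
  have e1 := (hL n).2.1 _ m2 2
  have e2 := (hL n).1 _ (smul_HInf m2 2) _ hyi.1
  rw [e1] at e2
  have e3 : (fun t => 2 * ((1 / 2 : ℂ) * (((x : Lp ℂ 2 mu) : T → ℂ) t -
      ((y : Lp ℂ 2 mu) : T → ℂ) t)) + ((y : Lp ℂ 2 mu) : T → ℂ) t) =
      ((x : Lp ℂ 2 mu) : T → ℂ) := by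
    funext t; ring
  rw [e3] at e2
  rw [e0, e2]
  calc _ ≤ ‖(2 : ℂ) * L n (fun t => (1 / 2 : ℂ) * (((x : Lp ℂ 2 mu) : T → ℂ) t -
      ((y : Lp ℂ 2 mu) : T → ℂ) t))‖ + ‖L n ((y : Lp ℂ 2 mu) : T → ℂ)‖ := norm_add_le _ _
    _ ≤ 2 * C + m := by
        rw [norm_mul]
        have : ‖(2 : ℂ)‖ = 2 := by simp
        rw [this]
        linarith
    _ = m + 2 * C := by ring

/-- Frostman averaging around `φ₀` -/
lemma frost_step {L : (T → ℂ) → ℂ} {K : ℝ} (hL : IsFunc L K) {φ₀ : T → ℂ} (hφ₀ : IsInner φ₀)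
    {r M : ℝ} (hM0 : 0 ≤ M)
    (hM : ∀ φ : T → ℂ, IsInner φ → n2 (fun t => φ t - φ₀ t) < r → ‖L φ‖ ≤ M)
    {a : ℝ} (ha0 : 0 < a) (ha1 : a < 1) (har : 6 * (1 - a) < r ^ 2) (hr : 0 < r)
    {ψ : T → ℂ} (hψ : IsInner ψ) (hψ0 : ‖∫ t, ψ t ∂mu‖ ≤ 1 / 2) :
    ‖L (fun t => φ₀ t * ψ t)‖ ≤ M / (1 - a ^ 2) := by
  have ha2 : 0 < 1 - a ^ 2 := by nlinarith
  rw [le_div_iff₀ ha2, mul_comm]
  refine avg_frostman (hL.comp_mul hφ₀) hψ.1 (by filter_upwards [hψ.2] with t ht; exact ht.le)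
    ha0 ha1 (M := M) ?_
  intro ζ hζ
  have hmem := frostman_mem hψ.1 (by filter_upwards [hψ.2] with t ht; exact ht.le) ha0 ha1 ζ hζ
  have hb1 := P646.frost_bound (w := ψ) (by filter_upwards [hψ.2] with t ht; exact ht.le) ha0 hζ
  have hin : IsInner (fun t => (a + ζ * ψ t) / (1 + a * ζ * ψ t)) := by
    refine ⟨hmem, ?_⟩
    filter_upwards [hψ.2, hb1] with t a1 a2
    have h0 := P646.one_add_ne ha1 a2
    have hw : ‖ζ * ψ t‖ = 1 := by rw [norm_mul, hζ, a1, one_mul]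
    have hw2 : (ζ * ψ t) * conj (ζ * ψ t) = 1 := by
      rw [Complex.mul_conj, Complex.normSq_eq_norm_sq, hw]; simp
    have e1 : (a : ℂ) + ζ * ψ t = (ζ * ψ t) * conj (1 + a * ζ * ψ t) := by
      simp only [map_add, map_mul, map_one, Complex.conj_ofReal] at hw2 ⊢
      linear_combination (-(a : ℂ)) * hw2
    rw [norm_div, e1, norm_mul, hw, one_mul, RCLike.norm_conj, div_self]
    exact norm_ne_zero_iff.2 h0
  apply hM _ (inner_mul hφ₀ hin)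
  -- distance
  have e2 : n2 (fun t => φ₀ t * ((a + ζ * ψ t) / (1 + a * ζ * ψ t)) - φ₀ t) =
      n2 (fun t => (a + ζ * ψ t) / (1 + a * ζ * ψ t) - 1) := by
    apply n2_congr
    filter_upwards [hφ₀.2] with t ht
    rw [show φ₀ t * ((a + ζ * ψ t) / (1 + a * ζ * ψ t)) - φ₀ t =
      φ₀ t * ((a + ζ * ψ t) / (1 + a * ζ * ψ t) - 1) by ring, norm_mul, ht, one_mul]
  rw [e2]
  apply lt_of_pow_lt_pow_left₀ 2 hr.le
  refine lt_of_le_of_lt ?_ har
  rw [n2_sq, inner_dist_one hin]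
  -- the integral
  have hden : (fun t => 1 + (a : ℂ) * ζ * ψ t) ∈ HInf :=
    add_HInf (const_HInf 1) (smul_HInf hψ.1 _)
  have hnum : (fun t => (a : ℂ) + ζ * ψ t) ∈ HInf :=
    add_HInf (const_HInf _) (smul_HInf hψ.1 _)
  have h0 : ‖(0 : ℂ)‖ < 1 := by simp
  have e3 := ext_mul hmem hden h0
  have e4 : ext (fun t => (a + ζ * ψ t) / (1 + a * ζ * ψ t) * (1 + (a : ℂ) * ζ * ψ t)) 0 =
      ext (fun t => (a : ℂ) + ζ * ψ t) 0 := by
    apply ext_congr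
    filter_upwards [hb1] with t ht
    exact div_mul_cancel₀ _ (P646.one_add_ne ha1 ht)
  rw [e4] at e3
  rw [ext_add (memLp_integrable (const_HInf (a : ℂ)).1)
    (memLp_integrable (smul_HInf hψ.1 ζ).1) h0, ext_const _ h0,
    ext_smul (memLp_integrable hψ.1.1) _ h0,
    ext_add (memLp_integrable (const_HInf (1 : ℂ)).1)
    (memLp_integrable (smul_HInf hψ.1 ((a : ℂ) * ζ)).1) h0, ext_const _ h0,
    ext_smul (memLp_integrable hψ.1.1) _ h0, ← int_HInf hψ.1, ← int_HInf hmem] at e3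
  set I := ∫ t, (a + ζ * ψ t) / (1 + a * ζ * ψ t) ∂mu
  set w := ζ * ∫ t, ψ t ∂mu with hw
  have hwn : ‖w‖ ≤ 1 / 2 := by rw [hw, norm_mul, hζ, one_mul]; exact hψ0
  have e5 : (a : ℂ) + w = I * (1 + a * w) := by rw [e3, hw]; ring
  have haw : ‖(a : ℂ) * w‖ ≤ 1 / 2 := by
    rw [norm_mul, Complex.norm_real, Real.norm_of_nonneg ha0.le]
    nlinarith [norm_nonneg w]
  have h1 := P646.one_add_ne (q := 1 / 2) (by norm_num) haw
  have h2 := P646.norm_inv_one_add (q := 1 / 2) (by norm_num) haw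
  have e6 : 1 - I = ((1 - a : ℝ) : ℂ) * (1 - w) * (1 + a * w)⁻¹ := by
    have : I = (a + w) * (1 + a * w)⁻¹ := by rw [e5]; field_simp
    rw [this]
    field_simp
    push_cast
    ring
  have h3 : ‖1 - I‖ ≤ 3 * (1 - a) := by
    rw [e6, norm_mul, norm_mul, Complex.norm_real, Real.norm_of_nonneg (by linarith)]
    have h4 : ‖1 - w‖ ≤ 3 / 2 := by
      refine (norm_sub_le _ _).trans ?_
      rw [norm_one]; linarith
    have h5 : (1 - 1 / 2 : ℝ)⁻¹ = 2 := by norm_num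
    rw [h5] at h2
    calc (1 - a) * ‖1 - w‖ * ‖(1 + a * w)⁻¹‖ ≤ (1 - a) * (3 / 2) * 2 := by
          apply mul_le_mul _ h2 (norm_nonneg _) (by nlinarith)
          exact mul_le_mul_of_nonneg_left h4 (by linarith)
      _ = 3 * (1 - a) := by ring
  have h6 : (1 - I).re ≤ ‖1 - I‖ := Complex.re_le_norm _
  rw [Complex.sub_re, Complex.one_re] at h6
  linarith

/-- Marshall's averaging around `φ₀` -/
lemma marshall_step {L : (T → ℂ) → ℂ} {K : ℝ} (hL : IsFunc L K) {φ₀ : T → ℂ} (hφ₀ : IsInner φ₀)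
    {M : ℝ} (hM : ∀ ψ : T → ℂ, IsInner ψ → ‖∫ t, ψ t ∂mu‖ ≤ 1 / 2 → ‖L (fun t => φ₀ t * ψ t)‖ ≤ M)
    {φ f k : T → ℂ} (hφ : IsInner φ) (hf : f ∈ HInf) (hk : k ∈ HInf)
    (hkf : ∀ᵐ t ∂mu, k t = φ t * conj (f t)) (hfb : ∀ᵐ t ∂mu, ‖f t‖ ≤ 1 / 2) :
    ‖L (fun t => φ₀ t * f t)‖ ≤ M := by
  have hkb : ∀ᵐ t ∂mu, ‖k t‖ ≤ 1 / 2 := by
    filter_upwards [hkf, hfb, hφ.2] with t a1 a2 a3
    rw [a1, norm_mul, a3, one_mul, RCLike.norm_conj]; exact a2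
  have mzφ := mul_e_HInf hφ.1
  have mzk := mul_e_HInf hk
  have h0 : ‖(0 : ℂ)‖ < 1 := by simp
  have key := avg_mobius (hL.comp_mul hφ₀) (H := fun t => φ t * e 1 t) (f := f)
    (g := fun t => k t * e 1 t) (D := fun _ => 1) (D' := fun _ => 1) mzφ hf mzk
    (const_HInf 1) (const_HInf 1) (Eventually.of_forall fun _ => one_mul 1) (q := 1 / 2)
    (by norm_num) (by
      filter_upwards [hkb] with t ht
      rw [mul_one, norm_mul, e_norm, mul_one]; exact ht) (M := M) (by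
      intro ζ hζ
      have hmem := mobius_mem (D := fun _ => 1) (D' := fun _ => 1) mzφ hf mzk
        (const_HInf 1) (const_HInf 1) (Eventually.of_forall fun _ => one_mul 1) (q := 1 / 2)
        (by norm_num) (by
          filter_upwards [hkb] with t ht
          rw [mul_one, norm_mul, e_norm, mul_one]; exact ht) ζ hζ
      have hcz : ‖conj ζ‖ = 1 := by rw [RCLike.norm_conj]; exact hζ
      have hζ2 : ζ * conj ζ = 1 := by
        rw [Complex.mul_conj, Complex.normSq_eq_norm_sq, hζ]; simp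
      have hden : ∀ᵐ t ∂mu, 1 + conj ζ * (k t * e 1 t) ≠ 0 := by
        filter_upwards [hkb] with t ht
        apply P646.one_add_ne (q := 1 / 2) (by norm_num)
        rw [norm_mul, norm_mul, e_norm, mul_one, hcz, one_mul]; exact ht
      apply hM _ ⟨hmem, ?_⟩ ?_
      · filter_upwards [hkf, hφ.2, hden] with t a1 a2 a3
        have c1 : φ t * conj (φ t) = 1 := by
          rw [Complex.mul_conj, Complex.normSq_eq_norm_sq, a2]; simp
        have c2 : e 1 t * conj (e 1 t) = 1 := by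
          rw [Complex.mul_conj, Complex.normSq_eq_norm_sq, e_norm]; simp
        have e1 : φ t * e 1 t + ζ * f t =
            (φ t * e 1 t) * conj (1 + conj ζ * (k t * e 1 t)) := by
          rw [a1]
          simp only [map_add, map_mul, map_one, Complex.conj_conj]
          linear_combination (-ζ * f t * e 1 t * conj (e 1 t)) * c1 - (ζ * f t) * c2
        rw [norm_div, e1, norm_mul, norm_mul, a2, e_norm, one_mul, one_mul, RCLike.norm_conj,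
          div_self]
        exact norm_ne_zero_iff.2 a3
      · -- the value at the origin
        have mden : (fun t => 1 + conj ζ * (k t * e 1 t)) ∈ HInf :=
          add_HInf (const_HInf 1) (smul_HInf mzk _)
        have e3 := ext_mul hmem mden h0
        have e4 : ext (fun t => (φ t * e 1 t + ζ * f t) / (1 + conj ζ * (k t * e 1 t)) *
            (1 + conj ζ * (k t * e 1 t))) 0 = ext (fun t => φ t * e 1 t + ζ * f t) 0 := by
          apply ext_congr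
          filter_upwards [hden] with t ht
          exact div_mul_cancel₀ _ ht
        rw [e4] at e3
        rw [ext_add (memLp_integrable mzφ.1) (memLp_integrable (smul_HInf hf ζ).1) h0,
          ext_mul hφ.1 e1_HInf h0, ext_e1 h0, mul_zero, zero_add,
          ext_smul (memLp_integrable hf.1) _ h0,
          ext_add (memLp_integrable (const_HInf (1 : ℂ)).1)
          (memLp_integrable (smul_HInf mzk (conj ζ)).1) h0, ext_const _ h0,
          ext_smul (memLp_integrable mzk.1) _ h0, ext_mul hk e1_HInf h0, ext_e1 h0, mul_zero,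
          mul_zero, add_zero, mul_one, ← int_HInf hmem] at e3
        rw [← e3, norm_mul, hζ, one_mul]
        exact ext_bound hf hfb h0)
  simpa using key

theorem claim_two {L : ℕ → (T → ℂ) → ℂ} {K : ℕ → ℝ} (hL : ∀ n, IsFunc (L n) (K n))
    (hb : ∀ φ : T → ℂ, IsInner φ → ∃ C : ℝ, ∀ n, ‖L n φ‖ ≤ C) {C : ℝ} (hC : 0 ≤ C)
    (h1 : ∀ n, ∃ δ > 0, ∀ g ∈ HInf, (∀ᵐ t ∂mu, ‖g t‖ ≤ 1) →
      ∫ t, ‖g t‖ ^ 2 ∂mu ≤ δ → ‖L n g‖ ≤ C) :
    ∃ C : ℝ, ∀ n, ∀ f ∈ HInf, (∀ᵐ t ∂mu, ‖f t‖ ≤ 1) → ‖L n f‖ ≤ C := by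
  obtain ⟨φ₀, hφ₀, r, hr, M, hM0, hM⟩ := baire hL hb hC h1
  -- choice of `a`
  obtain ⟨a, ha0, ha1, har⟩ : ∃ a : ℝ, 0 < a ∧ a < 1 ∧ 6 * (1 - a) < r ^ 2 := by
    refine ⟨max (1 / 2) (1 - r ^ 2 / 12), lt_max_of_lt_left (by norm_num),
      max_lt (by norm_num) (by have := pow_pos hr 2; linarith), ?_⟩
    have := le_max_right (1 / 2) (1 - r ^ 2 / 12)
    have h2 := pow_pos hr 2
    linarith
  set M₂ := M / (1 - a ^ 2) with hM₂
  have ha2 : 0 < 1 - a ^ 2 := by nlinarith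
  have hM₂0 : 0 ≤ M₂ := by positivity
  have s2 : ∀ n, ∀ ψ : T → ℂ, IsInner ψ → ‖∫ t, ψ t ∂mu‖ ≤ 1 / 2 →
      ‖L n (fun t => φ₀ t * ψ t)‖ ≤ M₂ := fun n ψ hψ h0 =>
    frost_step (hL n) hφ₀ hM0 (fun φ hφ hd => hM φ hφ hd n) ha0 ha1 har hr hψ h0
  -- all functions
  have s3 : ∀ n, ∀ g ∈ HInf, (∀ᵐ t ∂mu, ‖g t‖ ≤ 1) → ‖L n (fun t => φ₀ t * g t)‖ ≤ 4 * M₂ + 1 := by
    intro n g hg hg1
    have hK := (hL n).nonneg
    have hη : 0 < (1 + K n)⁻¹ := by positivity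
    have hη1 : (1 + K n)⁻¹ ≤ 1 := inv_le_one_of_one_le₀ (by linarith)
    obtain ⟨δ₁, hδ₁, happ⟩ := approx (η := (1 + K n)⁻¹) (δ := 1) hη one_pos
    obtain ⟨φ, f, k, hφ, hf, hk, hkf, hfg, -⟩ := happ g hg hg1
    have m4 : (fun t => (1 / 4 : ℂ) * f t) ∈ HInf := smul_HInf hf _
    have h4 : ‖(1 / 4 : ℂ)‖ = 1 / 4 := by simp
    have t1 := marshall_step (hL n) hφ₀ (s2 n) hφ m4 (smul_HInf hk (1 / 4 : ℂ)) (by
      filter_upwards [hkf] with t ht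
      rw [ht, map_mul]
      have : conj (1 / 4 : ℂ) = 1 / 4 := by rw [map_div₀, map_one, map_ofNat]
      rw [this]
      ring) (by
      filter_upwards [hfg, hg1] with t a1 a2
      rw [norm_mul, h4]
      have : ‖f t‖ ≤ 2 := by
        calc ‖f t‖ = ‖(f t - g t) + g t‖ := by ring_nf
          _ ≤ ‖f t - g t‖ + ‖g t‖ := norm_add_le _ _
          _ ≤ 2 := by linarith
      linarith)
    have hLc := (hL n).comp_mul hφ₀
    have e1 : L n (fun t => φ₀ t * ((1 / 4 : ℂ) * f t)) = (1 / 4 : ℂ) * L n (fun t => φ₀ t * f t) :=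
      hLc.2.1 f hf (1 / 4)
    rw [e1, norm_mul, h4] at t1
    have t2 : ‖L n (fun t => φ₀ t * f t) - L n (fun t => φ₀ t * g t)‖ ≤ K n * (1 + K n)⁻¹ :=
      P646.L_sub hLc hf hg hfg
    have h5 : K n * (1 + K n)⁻¹ ≤ 1 := by
      rw [← div_eq_mul_inv, div_le_one (by linarith)]; linarith
    calc ‖L n (fun t => φ₀ t * g t)‖ = ‖L n (fun t => φ₀ t * f t) -
          (L n (fun t => φ₀ t * f t) - L n (fun t => φ₀ t * g t))‖ := by ring_nf
      _ ≤ _ := norm_sub_le _ _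
      _ ≤ 4 * M₂ + 1 := by linarith
  -- the final step
  obtain ⟨s, hs0, hs1, hsr⟩ : ∃ s : ℝ, 0 < s ∧ s ≤ 1 / 2 ∧ s + Real.sqrt (5 * s) < r := by
    refine ⟨min (1 / 2) (min (r / 4) (r ^ 2 / 80)), by positivity, min_le_left _ _, ?_⟩
    have q1 : min (1 / 2) (min (r / 4) (r ^ 2 / 80)) ≤ r / 4 :=
      (min_le_right _ _).trans (min_le_left _ _)
    have q2 : min (1 / 2) (min (r / 4) (r ^ 2 / 80)) ≤ r ^ 2 / 80 :=
      (min_le_right _ _).trans (min_le_right _ _)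
    have q3 : Real.sqrt (5 * min (1 / 2) (min (r / 4) (r ^ 2 / 80))) ≤ r / 4 := by
      apply Real.sqrt_le_iff.2
      refine ⟨by positivity, ?_⟩
      nlinarith
    linarith
  refine ⟨(M + 2 * (4 * M₂ + 1)) / s, fun n f hf hf1 => ?_⟩
  have hsn : ‖(s : ℂ)‖ = s := by rw [Complex.norm_real, Real.norm_of_nonneg hs0.le]
  have msf : (fun t => (s : ℂ) * f t) ∈ HInf := smul_HInf hf _
  have hsf : ∀ᵐ t ∂mu, ‖(s : ℂ) * f t‖ ≤ s := by
    filter_upwards [hf1] with t ht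
    rw [norm_mul, hsn]
    nlinarith [norm_nonneg (f t)]
  obtain ⟨g, hg, hg1, hmax⟩ := aak msf hφ₀ (by filter_upwards [hsf] with t ht; linarith)
  have hk := hmax _ (const_HInf ((1 - s : ℝ) : ℂ)) (by
    filter_upwards [hsf, hφ₀.2] with t a1 a2
    refine (norm_add_le _ _).trans ?_
    rw [norm_mul (φ₀ t), a2, one_mul, Complex.norm_real, Real.norm_of_nonneg (by linarith)]
    linarith)
  have hgI : 1 - s ≤ (∫ t, g t ∂mu).re := by
    refine le_trans (le_of_eq ?_) hk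
    simp
  have hgn : ∀ᵐ t ∂mu, ‖g t‖ ≤ 1 + s := by
    filter_upwards [hsf, hg1, hφ₀.2] with t a1 a2 a3
    calc ‖g t‖ = ‖φ₀ t * g t‖ := by rw [norm_mul, a3, one_mul]
      _ = ‖((s : ℂ) * f t + φ₀ t * g t) - (s : ℂ) * f t‖ := by ring_nf
      _ ≤ ‖(s : ℂ) * f t + φ₀ t * g t‖ + ‖(s : ℂ) * f t‖ := norm_sub_le _ _
      _ ≤ 1 + s := by rw [a2]; linarith
  have hg2 : n2 g ≤ 1 + s := n2_le_const (by linarith) hgn
  have hg3 : n2 (fun t => g t - 1) ≤ Real.sqrt (5 * s) := by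
    apply Real.le_sqrt_of_sq_le
    rw [n2_sub_one_sq hg.1]
    have : n2 g ^ 2 ≤ (1 + s) ^ 2 := pow_le_pow_left₀ (n2_nonneg _) hg2 2
    nlinarith
  have hin : IsInner (fun t => (s : ℂ) * f t + φ₀ t * g t) :=
    ⟨add_HInf msf (mul_HInf hφ₀.1 hg), hg1⟩
  have hdist : n2 (fun t => ((s : ℂ) * f t + φ₀ t * g t) - φ₀ t) < r := by
    have e1 : (fun t => ((s : ℂ) * f t + φ₀ t * g t) - φ₀ t) =
        fun t => (s : ℂ) * f t + φ₀ t * (g t - 1) := by funext t; ring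
    have m1 := mul_HInf hφ₀.1 (sub_HInf hg (const_HInf 1))
    have h2 := n2_add (memLp2 msf.1) (memLp2 m1.1)
    have h3 : n2 (fun t => φ₀ t * (g t - 1)) = n2 (fun t => g t - 1) := by
      apply n2_congr
      filter_upwards [hφ₀.2] with t ht
      rw [norm_mul, ht, one_mul]
    have h4 : n2 (fun t => (s : ℂ) * f t) ≤ s := n2_le_const hs0.le hsf
    rw [e1]
    linarith
  have b1 := hM _ hin hdist n
  -- the multiple of `φ₀`
  have mg2 : (fun t => (1 / 2 : ℂ) * g t) ∈ HInf := smul_HInf hg _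
  have h12 : ‖(1 / 2 : ℂ)‖ = 1 / 2 := by simp
  have b2 := s3 n _ mg2 (by
    filter_upwards [hgn] with t ht
    rw [norm_mul, h12]
    linarith)
  have e2 : L n (fun t => φ₀ t * ((1 / 2 : ℂ) * g t)) = (1 / 2 : ℂ) * L n (fun t => φ₀ t * g t) :=
    ((hL n).comp_mul hφ₀).2.1 g hg (1 / 2)
  rw [e2, norm_mul, h12] at b2
  have e3 : L n (fun t => (s : ℂ) * f t + φ₀ t * g t) =
      L n (fun t => (s : ℂ) * f t) + L n (fun t => φ₀ t * g t) :=
    (hL n).1 _ msf _ (mul_HInf hφ₀.1 hg)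
  have e4 : L n (fun t => (s : ℂ) * f t) = (s : ℂ) * L n f := (hL n).2.1 f hf s
  rw [le_div_iff₀ hs0]
  calc ‖L n f‖ * s = ‖(s : ℂ) * L n f‖ := by rw [norm_mul, hsn]; ring
    _ = ‖L n (fun t => (s : ℂ) * f t + φ₀ t * g t) - L n (fun t => φ₀ t * g t)‖ := by
        rw [e3, e4, add_sub_cancel_right]
    _ ≤ ‖L n (fun t => (s : ℂ) * f t + φ₀ t * g t)‖ + ‖L n (fun t => φ₀ t * g t)‖ :=
        norm_sub_le _ _
    _ ≤ M + 2 * (4 * M₂ + 1) := by linarith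

theorem core {L : ℕ → (T → ℂ) → ℂ} {K : ℕ → ℝ} (hL : ∀ n, IsFunc (L n) (K n))
    (hb : ∀ φ : T → ℂ, IsInner φ → ∃ C : ℝ, ∀ n, ‖L n φ‖ ≤ C) :
    ∃ C : ℝ, ∀ n, ∀ f ∈ HInf, (∀ᵐ t ∂mu, ‖f t‖ ≤ 1) → ‖L n f‖ ≤ C := by
  obtain ⟨C, hC, h1⟩ := claim_one hL hb
  exact claim_two hL hb hC h1

end Pool.Agent.Helper900.UB
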