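import Pool.Agent.Helper900.UB.Base

set_option autoImplicit false

namespace Pool.Agent.Helper900.UB

open MeasureTheory AddCircle Complex Filter Topology
open scoped ENNReal ComplexConjugate

/-- The Hardy space `H²` by boundary values. -/
def H2 : Set (T → ℂ) := {f | MemLp f 2 mu ∧ ∀ n : ℤ, n < 0 → fourierCoeff f n = 0}

/-- A linear functional on `HInf`, of norm at most `K`. -/
def IsFunc (L : (T → ℂ) → ℂ) (K : ℝ) : Prop :=
  (∀ f ∈ HInf, ∀ g ∈ HInf, L (fun t => f t + g t) = L f + L g) ∧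
  (∀ f ∈ HInf, ∀ c : ℂ, L (fun t => c * f t) = c * L f) ∧
  (∀ f ∈ HInf, ∀ M : ℝ, (∀ᵐ t ∂mu, ‖f t‖ ≤ M) → ‖L f‖ ≤ K * M)

end Pool.Agent.Helper900.UB
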