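import Pool.Agent.Helper900.UB.T1

set_option autoImplicit false

namespace Pool.Agent.Helper900.UB

open MeasureTheory AddCircle Complex Filter Topology
open scoped ENNReal ComplexConjugate

lemma herglotz_bd {E : Set T} {h : T → ℂ}
    (hE : ∀ᵐ t ∂mu, (t ∈ E → (h t).re = 1) ∧ (t ∉ E → (h t).re = 0)) :
    ∀ᵐ t ∂mu, 0 ≤ (h t).re ∧ (h t).re ≤ 1 := by
  filter_upwards [hE] with t ht
  by_cases h1 : t ∈ E
  · rw [ht.1 h1]; norm_num
  · rw [ht.2 h1]; norm_num

theorem exists_outer {E : Set T} (hE : MeasurableSet E) {a b : ℝ} (ha : 0 < a) (hb : 0 < b) :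
    ∃ k ∈ HInf, (∀ᵐ t ∂mu, (t ∈ E → ‖k t‖ = a) ∧ (t ∉ E → ‖k t‖ = b)) ∧
      ∫ t, k t ∂mu = ((a ^ (mu.real E) * b ^ (1 - mu.real E) : ℝ) : ℂ) := by
  obtain ⟨h, hh, hE1, h0, hz⟩ := exists_herglotz hE
  set ψ : ℂ → ℂ := fun w => Complex.exp ((Real.log b : ℂ) + ((Real.log a - Real.log b : ℝ) : ℂ) * w)
    with hψ
  have hnorm : ∀ w : ℂ, ‖ψ w‖ = Real.exp (Real.log b + (Real.log a - Real.log b) * w.re) := by
    intro w
    rw [hψ]
    simp only
    rw [Complex.norm_exp]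
    congr 1
    simp
  have hψd : Differentiable ℂ ψ := by
    rw [hψ]
    fun_prop
  have hM : ∀ w : ℂ, 0 ≤ w.re → w.re ≤ 1 → ‖ψ w‖ ≤ max a b := by
    intro w h1 h2
    rw [hnorm]
    have e1 : Real.log b + (Real.log a - Real.log b) * w.re =
        (1 - w.re) * Real.log b + w.re * Real.log a := by ring
    rw [e1]
    have h3 : Real.log b ≤ Real.log (max a b) := Real.log_le_log hb (le_max_right _ _)
    have h4 : Real.log a ≤ Real.log (max a b) := Real.log_le_log ha (le_max_left _ _)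
    have h5 : (1 - w.re) * Real.log b + w.re * Real.log a ≤ Real.log (max a b) := by
      nlinarith [mul_le_mul_of_nonneg_left h3 (by linarith : 0 ≤ 1 - w.re),
        mul_le_mul_of_nonneg_left h4 h1]
    calc Real.exp _ ≤ Real.exp (Real.log (max a b)) := Real.exp_le_exp.2 h5
      _ = max a b := Real.exp_log (lt_max_of_lt_left ha)
  obtain ⟨hk, hke⟩ := comp_strip hh (herglotz_bd hE1) hz hψd.differentiableOn hM
  refine ⟨_, hk, ?_, ?_⟩
  · filter_upwards [hE1] with t ht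
    constructor
    · intro h1
      rw [hnorm, ht.1 h1]
      rw [show Real.log b + (Real.log a - Real.log b) * 1 = Real.log a by ring, Real.exp_log ha]
    · intro h1
      rw [hnorm, ht.2 h1]
      rw [show Real.log b + (Real.log a - Real.log b) * 0 = Real.log b by ring, Real.exp_log hb]
  · rw [int_HInf hk, hke 0 (by simp), h0, hψ]
    simp only
    rw [Real.rpow_def_of_pos ha, Real.rpow_def_of_pos hb, ← Real.exp_add, Complex.ofReal_exp]
    congr 1
    push_cast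
    ring

lemma norm_sub_one_sq (z : ℂ) (hz : ‖z‖ = 1) : ‖z - 1‖ ^ 2 = 2 - 2 * z.re := by
  rw [← Complex.normSq_eq_norm_sq, Complex.normSq_sub, Complex.normSq_eq_norm_sq, hz]
  simp
  ring

/-- for an inner function, the squared `L²` distance to `1` -/
lemma inner_dist_one {u : T → ℂ} (hu : IsInner u) :
    ∫ t, ‖u t - 1‖ ^ 2 ∂mu = 2 - 2 * (∫ t, u t ∂mu).re := by
  have hi := memLp_integrable hu.1.1
  have h1 : ∫ t, ‖u t - 1‖ ^ 2 ∂mu = ∫ t, (2 - 2 * (u t).re) ∂mu := by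
    apply integral_congr_ae
    filter_upwards [hu.2] with t ht
    exact norm_sub_one_sq _ ht
  have h2 : ∫ t, (u t).re ∂mu = (∫ t, u t ∂mu).re := by
    exact integral_re hi
  have h3 : Integrable (fun t => (u t).re) mu := hi.re
  rw [h1, integral_sub (integrable_const _) (h3.const_mul 2), integral_const_mul, h2]
  simp

theorem douglas_rudin {ε δ : ℝ} (hε : 0 < ε) (hδ : 0 < δ) :
    ∃ η > 0, ∀ E : Set T, MeasurableSet E → ∃ u v : T → ℂ, IsInner u ∧ IsInner v ∧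
      (∀ᵐ t ∂mu, (t ∉ E → ‖u t * conj (v t) - 1‖ ≤ ε) ∧
        (t ∈ E → ‖u t * conj (v t) + 1‖ ≤ ε)) ∧
      (mu.real E ≤ η → ∫ t, ‖u t - 1‖ ^ 2 ∂mu ≤ δ ∧ ∫ t, ‖v t - 1‖ ^ 2 ∂mu ≤ δ) := by
  obtain ⟨ψ₁, ψ₂, d1, d2, hle, heq, hz0, hz1, h10, h20⟩ := exists_strip_pair hε
  -- continuity at zero
  have hopen : IsOpen {w : ℂ | -(1 / 4) < w.re ∧ w.re < 5 / 4} :=
    (isOpen_lt continuous_const Complex.continuous_re).inter
      (isOpen_lt Complex.continuous_re continuous_const)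
  have hmem : (0 : ℂ) ∈ {w : ℂ | -(1 / 4) < w.re ∧ w.re < 5 / 4} := by
    simp
  have key : ∀ ψ : ℂ → ℂ, DifferentiableOn ℂ ψ {w : ℂ | -(1 / 4) < w.re ∧ w.re < 5 / 4} →
      ψ 0 = 1 → ∃ η > 0, ∀ x : ℝ, 0 ≤ x → x ≤ η → 2 - 2 * (ψ (x : ℂ)).re ≤ δ := by
    intro ψ hd h0
    have hc : ContinuousAt ψ 0 := (hd.differentiableAt (hopen.mem_nhds hmem)).continuousAt
    have hc2 : ContinuousAt (fun x : ℝ => 2 - 2 * (ψ (x : ℂ)).re) 0 := by
      have : ContinuousAt (fun x : ℝ => ψ (x : ℂ)) 0 :=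
        ContinuousAt.comp (f := fun x : ℝ => (x : ℂ)) (g := ψ) (by simpa using hc)
          Complex.continuous_ofReal.continuousAt
      exact continuousAt_const.sub (continuousAt_const.mul
        (Complex.continuous_re.continuousAt.comp this))
    have hv : 2 - 2 * (ψ ((0 : ℝ) : ℂ)).re = 0 := by
      simp [h0]
    have h3 := Metric.continuousAt_iff.1 hc2 δ hδ
    obtain ⟨η, hη, h4⟩ := h3
    refine ⟨η / 2, by positivity, fun x hx hx2 => ?_⟩
    have h5 := h4 (x := x) (by rw [Real.dist_eq, sub_zero, abs_of_nonneg hx]; linarith)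
    rw [hv, Real.dist_eq, sub_zero] at h5
    exact (le_abs_self _).trans h5.le
  obtain ⟨η1, hη1, k1⟩ := key ψ₁ d1 h10
  obtain ⟨η2, hη2, k2⟩ := key ψ₂ d2 h20
  refine ⟨min η1 η2, lt_min hη1 hη2, fun E hE => ?_⟩
  obtain ⟨h, hh, hE1, h0, hz⟩ := exists_herglotz hE
  have hbd := herglotz_bd hE1
  obtain ⟨a1, b1⟩ := comp_strip hh hbd hz d1 (fun w x y => (hle w x y).1)
  obtain ⟨a2, b2⟩ := comp_strip hh hbd hz d2 (fun w x y => (hle w x y).2)
  have i1 : IsInner (fun t => ψ₁ (h t)) := ⟨a1, by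
    filter_upwards [hE1] with t ht
    by_cases hc : t ∈ E
    · exact (heq _ (Or.inr (ht.1 hc))).1
    · exact (heq _ (Or.inl (ht.2 hc))).1⟩
  have i2 : IsInner (fun t => ψ₂ (h t)) := ⟨a2, by
    filter_upwards [hE1] with t ht
    by_cases hc : t ∈ E
    · exact (heq _ (Or.inr (ht.1 hc))).2
    · exact (heq _ (Or.inl (ht.2 hc))).2⟩
  refine ⟨_, _, i1, i2, ?_, fun hm => ⟨?_, ?_⟩⟩
  · filter_upwards [hE1] with t ht
    exact ⟨fun hc => hz0 _ (ht.2 hc), fun hc => hz1 _ (ht.1 hc)⟩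
  · rw [inner_dist_one i1, int_HInf a1, b1 0 (by simp), h0]
    exact k1 _ measureReal_nonneg (hm.trans (min_le_left _ _))
  · rw [inner_dist_one i2, int_HInf a2, b2 0 (by simp), h0]
    exact k2 _ measureReal_nonneg (hm.trans (min_le_right _ _))

end Pool.Agent.Helper900.UB
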