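import Pool.Agent.Helper900.UB.Defs

set_option autoImplicit false

namespace Pool.Agent.Helper900.UB
namespace P641

open MeasureTheory AddCircle Complex Filter Topology
open scoped ENNReal ComplexConjugate

lemma fc_circle_641 {G : ℂ → ℂ} {a : ℕ → ℂ} (ha : ∀ w : ℂ, ‖w‖ < 1 → HasSum (fun n : ℕ => a n * w ^ n) (G w))
    {r : ℝ} (hr0 : 0 ≤ r) (hr1 : r < 1) (n : ℤ) :
    fourierCoeff (fun t => G (r * e 1 t)) n =
      if 0 ≤ n then a n.toNat * (r : ℂ) ^ n.toNat else 0 := by
  have hrn : ‖(r : ℂ)‖ = r := by rw [Complex.norm_real, Real.norm_of_nonneg hr0]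
  have hn1 : ∀ t, ‖(r : ℂ) * e 1 t‖ = r := fun t => by rw [norm_mul, e_norm, hrn, mul_one]
  have hsum : Summable fun n : ℕ => ‖a n‖ * r ^ n := by
    have h1 := (ha r (by rw [hrn]; exact hr1)).summable.norm
    have e1 : (fun n : ℕ => ‖a n‖ * r ^ n) = fun n : ℕ => ‖a n * (r : ℂ) ^ n‖ := by
      funext n; rw [norm_mul, norm_pow, hrn]
    rw [e1]; exact h1
  have key := hasSum_integral_of_dominated_convergence (μ := mu)
    (F := fun (k : ℕ) t => e (-n) t * (a k * (r * e 1 t) ^ k))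
    (f := fun t => e (-n) t * G (r * e 1 t))
    (fun (k : ℕ) _ => ‖a k‖ * r ^ k) ?_ ?_ ?_ ?_ ?_
  · rw [fc_def]
    refine key.unique ?_
    have e1 : ∀ k : ℕ, ∫ t, e (-n) t * (a k * (r * e 1 t) ^ k) ∂mu =
        if (k : ℤ) = n then a k * (r : ℂ) ^ k else 0 := by
      intro k
      have e2 : ∀ t, e (-n) t * (a k * (r * e 1 t) ^ k) =
          (a k * (r : ℂ) ^ k) * e (k - n) t := by
        intro t
        rw [show (k : ℤ) - n = -n + k by ring, e_add, e_nat, mul_pow]; ring
      simp_rw [e2]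
      rw [integral_const_mul, int_e]
      by_cases h : (k : ℤ) = n
      · rw [if_pos h, if_pos (by omega), mul_one]
      · rw [if_neg h, if_neg (by omega), mul_zero]
    simp_rw [e1]
    by_cases h : 0 ≤ n
    · rw [if_pos h]
      have e3 : (fun k : ℕ => if (k : ℤ) = n then a k * (r : ℂ) ^ k else 0) =
          fun k : ℕ => if k = n.toNat then a n.toNat * (r : ℂ) ^ n.toNat else 0 := by
        funext k
        by_cases hk : k = n.toNat
        · rw [if_pos hk, if_pos (by omega), hk]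
        · rw [if_neg hk, if_neg (by omega)]
      rw [e3]
      exact hasSum_ite_eq _ _
    · rw [if_neg h]
      convert hasSum_zero with k
      rw [if_neg (by omega)]
  · intro k
    exact ((e_cont (-n)).mul (continuous_const.mul ((continuous_const.mul
      (e_cont 1)).pow k))).aestronglyMeasurable
  · intro k
    refine Eventually.of_forall fun t => ?_
    rw [norm_mul, norm_mul, norm_pow, hn1, e_norm, one_mul]
  · exact Eventually.of_forall fun t => hsum
  · exact integrable_const _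
  · refine Eventually.of_forall fun t => ?_
    exact (ha (r * e 1 t) (by rw [hn1]; exact hr1)).mul_left _

lemma circle_cont_641 {G : ℂ → ℂ} (hG : DifferentiableOn ℂ G (Metric.ball 0 1)) {r : ℝ} (hr0 : 0 ≤ r)
    (hr1 : r < 1) : Continuous fun t : T => G (r * e 1 t) := by
  refine hG.continuousOn.comp_continuous (continuous_const.mul (e_cont 1)) fun t => ?_
  simp only [Metric.mem_ball, dist_zero_right]
  rw [norm_mul, e_norm, Complex.norm_real, Real.norm_of_nonneg hr0, mul_one]; exact hr1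

lemma summable_coeff_641 {F : ℂ → ℂ} (hF : DifferentiableOn ℂ F (Metric.ball 0 1)) {M : ℝ}
    (hM : ∀ z : ℂ, ‖z‖ < 1 → ‖F z‖ ≤ M) {a : ℕ → ℂ}
    (ha : ∀ w : ℂ, ‖w‖ < 1 → HasSum (fun n : ℕ => a n * w ^ n) (F w)) :
    Summable (fun n : ℕ => ‖a n‖ ^ 2) := by
  have hM0 : 0 ≤ M := (norm_nonneg _).trans (hM 0 (by simp))
  apply summable_of_sum_range_le (c := M ^ 2)
  · intro n; positivity
  · intro m
    have hr : ∀ r : ℝ, 0 ≤ r → r < 1 → ∑ i ∈ Finset.range m, ‖a i‖ ^ 2 * (r ^ i) ^ 2 ≤ M ^ 2 := by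
      intro r hr0 hr1
      have hcont := circle_cont_641 hF hr0 hr1
      have hp := parseval (memLp2 (bdd_cont hcont))
      have hle : ∫ t, ‖F (r * e 1 t)‖ ^ 2 ∂mu ≤ M ^ 2 := by
        calc ∫ t, ‖F (r * e 1 t)‖ ^ 2 ∂mu ≤ ∫ _t, M ^ 2 ∂mu := by
              apply integral_mono
              · exact cont_intR (hcont.norm.pow 2)
              · exact integrable_const _
              · intro t
                show ‖F (r * e 1 t)‖ ^ 2 ≤ M ^ 2
                apply pow_le_pow_left₀ (norm_nonneg _)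
                apply hM
                rw [norm_mul, e_norm, Complex.norm_real, Real.norm_of_nonneg hr0, mul_one]; exact hr1
          _ = M ^ 2 := by rw [integral_const]; simp
      have h1 := hp.summable.sum_le_tsum ((Finset.range m).map (Nat.castEmbedding (R := ℤ)))
        (fun i _ => by positivity)
      rw [hp.tsum_eq, Finset.sum_map] at h1
      refine le_trans (le_of_eq ?_) (h1.trans hle)
      apply Finset.sum_congr rfl
      intro i _
      show _ = ‖fourierCoeff (fun t => F (r * e 1 t)) ((i : ℕ) : ℤ)‖ ^ 2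
      rw [fc_circle_641 ha hr0 hr1, if_pos (by omega), Int.toNat_natCast, norm_mul, mul_pow, norm_pow,
        Complex.norm_real, Real.norm_of_nonneg hr0]
    have hlim : Tendsto (fun r : ℝ => ∑ i ∈ Finset.range m, ‖a i‖ ^ 2 * (r ^ i) ^ 2) (𝓝[<] 1)
        (𝓝 (∑ i ∈ Finset.range m, ‖a i‖ ^ 2 * ((1:ℝ) ^ i) ^ 2)) := by
      have h1 : Continuous (fun r : ℝ => ∑ i ∈ Finset.range m, ‖a i‖ ^ 2 * (r ^ i) ^ 2) := by fun_prop
      exact (h1.tendsto 1).mono_left nhdsWithin_le_nhds
    have h3 : ∀ᶠ r : ℝ in 𝓝[<] 1, 0 < r := by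
      have : ∀ᶠ r : ℝ in 𝓝 1, 0 < r := lt_mem_nhds (by norm_num)
      exact this.filter_mono nhdsWithin_le_nhds
    have h4 : ∀ᶠ r : ℝ in 𝓝[<] 1, ∑ i ∈ Finset.range m, ‖a i‖ ^ 2 * (r ^ i) ^ 2 ≤ M ^ 2 := by
      filter_upwards [h3, self_mem_nhdsWithin] with r hr0 hr1
      exact hr r hr0.le hr1
    have h5 := le_of_tendsto hlim h4
    simpa using h5

lemma exists_L2_641 {a : ℕ → ℂ} (hs : Summable (fun n : ℕ => ‖a n‖ ^ 2)) :
    ∃ f : T → ℂ, MemLp f 2 mu ∧ ∀ n : ℤ, fourierCoeff f n = if 0 ≤ n then a n.toNat else 0 := by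
  set b : ℤ → ℂ := fun n => if 0 ≤ n then a n.toNat else 0 with hb
  have hbs : Summable (fun n : ℤ => ‖b n‖ ^ 2) := by
    have hinj : Function.Injective (fun n : ℕ => (n : ℤ)) := fun _ _ h => Int.ofNat.inj h
    have h1 : Summable ((fun n : ℤ => ‖b n‖ ^ 2) ∘ (fun n : ℕ => (n : ℤ))) := by
      refine hs.congr ?_
      intro n
      simp [hb]
    refine (hinj.summable_iff ?_).mp h1
    intro n hn
    have : ¬ 0 ≤ n := by
      intro h
      apply hn
      exact ⟨n.toNat, by simp [Int.toNat_of_nonneg h]⟩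
    simp [hb, this]
  have hmem : Memℓp b 2 := by
    rw [memℓp_gen_iff (by norm_num)]
    simpa using hbs
  set F : Lp ℂ 2 (haarAddCircle (T := (1:ℝ))) := (fourierBasis (T := (1 : ℝ))).repr.symm ⟨b, hmem⟩ with hF
  refine ⟨F, Lp.memLp F, fun n => ?_⟩
  have h1 := fourierBasis_repr (T := (1:ℝ)) F n
  rw [← h1, hF, LinearIsometryEquiv.apply_symm_apply]


theorem exists_boundary {F : ℂ → ℂ} (hF : DifferentiableOn ℂ F (Metric.ball 0 1)) {M : ℝ}
    (hM : ∀ z : ℂ, ‖z‖ < 1 → ‖F z‖ ≤ M) :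
    ∃ f ∈ HInf, (∀ᵐ t ∂mu, ‖f t‖ ≤ M) ∧ ∀ z : ℂ, ‖z‖ < 1 → ext f z = F z := by
  obtain ⟨a, ha⟩ := exists_coeff hF
  have hs := summable_coeff_641 hF hM ha
  obtain ⟨f, hf2, hfc⟩ := exists_L2_641 hs
  have hpar := parseval hf2
  -- convergence
  have hconv : ∀ δ : ℝ, 0 < δ → ∃ r : ℝ, 0 ≤ r ∧ r < 1 ∧ ∫ t, ‖f t - F (r * e 1 t)‖ ∂mu ≤ δ := by
    intro δ hδ
    have htend : Tendsto (fun r : ℝ => ∑' n : ℤ, ‖fourierCoeff f n‖ ^ 2 * (1 - r ^ n.toNat) ^ 2)
        (𝓝[<] 1) (𝓝 (∑' _n : ℤ, (0 : ℝ))) := by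
      apply tendsto_tsum_of_dominated_convergence (bound := fun n : ℤ => ‖fourierCoeff f n‖ ^ 2)
      · exact hpar.summable
      · intro n
        have h1 : Tendsto (fun r : ℝ => ‖fourierCoeff f n‖ ^ 2 * (1 - r ^ n.toNat) ^ 2) (𝓝 1)
            (𝓝 (‖fourierCoeff f n‖ ^ 2 * (1 - 1 ^ n.toNat) ^ 2)) :=
          Continuous.tendsto (by fun_prop) 1
        have h2 := h1.mono_left (nhdsWithin_le_nhds (s := Set.Iio 1))
        simpa using h2
      · have h3 : ∀ᶠ r : ℝ in 𝓝[<] 1, 0 < r := by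
          have : ∀ᶠ r : ℝ in 𝓝 1, 0 < r := lt_mem_nhds (by norm_num)
          exact this.filter_mono nhdsWithin_le_nhds
        filter_upwards [h3, self_mem_nhdsWithin] with r hr0 hr1 n
        have hr1' : r < 1 := hr1
        have h4 : r ^ n.toNat ≤ 1 := pow_le_one₀ hr0.le hr1'.le
        have h5 : 0 < r ^ n.toNat := pow_pos hr0 _
        rw [Real.norm_of_nonneg (by positivity)]
        have h6 : (1 - r ^ n.toNat) ^ 2 ≤ 1 := by nlinarith
        have h7 : 0 ≤ ‖fourierCoeff f n‖ ^ 2 := by positivity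
        nlinarith
    rw [tsum_zero] at htend
    have h3 : ∀ᶠ r : ℝ in 𝓝[<] 1, 0 < r := by
      have : ∀ᶠ r : ℝ in 𝓝 1, 0 < r := lt_mem_nhds (by norm_num)
      exact this.filter_mono nhdsWithin_le_nhds
    have h4 := htend.eventually (gt_mem_nhds (show (0 : ℝ) < δ ^ 2 by positivity))
    obtain ⟨r, ⟨hr0, hrs⟩, hr1⟩ := ((h3.and h4).and self_mem_nhdsWithin).exists
    have hr1' : r < 1 := hr1
    refine ⟨r, hr0.le, hr1', ?_⟩
    have hcont := circle_cont_641 hF hr0.le hr1'
    have hm2 : MemLp (fun t => F (r * e 1 t)) 2 mu := memLp2 (bdd_cont hcont)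
    have hsub : MemLp (fun t => f t - F (r * e 1 t)) 2 mu := hf2.sub hm2
    refine L1_le_of_L2 hsub hδ ?_
    have hp := parseval hsub
    have e1 : ∀ n : ℤ, ‖fourierCoeff (fun t => f t - F (r * e 1 t)) n‖ ^ 2 =
        ‖fourierCoeff f n‖ ^ 2 * (1 - r ^ n.toNat) ^ 2 := by
      intro n
      have e2 : fourierCoeff (fun t => f t - F (r * e 1 t)) n =
          fourierCoeff f n - fourierCoeff (fun t => F (r * e 1 t)) n := by
        rw [fc_def, fc_def, fc_def, ← integral_sub]
        · congr 1; funext t; ring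
        · exact (hf2.integrable (by norm_num)).bdd_mul (c := 1) (e_aesm _)
            (Eventually.of_forall fun t => (e_norm _ t).le)
        · exact memLp_integrable (bdd_mul (bdd_e _) (bdd_cont hcont))
      rw [e2, fc_circle_641 ha hr0.le hr1', hfc]
      by_cases hn : 0 ≤ n
      · rw [if_pos hn, if_pos hn]
        have : a n.toNat - a n.toNat * (r : ℂ) ^ n.toNat =
            a n.toNat * (((1 - r ^ n.toNat : ℝ)) : ℂ) := by push_cast; ring
        rw [this, norm_mul, mul_pow, Complex.norm_real, Real.norm_eq_abs, sq_abs]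
      · rw [if_neg hn, if_neg hn]
        simp
    simp_rw [e1] at hp
    rw [← hp.tsum_eq]
    exact hrs.le
  have hfi : Integrable f mu := hf2.integrable (by norm_num)
  have hbound : ∀ᵐ t ∂mu, ‖f t‖ ≤ M := by
    have hint : Integrable (fun t => max (‖f t‖ - M) 0) mu :=
      (hfi.norm.sub (integrable_const M)).pos_part
    have hle : ∀ δ : ℝ, 0 < δ → ∫ t, max (‖f t‖ - M) 0 ∂mu ≤ δ := by
      intro δ hδ
      obtain ⟨r, hr0, hr1, hr⟩ := hconv δ hδ
      refine le_trans ?_ hr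
      have hcont := circle_cont_641 hF hr0 hr1
      apply integral_mono hint (hfi.sub (cont_int hcont)).norm
      intro t
      show max (‖f t‖ - M) 0 ≤ ‖f t - F (r * e 1 t)‖
      apply max_le _ (norm_nonneg _)
      have h1 := norm_sub_norm_le (f t) (F (r * e 1 t))
      have h2 : ‖F (r * e 1 t)‖ ≤ M := by
        apply hM
        rw [norm_mul, e_norm, Complex.norm_real, Real.norm_of_nonneg hr0, mul_one]; exact hr1
      linarith
    have h0 : ∫ t, max (‖f t‖ - M) 0 ∂mu = 0 := by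
      apply le_antisymm
      · exact le_of_forall_pos_le_add (fun δ hδ => by simpa using hle δ hδ)
      · exact integral_nonneg (fun t => le_max_right _ _)
    have h0' := (integral_eq_zero_iff_of_nonneg (f := fun t => max (‖f t‖ - M) 0)
      (fun t => le_max_right (‖f t‖ - M) 0) hint).mp h0
    filter_upwards [h0'] with t ht
    have : max (‖f t‖ - M) 0 = 0 := ht
    have h1 := le_max_left (‖f t‖ - M) 0
    linarith
  refine ⟨f, ⟨memLp_top_of_bound hf2.1 M hbound, fun n hn => ?_⟩, hbound, fun z hz => ?_⟩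
  · rw [hfc, if_neg (by omega)]
  · rw [ext]
    have : (fun n : ℕ => fourierCoeff f n * z ^ n) = fun n : ℕ => a n * z ^ n := by
      funext n
      rw [hfc, if_pos (by omega), Int.toNat_natCast]
    rw [this]
    exact (ha z hz).tsum_eq


end P641
end Pool.Agent.Helper900.UB
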