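import Pool.Agent.Helper900.UB.Defs

set_option autoImplicit false

namespace Pool.Agent.Helper900.UB
namespace P644

section StripPair

open Complex Filter Topology
open scoped ComplexConjugate

/-- the product `∏ (1 - q^(4k) z)` -/
noncomputable def qF (q : ℝ) (z : ℂ) : ℂ := ∏' k : ℕ, (1 + (-((q : ℂ) ^ (4 * k) * z)))

lemma qF_norm_term {q : ℝ} (hq : 0 < q) (z : ℂ) (k : ℕ) :
    ‖-((q : ℂ) ^ (4 * k) * z)‖ = (q ^ 4) ^ k * ‖z‖ := by
  rw [norm_neg, norm_mul, norm_pow, Complex.norm_real, Real.norm_of_nonneg hq.le, pow_mul]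

lemma qF_summable {q : ℝ} (hq : 0 < q) (hq1 : q < 1) (z : ℂ) :
    Summable fun k : ℕ => ‖-((q : ℂ) ^ (4 * k) * z)‖ := by
  simp_rw [qF_norm_term hq]
  exact (summable_geometric_of_lt_one (by positivity) (pow_lt_one₀ hq.le hq1 (by norm_num))).mul_right _

lemma qF_mult {q : ℝ} (hq : 0 < q) (hq1 : q < 1) (z : ℂ) :
    Multipliable fun k : ℕ => (1 + (-((q : ℂ) ^ (4 * k) * z))) :=
  multipliable_one_add_of_summable (qF_summable hq hq1 z)

lemma qF_diff {q : ℝ} (hq : 0 < q) (hq1 : q < 1) : Differentiable ℂ (qF q) := by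
  intro z
  have h1 : HasProdLocallyUniformlyOn (fun (k : ℕ) (x : ℂ) => 1 + (-((q : ℂ) ^ (4 * k) * x)))
      (fun x => ∏' k : ℕ, (1 + (-((q : ℂ) ^ (4 * k) * x)))) (Metric.ball 0 (‖z‖ + 1)) := by
    apply Summable.hasProdLocallyUniformlyOn_nat_one_add (u := fun k => (q ^ 4) ^ k * (‖z‖ + 1))
      Metric.isOpen_ball
    · exact (summable_geometric_of_lt_one (by positivity)
        (pow_lt_one₀ hq.le hq1 (by norm_num))).mul_right _
    · refine Eventually.of_forall fun k x hx => ?_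
      rw [qF_norm_term hq]
      have : ‖x‖ < ‖z‖ + 1 := by simpa using hx
      gcongr
    · intro k
      fun_prop
  have h2 := h1.tendstoLocallyUniformlyOn_finsetRange
  have h3 : DifferentiableOn ℂ (fun x => ∏' k : ℕ, (1 + (-((q : ℂ) ^ (4 * k) * x))))
      (Metric.ball 0 (‖z‖ + 1)) := by
    apply h2.differentiableOn _ Metric.isOpen_ball
    refine Eventually.of_forall fun N => ?_
    fun_prop
  exact h3.differentiableAt (Metric.isOpen_ball.mem_nhds (by simp))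

lemma qF_conj {q : ℝ} (hq : 0 < q) (hq1 : q < 1) (z : ℂ) : conj (qF q z) = qF q (conj z) := by
  unfold qF
  rw [(qF_mult hq hq1 z).map_tprod (starRingEnd ℂ) Complex.continuous_conj]
  congr 1
  funext k
  simp

lemma qF_step {q : ℝ} (hq : 0 < q) (hq1 : q < 1) (z : ℂ) :
    qF q z = (1 - z) * qF q ((q : ℂ) ^ 4 * z) := by
  have h := qF_mult hq hq1 ((q : ℂ) ^ 4 * z)
  have e : (fun k : ℕ => (1 + (-((q : ℂ) ^ (4 * k) * ((q : ℂ) ^ 4 * z))))) =
      fun k : ℕ => (1 + (-((q : ℂ) ^ (4 * (k + 1)) * z))) := by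
    funext k
    rw [← mul_assoc, ← pow_add]
    rfl
  have h0 : qF q ((q : ℂ) ^ 4 * z) = ∏' k : ℕ, (1 + (-((q : ℂ) ^ (4 * (k + 1)) * z))) := by
    rw [qF, e]
  rw [e] at h
  have h1 := tprod_eq_zero_mul' (f := fun k : ℕ => (1 + (-((q : ℂ) ^ (4 * k) * z)))) h
  rw [h0, qF, h1]
  congr 1
  rw [Nat.mul_zero, pow_zero, one_mul, sub_eq_add_neg]

lemma qF_sub_one {q : ℝ} (hq : 0 < q) (hq1 : q ≤ 1 / 2) (z : ℂ) :
    ‖qF q z - 1‖ ≤ Real.exp (2 * ‖z‖) - 1 := by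
  have hq1' : q < 1 := by linarith
  have h := (qF_mult hq hq1' z).hasProd.tendsto_prod_nat
  have h2 : Tendsto (fun n => ‖(∏ k ∈ Finset.range n, (1 + (-((q : ℂ) ^ (4 * k) * z)))) - 1‖) atTop
      (𝓝 ‖qF q z - 1‖) := (h.sub_const 1).norm
  refine le_of_tendsto h2 (Eventually.of_forall fun n => ?_)
  refine (Finset.norm_prod_one_add_sub_one_le _ _).trans ?_
  gcongr
  simp_rw [qF_norm_term hq]
  rw [← Finset.sum_mul]
  gcongr
  have hs := summable_geometric_of_lt_one (r := q ^ 4) (by positivity)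
    (pow_lt_one₀ hq.le hq1' (by norm_num))
  calc ∑ k ∈ Finset.range n, (q ^ 4) ^ k ≤ ∑' k : ℕ, (q ^ 4) ^ k :=
        hs.sum_le_tsum _ (fun k _ => by positivity)
    _ = (1 - q ^ 4)⁻¹ := tsum_geometric_of_lt_one (by positivity)
        (pow_lt_one₀ hq.le hq1' (by norm_num))
    _ ≤ 2 := by
        have h4 : q ^ 4 ≤ 1 / 2 := by
          calc q ^ 4 ≤ (1 / 2) ^ 4 := by gcongr
            _ ≤ 1 / 2 := by norm_num
        rw [inv_le_comm₀ (by linarith) (by norm_num)]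
        linarith

lemma qF_ne_zero {q : ℝ} (hq : 0 < q) (hq1 : q < 1) {z : ℂ} (hz : ‖z‖ < 1) : qF q z ≠ 0 := by
  unfold qF
  apply tprod_one_add_ne_zero_of_summable
  · intro k h
    have h1 : (q : ℂ) ^ (4 * k) * z = 1 := by linear_combination -h
    have h2 := congrArg norm h1
    rw [← norm_neg, qF_norm_term hq, norm_one] at h2
    have h3 : (q ^ 4) ^ k ≤ 1 := pow_le_one₀ (by positivity) (pow_le_one₀ hq.le hq1.le)
    nlinarith [norm_nonneg z]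
  · exact qF_summable hq hq1 z


/-- the boundary quotient -/
noncomputable def qG (q σ : ℝ) (η : ℂ) : ℂ :=
  (qF q (σ * q ^ 3 * η) * qF q (σ * q * conj η)) / (qF q (σ * q * η) * qF q (σ * q ^ 3 * conj η))

lemma qG_norm {q σ : ℝ} (hq : 0 < q) (hq1 : q ≤ 1 / 2) (hσ : |σ| = 1) {η : ℂ} (hη : ‖η‖ = 1) :
    ‖qG q σ η‖ = 1 := by
  have hq1' : q < 1 := by linarith
  have e1 : qF q (σ * q * conj η) = conj (qF q (σ * q * η)) := by
    rw [qF_conj hq hq1']; congr 1; simp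
  have e2 : qF q (σ * q ^ 3 * conj η) = conj (qF q (σ * q ^ 3 * η)) := by
    rw [qF_conj hq hq1']; congr 1; simp
  have hn : ∀ z : ℂ, ‖z‖ ≤ q → qF q z ≠ 0 := fun z hz => qF_ne_zero hq hq1' (by linarith)
  have h1 : ‖(σ * q * η : ℂ)‖ ≤ q := by
    rw [norm_mul, norm_mul, hη, Complex.norm_real, Complex.norm_real, Real.norm_eq_abs, hσ,
      Real.norm_of_nonneg hq.le]; linarith
  have h3 : ‖(σ * q ^ 3 * η : ℂ)‖ ≤ q := by
    rw [norm_mul, norm_mul, hη, norm_pow, Complex.norm_real, Complex.norm_real, Real.norm_eq_abs, hσ,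
      Real.norm_of_nonneg hq.le]
    have : q ^ 3 ≤ q := by nlinarith [mul_pos hq hq]
    linarith
  unfold qG
  rw [e1, e2, norm_div, norm_mul, norm_mul, RCLike.norm_conj, RCLike.norm_conj]
  have n1 := norm_ne_zero_iff.2 (hn _ h1)
  have n3 := norm_ne_zero_iff.2 (hn _ h3)
  field_simp

lemma qG_sub_one {q σ : ℝ} (hq : 0 < q) (hq1 : q ≤ 1 / 40) (hσ : |σ| = 1) {η : ℂ} (hη : ‖η‖ = 1) :
    ‖qG q σ η - 1‖ ≤ 48 * q := by
  have hb : ∀ z : ℂ, ‖z‖ ≤ q → ‖qF q z - 1‖ ≤ 4 * q := by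
    intro z hz
    refine (qF_sub_one hq (by linarith) z).trans ?_
    have h1 : Real.exp (2 * ‖z‖) ≤ Real.exp (2 * q) := Real.exp_le_exp.2 (by linarith)
    have h2 := Real.abs_exp_sub_one_le (x := 2 * q) (by rw [abs_of_pos (by linarith)]; linarith)
    rw [abs_of_pos (a := 2 * q) (by linarith)] at h2
    have h3 := le_abs_self (Real.exp (2 * q) - 1)
    linarith
  have hη' : ‖conj η‖ = 1 := by rw [RCLike.norm_conj, hη]
  have h1 : ∀ x : ℂ, ‖x‖ = 1 → ‖(σ * q * x : ℂ)‖ ≤ q := by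
    intro x hx
    rw [norm_mul, norm_mul, hx, Complex.norm_real, Complex.norm_real, Real.norm_eq_abs, hσ,
      Real.norm_of_nonneg hq.le]; linarith
  have h3 : ∀ x : ℂ, ‖x‖ = 1 → ‖(σ * q ^ 3 * x : ℂ)‖ ≤ q := by
    intro x hx
    rw [norm_mul, norm_mul, hx, norm_pow, Complex.norm_real, Complex.norm_real, Real.norm_eq_abs, hσ,
      Real.norm_of_nonneg hq.le]
    have : q ^ 3 ≤ q := by nlinarith [mul_pos hq hq]
    linarith
  have ba := hb _ (h3 η hη)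
  have bb := hb _ (h1 _ hη')
  have bc := hb _ (h1 η hη)
  have bd := hb _ (h3 _ hη')
  unfold qG
  set a := qF q (σ * q ^ 3 * η)
  set b := qF q (σ * q * conj η)
  set c := qF q (σ * q * η)
  set d := qF q (σ * q ^ 3 * conj η)
  have key : ∀ x y : ℂ, ‖x - 1‖ ≤ 4 * q → ‖y - 1‖ ≤ 4 * q → ‖x * y - 1‖ ≤ 12 * q := by
    intro x y hx hy
    have : x * y - 1 = (x - 1) * (y - 1) + (x - 1) + (y - 1) := by ring
    rw [this]
    refine (norm_add_le _ _).trans ?_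
    have h5 := norm_add_le ((x - 1) * (y - 1)) (x - 1)
    rw [norm_mul] at h5
    have h6 : ‖x - 1‖ * ‖y - 1‖ ≤ (4 * q) * (4 * q) := mul_le_mul hx hy (norm_nonneg _) (by linarith)
    nlinarith
  have k1 := key a b ba bb
  have k2 := key c d bc bd
  have k3 : 1 / 2 ≤ ‖c * d‖ := by
    have := norm_sub_norm_le (1 : ℂ) (1 - c * d)
    rw [norm_one, norm_sub_rev, sub_sub_cancel] at this
    linarith
  have hcd : c * d ≠ 0 := by
    intro h; rw [h, norm_zero] at k3; linarith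
  have : a * b / (c * d) - 1 = ((a * b - 1) - (c * d - 1)) / (c * d) := by
    rw [sub_sub_sub_cancel_right, sub_div, div_self hcd]
  rw [this, norm_div, div_le_iff₀ (by linarith)]
  have := norm_sub_le (a * b - 1) (c * d - 1)
  nlinarith

/-- the inner function on the strip -/
noncomputable def qB (q c σ : ℝ) (w : ℂ) : ℂ :=
  exp (-(c * w / 2)) * (qF q (σ * q * exp (c * w)) * qF q (σ * q ^ 3 * exp (-(c * w)))) /
    (qF q (σ * q ^ 3 * exp (c * w)) * qF q (σ * q * exp (-(c * w))))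

lemma exp_norm (c : ℝ) (w : ℂ) : ‖exp (c * w)‖ = Real.exp (c * w.re) := by
  rw [Complex.norm_exp]; simp

lemma exp_norm' (c : ℝ) (w : ℂ) : ‖exp (-(c * w))‖ = Real.exp (-(c * w.re)) := by
  rw [Complex.norm_exp]; simp

lemma qB_den {q c σ : ℝ} (hc : 0 < c) (hqc : q = Real.exp (-(c / 2))) (hσ : |σ| = 1)
    {w : ℂ} (h0 : -(1 / 4) < w.re) (h1 : w.re < 5 / 4) :
    ‖(σ * q ^ 3 * exp (c * w) : ℂ)‖ < 1 ∧ ‖(σ * q * exp (-(c * w)) : ℂ)‖ < 1 := by
  have hq : 0 < q := by rw [hqc]; exact Real.exp_pos _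
  constructor
  · rw [norm_mul, norm_mul, norm_pow, Complex.norm_real, Complex.norm_real, Real.norm_eq_abs, hσ,
      Real.norm_of_nonneg hq.le, exp_norm, one_mul, hqc, ← Real.exp_nat_mul, ← Real.exp_add,
      Real.exp_lt_one_iff]
    push_cast
    nlinarith
  · rw [norm_mul, norm_mul, Complex.norm_real, Complex.norm_real, Real.norm_eq_abs, hσ,
      Real.norm_of_nonneg hq.le, exp_norm', one_mul, hqc, ← Real.exp_add,
      Real.exp_lt_one_iff]
    nlinarith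

lemma qB_diff {q c σ : ℝ} (hc : 0 < c) (hqc : q = Real.exp (-(c / 2))) (hq1 : q < 1)
    (hσ : |σ| = 1) :
    DifferentiableOn ℂ (qB q c σ) {w : ℂ | -(1 / 4) < w.re ∧ w.re < 5 / 4} := by
  have hq : 0 < q := by rw [hqc]; exact Real.exp_pos _
  have hF := qF_diff hq hq1
  intro w hw
  apply DifferentiableAt.differentiableWithinAt
  obtain ⟨d1, d2⟩ := qB_den hc hqc hσ hw.1 hw.2
  unfold qB
  apply DifferentiableAt.div
  · have h1 : DifferentiableAt ℂ (fun w : ℂ => qF q (σ * q * exp (c * w))) w :=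
      (hF _).comp w (by fun_prop)
    have h2 : DifferentiableAt ℂ (fun w : ℂ => qF q (σ * q ^ 3 * exp (-(c * w)))) w :=
      (hF _).comp w (by fun_prop)
    exact (by fun_prop : DifferentiableAt ℂ (fun w : ℂ => exp (-(c * w / 2))) w).mul (h1.mul h2)
  · have h1 : DifferentiableAt ℂ (fun w : ℂ => qF q (σ * q ^ 3 * exp (c * w))) w :=
      (hF _).comp w (by fun_prop)
    have h2 : DifferentiableAt ℂ (fun w : ℂ => qF q (σ * q * exp (-(c * w)))) w :=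
      (hF _).comp w (by fun_prop)
    exact h1.mul h2
  · exact mul_ne_zero (qF_ne_zero hq hq1 d1) (qF_ne_zero hq hq1 d2)

lemma qB_line0 {q c σ : ℝ} {w : ℂ} (hw : w.re = 0) :
    qB q c σ w = exp (-(c * w / 2)) * qG q σ (conj (exp (c * w))) := by
  have h1 : exp (-(c * w)) = conj (exp (c * w)) := by
    rw [← Complex.exp_conj]
    congr 1
    apply Complex.ext <;> simp [hw]
  unfold qB qG
  rw [h1, Complex.conj_conj]
  rw [mul_div_assoc]
  congr 1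
  rw [mul_comm (qF q (σ * q * exp (c * w))), mul_comm (qF q (σ * q ^ 3 * exp (c * w)))]

lemma qB_line1 {q c σ : ℝ} (hqc : q = Real.exp (-(c / 2))) (hq1 : q < 1)
    (hσ : σ * σ = 1) {w : ℂ} (hw : w.re = 1) :
    ‖(q : ℂ) ^ 2 * exp (c * w)‖ = 1 ∧
    qB q c σ w = -(σ * exp (-(c * w / 2)) * (q : ℂ)⁻¹ * ((q : ℂ) ^ 2 * exp (c * w))) *
      qG q σ ((q : ℂ) ^ 2 * exp (c * w)) := by
  have hq : 0 < q := by rw [hqc]; exact Real.exp_pos _
  have hq0 : (q : ℂ) ≠ 0 := by exact_mod_cast hq.ne'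
  have hη : ‖(q : ℂ) ^ 2 * exp (c * w)‖ = 1 := by
    rw [norm_mul, norm_pow, Complex.norm_real, Real.norm_of_nonneg hq.le, exp_norm, hw, hqc,
      ← Real.exp_nat_mul, ← Real.exp_add]
    push_cast
    rw [show 2 * (-(c / 2)) + c * 1 = 0 by ring, Real.exp_zero]
  refine ⟨hη, ?_⟩
  set η : ℂ := (q : ℂ) ^ 2 * exp (c * w) with hηd
  have hηne : η ≠ 0 := by intro h; rw [h, norm_zero] at hη; norm_num at hη
  have hηc : η * conj η = 1 := by
    rw [Complex.mul_conj, Complex.normSq_eq_norm_sq, hη]; simp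
  have he : exp (c * w) = (q : ℂ)⁻¹ ^ 2 * η := by
    rw [hηd]; field_simp
  have he' : exp (-(c * w)) = (q : ℂ) ^ 2 * conj η := by
    rw [Complex.exp_neg, he, mul_inv, inv_pow, inv_inv]
    congr 1
    exact inv_eq_of_mul_eq_one_right hηc
  have hσ' : (σ : ℂ) * σ = 1 := by exact_mod_cast hσ
  have a1 : qF q (σ * q * exp (c * w)) =
      (1 - σ * (q : ℂ)⁻¹ * η) * qF q (σ * q ^ 3 * η) := by
    have := qF_step hq hq1 (σ * (q : ℂ)⁻¹ * η)
    have e1 : (σ * q * exp (c * w) : ℂ) = σ * (q : ℂ)⁻¹ * η := by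
      rw [he]; field_simp
    have e2 : ((q : ℂ) ^ 4 * (σ * (q : ℂ)⁻¹ * η)) = σ * q ^ 3 * η := by field_simp
    rw [e1, this, e2]
  have a2 : qF q (σ * q * conj η) =
      (1 - σ * q * conj η) * qF q (σ * q ^ 3 * exp (-(c * w))) := by
    have := qF_step hq hq1 (σ * q * conj η)
    have e2 : ((q : ℂ) ^ 4 * (σ * q * conj η)) = σ * q ^ 3 * exp (-(c * w)) := by
      rw [he']; ring
    rw [this, e2]
  have a3 : (1 - σ * (q : ℂ)⁻¹ * η) = -(σ * (q : ℂ)⁻¹ * η) * (1 - σ * q * conj η) := by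
    have hqq : (q : ℂ)⁻¹ * q = 1 := inv_mul_cancel₀ hq0
    linear_combination (-((q : ℂ)⁻¹ * q) * (η * conj η)) * hσ' + (-(η * conj η)) * hqq + (-1) * hηc
  have e3 : (σ * q ^ 3 * exp (c * w) : ℂ) = σ * q * η := by rw [he]; field_simp
  have e4 : (σ * q * exp (-(c * w)) : ℂ) = σ * q ^ 3 * conj η := by rw [he']; ring
  unfold qB qG
  rw [a1, a2, a3, e3, e4]
  ring


lemma qB_norm0 {q c σ : ℝ} (hq : 0 < q) (hq1 : q ≤ 1 / 2) (hσ : |σ| = 1) {w : ℂ}
    (hw : w.re = 0) : ‖qB q c σ w‖ = 1 := by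
  rw [qB_line0 hw, norm_mul, qG_norm hq hq1 hσ, mul_one, Complex.norm_exp]
  · simp [hw]
  · rw [RCLike.norm_conj, exp_norm, hw]; simp

lemma qB_norm1 {q c σ : ℝ} (hq : 0 < q) (hqc : q = Real.exp (-(c / 2))) (hq1 : q ≤ 1 / 2)
    (hσ : |σ| = 1) {w : ℂ} (hw : w.re = 1) : ‖qB q c σ w‖ = 1 := by
  have hσ2 : σ * σ = 1 := by rw [← abs_mul_abs_self, hσ, mul_one]
  obtain ⟨h1, h2⟩ := qB_line1 (q := q) (c := c) hqc (by linarith) hσ2 hw
  rw [h2, norm_mul, qG_norm hq hq1 hσ h1, mul_one, norm_neg, norm_mul, h1, mul_one, norm_mul,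
    norm_mul, Complex.norm_real, Real.norm_eq_abs, hσ, one_mul, norm_inv, Complex.norm_real,
    Real.norm_of_nonneg hq.le, Complex.norm_exp]
  have : (-(c * w / 2) : ℂ).re = -(c / 2) := by
    have : (-(c * w / 2) : ℂ) = ((-(c / 2) : ℝ) : ℂ) * w := by push_cast; ring
    rw [this, Complex.re_ofReal_mul, hw, mul_one]
  rw [this, ← hqc, mul_inv_cancel₀ hq.ne']

lemma qB_bdd {q c σ : ℝ} (hc : 0 < c) (hqc : q = Real.exp (-(c / 2))) (hq1 : q ≤ 1 / 40)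
    (hσ : |σ| = 1) : ∃ C : ℝ, ∀ w : ℂ, 0 ≤ w.re → w.re ≤ 1 → ‖qB q c σ w‖ ≤ C := by
  have hq : 0 < q := by rw [hqc]; exact Real.exp_pos _
  refine ⟨1 * (Real.exp (2 * (q * Real.exp c)) * Real.exp (2 * 1)) / (1 / 2 * (1 / 2)), ?_⟩
  intro w h0 h1
  have hb : ∀ z : ℂ, ‖z‖ ≤ q → 1 / 2 ≤ ‖qF q z‖ := by
    intro z hz
    have h3 := qF_sub_one hq (by linarith) z
    have h1 : Real.exp (2 * ‖z‖) ≤ Real.exp (2 * q) := Real.exp_le_exp.2 (by linarith)
    have h2 := Real.abs_exp_sub_one_le (x := 2 * q) (by rw [abs_of_pos (by linarith)]; linarith)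
    rw [abs_of_pos (a := 2 * q) (by linarith)] at h2
    have h4 := le_abs_self (Real.exp (2 * q) - 1)
    have h5 := norm_sub_norm_le (1 : ℂ) (1 - qF q z)
    rw [norm_one, norm_sub_rev, sub_sub_cancel] at h5
    linarith
  have hu : ∀ (z : ℂ) (M : ℝ), ‖z‖ ≤ M → ‖qF q z‖ ≤ Real.exp (2 * M) := by
    intro z M hz
    have h3 := qF_sub_one hq (by linarith) z
    have h1 : Real.exp (2 * ‖z‖) ≤ Real.exp (2 * M) := Real.exp_le_exp.2 (by linarith)
    have h5 := norm_sub_norm_le (qF q z) 1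
    rw [norm_one] at h5
    linarith
  have n1 : ‖(σ * q * exp (c * w) : ℂ)‖ ≤ q * Real.exp c := by
    rw [norm_mul, norm_mul, Complex.norm_real, Complex.norm_real, Real.norm_eq_abs, hσ,
      Real.norm_of_nonneg hq.le, exp_norm, one_mul]
    gcongr
    nlinarith
  have n4 : ‖(σ * q * exp (-(c * w)) : ℂ)‖ ≤ q := by
    rw [norm_mul, norm_mul, Complex.norm_real, Complex.norm_real, Real.norm_eq_abs, hσ,
      Real.norm_of_nonneg hq.le, exp_norm', one_mul]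
    have : Real.exp (-(c * w.re)) ≤ 1 := Real.exp_le_one_iff.2 (by nlinarith)
    nlinarith
  have q3 : q ^ 3 ≤ 1 := pow_le_one₀ hq.le (by linarith)
  have n2 : ‖(σ * q ^ 3 * exp (-(c * w)) : ℂ)‖ ≤ 1 := by
    rw [norm_mul, norm_mul, norm_pow, Complex.norm_real, Complex.norm_real, Real.norm_eq_abs, hσ,
      Real.norm_of_nonneg hq.le, exp_norm', one_mul]
    have : Real.exp (-(c * w.re)) ≤ 1 := Real.exp_le_one_iff.2 (by nlinarith)
    have h7 : 0 < q ^ 3 := by positivity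
    nlinarith
  have n3 : ‖(σ * q ^ 3 * exp (c * w) : ℂ)‖ ≤ q := by
    rw [norm_mul, norm_mul, norm_pow, Complex.norm_real, Complex.norm_real, Real.norm_eq_abs, hσ,
      Real.norm_of_nonneg hq.le, exp_norm, one_mul, hqc, ← Real.exp_nat_mul, ← Real.exp_add]
    apply Real.exp_le_exp.2
    push_cast
    nlinarith
  have n0 : ‖exp (-(c * w / 2))‖ ≤ 1 := by
    rw [Complex.norm_exp, Real.exp_le_one_iff]
    have : (-(c * w / 2) : ℂ) = ((-(c / 2) : ℝ) : ℂ) * w := by push_cast; ring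
    rw [this, Complex.re_ofReal_mul]
    nlinarith
  unfold qB
  rw [norm_div, norm_mul, norm_mul, norm_mul]
  have b1 := hu _ _ n1
  have b2 := hu _ _ n2
  have b3 := hb _ n3
  have b4 := hb _ n4
  gcongr

lemma qB_le {q c σ : ℝ} (hc : 0 < c) (hqc : q = Real.exp (-(c / 2))) (hq1 : q ≤ 1 / 40)
    (hσ : |σ| = 1) {w : ℂ} (h0 : 0 ≤ w.re) (h1 : w.re ≤ 1) : ‖qB q c σ w‖ ≤ 1 := by
  have hq : 0 < q := by rw [hqc]; exact Real.exp_pos _
  obtain ⟨C, hC⟩ := qB_bdd hc hqc hq1 hσ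
  have hcl : closure (HadamardThreeLines.verticalStrip 0 1) ⊆
      {w : ℂ | -(1 / 4) < w.re ∧ w.re < 5 / 4} := by
    have h2 : closure (HadamardThreeLines.verticalStrip 0 1) ⊆ {w : ℂ | 0 ≤ w.re ∧ w.re ≤ 1} := by
      apply closure_minimal
      · intro z hz
        have : 0 < z.re ∧ z.re < 1 := hz
        exact ⟨this.1.le, this.2.le⟩
      · exact (isClosed_le continuous_const Complex.continuous_re).inter
          (isClosed_le Complex.continuous_re continuous_const)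
    intro z hz
    have := h2 hz
    exact ⟨by linarith [this.1], by linarith [this.2]⟩
  have hd : DiffContOnCl ℂ (qB q c σ) (HadamardThreeLines.verticalStrip 0 1) :=
    ((qB_diff hc hqc (by linarith) hσ).mono hcl).diffContOnCl
  have := HadamardThreeLines.norm_le_interp_of_mem_verticalClosedStrip₀₁' (qB q c σ) (z := w)
    (a := 1) (b := 1) ⟨h0, h1⟩ hd
    ⟨C, by rintro _ ⟨z, hz, rfl⟩; exact hC z hz.1 hz.2⟩
    (fun z hz => (qB_norm0 hq (by linarith) hσ hz).le)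
    (fun z hz => (qB_norm1 hq hqc (by linarith) hσ hz).le)
  simpa using this

end StripPair

section StripPair2
open Complex Filter Topology
open scoped ComplexConjugate

theorem exists_strip_pair_aux {ε : ℝ} (hε : 0 < ε) : ∃ ψ₁ ψ₂ : ℂ → ℂ,
    DifferentiableOn ℂ ψ₁ {w : ℂ | -(1 / 4) < w.re ∧ w.re < 5 / 4} ∧
    DifferentiableOn ℂ ψ₂ {w : ℂ | -(1 / 4) < w.re ∧ w.re < 5 / 4} ∧
    (∀ w : ℂ, 0 ≤ w.re → w.re ≤ 1 → ‖ψ₁ w‖ ≤ 1 ∧ ‖ψ₂ w‖ ≤ 1) ∧
    (∀ w : ℂ, w.re = 0 ∨ w.re = 1 → ‖ψ₁ w‖ = 1 ∧ ‖ψ₂ w‖ = 1) ∧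
    (∀ w : ℂ, w.re = 0 → ‖ψ₁ w * conj (ψ₂ w) - 1‖ ≤ ε) ∧
    (∀ w : ℂ, w.re = 1 → ‖ψ₁ w * conj (ψ₂ w) + 1‖ ≤ ε) ∧
    ψ₁ 0 = 1 ∧ ψ₂ 0 = 1 := by
  set q : ℝ := min (1 / 40) (ε / 192) with hqd
  have hq : 0 < q := lt_min (by norm_num) (by positivity)
  have hq1 : q ≤ 1 / 40 := min_le_left _ _
  have hq2 : 192 * q ≤ ε := by
    have := min_le_right (1 / 40) (ε / 192)
    rw [← hqd] at this
    linarith
  set c : ℝ := -2 * Real.log q with hcd
  have hlog : Real.log q < 0 := Real.log_neg hq (by linarith)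
  have hc : 0 < c := by rw [hcd]; linarith
  have hqc : q = Real.exp (-(c / 2)) := by
    rw [hcd, show -(-2 * Real.log q / 2) = Real.log q by ring, Real.exp_log hq]
  have s1 : |(1 : ℝ)| = 1 := by simp
  have s2 : |(-1 : ℝ)| = 1 := by simp
  set B₁ := qB q c 1 with hB1
  set B₂ := qB q c (-1) with hB2
  have u1 : ‖B₁ 0‖ = 1 := qB_norm0 hq (by linarith) s1 (by simp)
  have u2 : ‖B₂ 0‖ = 1 := qB_norm0 hq (by linarith) s2 (by simp)
  have v1 : B₁ 0 ≠ 0 := by intro h; rw [h, norm_zero] at u1; norm_num at u1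
  have v2 : B₂ 0 ≠ 0 := by intro h; rw [h, norm_zero] at u2; norm_num at u2
  have hb : ∀ w : ℂ, w.re = 0 ∨ w.re = 1 → ‖B₁ w‖ = 1 ∧ ‖B₂ w‖ = 1 := by
    rintro w (h | h)
    · exact ⟨qB_norm0 hq (by linarith) s1 h, qB_norm0 hq (by linarith) s2 h⟩
    · exact ⟨qB_norm1 hq hqc (by linarith) s1 h, qB_norm1 hq hqc (by linarith) s2 h⟩
  -- the quotient on the two lines
  have hquot : ∀ η : ℂ, ‖η‖ = 1 → ‖qG q 1 η / qG q (-1) η - 1‖ ≤ 96 * q := by
    intro η hη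
    have g1 := qG_sub_one hq hq1 s1 hη
    have g2 := qG_sub_one hq hq1 s2 hη
    have g3 := qG_norm hq (by linarith) s2 hη
    have g4 : qG q (-1) η ≠ 0 := by intro h; rw [h, norm_zero] at g3; norm_num at g3
    have : qG q 1 η / qG q (-1) η - 1 = ((qG q 1 η - 1) - (qG q (-1) η - 1)) / qG q (-1) η := by
      rw [sub_sub_sub_cancel_right, sub_div, div_self g4]
    rw [this, norm_div, g3, div_one]
    have := norm_sub_le (qG q 1 η - 1) (qG q (-1) η - 1)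
    linarith
  have h0 : ∀ w : ℂ, w.re = 0 → ‖B₁ w / B₂ w - 1‖ ≤ 96 * q := by
    intro w hw
    have hη : ‖conj (exp (c * w))‖ = 1 := by
      rw [RCLike.norm_conj, exp_norm, hw]; simp
    have := hquot _ hη
    rw [hB1, hB2, qB_line0 hw, qB_line0 hw, mul_div_mul_left _ _ (Complex.exp_ne_zero _)]
    exact this
  have h1 : ∀ w : ℂ, w.re = 1 → ‖B₁ w / B₂ w + 1‖ ≤ 96 * q := by
    intro w hw
    obtain ⟨a1, a2⟩ := qB_line1 (q := q) (c := c) (σ := 1) hqc (by linarith) (by norm_num) hw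
    obtain ⟨_, a4⟩ := qB_line1 (q := q) (c := c) (σ := -1) hqc (by linarith) (by norm_num) hw
    have := hquot _ a1
    rw [hB1, hB2, a2, a4]
    set η : ℂ := (q : ℂ) ^ 2 * exp (c * w) with hη
    have hηne : η ≠ 0 := by intro h; rw [h, norm_zero] at a1; norm_num at a1
    have hq0 : (q : ℂ) ≠ 0 := by exact_mod_cast hq.ne'
    have hne : exp (-(c * w / 2)) * (q : ℂ)⁻¹ * η ≠ 0 :=
      mul_ne_zero (mul_ne_zero (Complex.exp_ne_zero _) (inv_ne_zero hq0)) hηne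
    have e1 : -(((1 : ℝ) : ℂ) * exp (-(c * w / 2)) * (q : ℂ)⁻¹ * η) * qG q 1 η =
        (exp (-(c * w / 2)) * (q : ℂ)⁻¹ * η) * (-qG q 1 η) := by push_cast; ring
    have e2 : -(((-1 : ℝ) : ℂ) * exp (-(c * w / 2)) * (q : ℂ)⁻¹ * η) * qG q (-1) η =
        (exp (-(c * w / 2)) * (q : ℂ)⁻¹ * η) * (qG q (-1) η) := by push_cast; ring
    rw [e1, e2, mul_div_mul_left _ _ hne, neg_div, ← norm_neg, neg_add, neg_neg]
    exact this
  have hconj : ∀ w : ℂ, w.re = 0 ∨ w.re = 1 →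
      B₁ w / B₁ 0 * conj (B₂ w / B₂ 0) = (B₁ w / B₂ w) / (B₁ 0 / B₂ 0) := by
    intro w hw
    obtain ⟨c1, c2⟩ := hb w hw
    have c3 : ‖B₂ w / B₂ 0‖ = 1 := by rw [norm_div, c2, u2, div_one]
    have c4 : B₂ w ≠ 0 := by intro h; rw [h, norm_zero] at c2; norm_num at c2
    rw [← Complex.inv_eq_conj c3]
    field_simp
  have hR : ‖B₁ 0 / B₂ 0‖ = 1 := by rw [norm_div, u1, u2, div_one]
  have hR0 : B₁ 0 / B₂ 0 ≠ 0 := div_ne_zero v1 v2
  have hR1 := h0 0 (by simp)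
  refine ⟨fun w => B₁ w / B₁ 0, fun w => B₂ w / B₂ 0, ?_, ?_, ?_, ?_, ?_, ?_, ?_, ?_⟩
  · exact (qB_diff hc hqc (by linarith) s1).div_const _
  · exact (qB_diff hc hqc (by linarith) s2).div_const _
  · intro w hw0 hw1
    constructor
    · rw [norm_div, u1, div_one]; exact qB_le hc hqc hq1 s1 hw0 hw1
    · rw [norm_div, u2, div_one]; exact qB_le hc hqc hq1 s2 hw0 hw1
  · intro w hw
    obtain ⟨c1, c2⟩ := hb w hw
    exact ⟨by rw [norm_div, c1, u1, div_one], by rw [norm_div, c2, u2, div_one]⟩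
  · intro w hw
    simp only
    rw [hconj w (Or.inl hw)]
    have : B₁ w / B₂ w / (B₁ 0 / B₂ 0) - 1 =
        ((B₁ w / B₂ w - 1) - (B₁ 0 / B₂ 0 - 1)) / (B₁ 0 / B₂ 0) := by
      rw [sub_sub_sub_cancel_right, sub_div, div_self hR0]
    rw [this, norm_div, hR, div_one]
    have h5 := norm_sub_le (B₁ w / B₂ w - 1) (B₁ 0 / B₂ 0 - 1)
    have h6 := h0 w hw
    linarith
  · intro w hw
    simp only
    rw [hconj w (Or.inr hw)]
    have : B₁ w / B₂ w / (B₁ 0 / B₂ 0) + 1 =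
        ((B₁ w / B₂ w + 1) + (B₁ 0 / B₂ 0 - 1)) / (B₁ 0 / B₂ 0) := by
      rw [add_add_sub_cancel, add_div, div_self hR0]
    rw [this, norm_div, hR, div_one]
    have h5 := norm_add_le (B₁ w / B₂ w + 1) (B₁ 0 / B₂ 0 - 1)
    have h6 := h1 w hw
    linarith
  · exact div_self v1
  · exact div_self v2

end StripPair2

open Complex Filter Topology
open scoped ComplexConjugate

theorem exists_strip_pair {ε : ℝ} (hε : 0 < ε) : ∃ ψ₁ ψ₂ : ℂ → ℂ,
    DifferentiableOn ℂ ψ₁ {w : ℂ | -(1 / 4) < w.re ∧ w.re < 5 / 4} ∧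
    DifferentiableOn ℂ ψ₂ {w : ℂ | -(1 / 4) < w.re ∧ w.re < 5 / 4} ∧
    (∀ w : ℂ, 0 ≤ w.re → w.re ≤ 1 → ‖ψ₁ w‖ ≤ 1 ∧ ‖ψ₂ w‖ ≤ 1) ∧
    (∀ w : ℂ, w.re = 0 ∨ w.re = 1 → ‖ψ₁ w‖ = 1 ∧ ‖ψ₂ w‖ = 1) ∧
    (∀ w : ℂ, w.re = 0 → ‖ψ₁ w * conj (ψ₂ w) - 1‖ ≤ ε) ∧
    (∀ w : ℂ, w.re = 1 → ‖ψ₁ w * conj (ψ₂ w) + 1‖ ≤ ε) ∧
    ψ₁ 0 = 1 ∧ ψ₂ 0 = 1 := exists_strip_pair_aux hε

end P644
end Pool.Agent.Helper900.UB
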