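import Pool.Agent.Helper900.UB.Defs

set_option autoImplicit false

namespace Pool.Agent.Helper900.UB
namespace P645

open MeasureTheory AddCircle Complex Filter Topology
open scoped ENNReal ComplexConjugate

/-- A continuous linear functional attains its maximum on a nonempty closed bounded convex subset
of a Hilbert space. -/
theorem exists_max_convex {E : Type*} [NormedAddCommGroup E] [InnerProductSpace ℝ E]
    [CompleteSpace E] (S : Set E) (hne : S.Nonempty) (hcl : IsClosed S) (hcv : Convex ℝ S)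
    (B : ℝ) (hB : ∀ x ∈ S, ‖x‖ ≤ B) (φ : E →L[ℝ] ℝ) :
    ∃ g ∈ S, ∀ h ∈ S, φ h ≤ φ g := by
  have hbdd : BddAbove (φ '' S) := by
    refine ⟨‖φ‖ * B, ?_⟩
    rintro _ ⟨x, hx, rfl⟩
    refine (le_abs_self _).trans ((φ.le_opNorm x).trans ?_)
    exact mul_le_mul_of_nonneg_left (hB x hx) (norm_nonneg _)
  set a := sSup (φ '' S) with ha
  have hle : ∀ x ∈ S, φ x ≤ a := fun x hx => le_csSup hbdd ⟨x, hx, rfl⟩
  let K : ℕ → Set E := fun n => {x ∈ S | a - 1 / (n + 1 : ℝ) ≤ φ x}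
  have hKne : ∀ n, (K n).Nonempty := by
    intro n
    obtain ⟨_, ⟨x, hx, rfl⟩, h⟩ := exists_lt_of_lt_csSup (hne.image φ)
      (show a - 1 / (n + 1 : ℝ) < sSup (φ '' S) by
        have : (0 : ℝ) < 1 / (n + 1 : ℝ) := by positivity
        rw [← ha]; linarith)
    exact ⟨x, hx, h.le⟩
  have hKcl : ∀ n, IsClosed (K n) := fun n =>
    hcl.inter (isClosed_le continuous_const φ.continuous)
  have hKcv : ∀ n, Convex ℝ (K n) := by
    intro n x hx y hy p q hp hq hpq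
    refine ⟨hcv hx.1 hy.1 hp hq hpq, ?_⟩
    have h1 := hx.2
    have h2 := hy.2
    rw [map_add, map_smul, map_smul, smul_eq_mul, smul_eq_mul]
    have h3 := mul_le_mul_of_nonneg_left h1 hp
    have h4 := mul_le_mul_of_nonneg_left h2 hq
    have h5 : p * (a - 1 / (n + 1 : ℝ)) + q * (a - 1 / (n + 1 : ℝ)) = a - 1 / (n + 1 : ℝ) := by
      rw [← add_mul, hpq, one_mul]
    linarith
  have hanti : ∀ m n, n ≤ m → K m ⊆ K n := by
    intro m n hmn x hx
    refine ⟨hx.1, le_trans ?_ hx.2⟩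
    have : (1 : ℝ) / (m + 1 : ℝ) ≤ 1 / (n + 1 : ℝ) := by
      apply one_div_le_one_div_of_le (by positivity)
      have : (n : ℝ) ≤ m := Nat.cast_le.mpr hmn
      linarith
    linarith
  have hmin : ∀ n, ∃ v ∈ K n, ∀ w ∈ K n, ‖v‖ ≤ ‖w‖ := by
    intro n
    obtain ⟨v, hv, h⟩ := exists_norm_eq_iInf_of_complete_convex (hKne n) (hKcl n).isComplete
      (hKcv n) 0
    refine ⟨v, hv, fun w hw => ?_⟩
    have h1 : (⨅ w : K n, ‖(0 : E) - w‖) ≤ ‖(0 : E) - w‖ :=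
      ciInf_le ⟨0, by rintro _ ⟨x, rfl⟩; exact norm_nonneg _⟩ (⟨w, hw⟩ : K n)
    rw [← h, zero_sub, zero_sub, norm_neg, norm_neg] at h1
    exact h1
  choose v hv hvmin using hmin
  have hmono : Monotone fun n => ‖v n‖ := fun n m hnm => hvmin n _ (hanti m n hnm (hv m))
  have hvB : ∀ n, ‖v n‖ ≤ B := fun n => hB _ (hv n).1
  have hsqmono : Monotone fun n => ‖v n‖ ^ 2 := fun n m hnm =>
    pow_le_pow_left₀ (norm_nonneg _) (hmono hnm) 2
  have hsqbdd : BddAbove (Set.range fun n => ‖v n‖ ^ 2) :=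
    ⟨B ^ 2, by rintro _ ⟨n, rfl⟩; exact pow_le_pow_left₀ (norm_nonneg _) (hvB n) 2⟩
  have htend := tendsto_atTop_ciSup hsqmono hsqbdd
  set L := ⨆ n, ‖v n‖ ^ 2 with hL
  have hdiff : ∀ n m, n ≤ m → ‖v m - v n‖ ^ 2 ≤ 2 * (‖v m‖ ^ 2 - ‖v n‖ ^ 2) := by
    intro n m hnm
    have h1 : (1 / 2 : ℝ) • v m + (1 / 2 : ℝ) • v n ∈ K n :=
      hKcv n (hanti m n hnm (hv m)) (hv n) (by norm_num) (by norm_num) (by norm_num)
    have h2 := hvmin n _ h1
    rw [← smul_add, norm_smul, Real.norm_eq_abs, abs_of_pos (by norm_num : (0 : ℝ) < 1 / 2)] at h2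
    have h3 := parallelogram_law_with_norm ℝ (v m) (v n)
    have h4 : (2 * ‖v n‖) ^ 2 ≤ ‖v m + v n‖ ^ 2 :=
      pow_le_pow_left₀ (by positivity) (by linarith) 2
    nlinarith
  have hcau : CauchySeq v := by
    rw [Metric.cauchySeq_iff']
    intro ε hε
    rw [Metric.tendsto_atTop] at htend
    obtain ⟨N, hN⟩ := htend (ε ^ 2 / 4) (by positivity)
    refine ⟨N, fun n hn => ?_⟩
    have h1 := hN N le_rfl
    have h2 := hdiff N n hn
    have h3 : ‖v n‖ ^ 2 ≤ L := le_ciSup hsqbdd n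
    rw [Real.dist_eq] at h1
    have h4 := (abs_lt.mp h1).1
    rw [dist_eq_norm]
    refine lt_of_pow_lt_pow_left₀ 2 hε.le ?_
    nlinarith [sq_nonneg ε]
  obtain ⟨g, hg⟩ := cauchySeq_tendsto_of_complete hcau
  have hgK : ∀ n, g ∈ K n := fun n =>
    (hKcl n).mem_of_tendsto hg (eventually_atTop.mpr ⟨n, fun m hm => hanti m n hm (hv m)⟩)
  refine ⟨g, (hgK 0).1, fun h hh => (hle h hh).trans ?_⟩
  refine le_of_forall_pos_le_add fun ε hε => ?_
  obtain ⟨n, hn⟩ := exists_nat_one_div_lt hε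
  have := (hgK n).2
  linarith

/-- closedness of an a.e. bound in `L²` -/
theorem ae_le_of_tendsto {F : ℕ → Lp ℂ 2 mu} {G : Lp ℂ 2 mu} (h : Tendsto F atTop (𝓝 G))
    {e V : T → ℂ} (hF : ∀ n, ∀ᵐ t ∂mu, ‖e t + V t * F n t‖ ≤ 1) :
    ∀ᵐ t ∂mu, ‖e t + V t * G t‖ ≤ 1 := by
  obtain ⟨ns, -, hns⟩ := (tendstoInMeasure_of_tendsto_Lp h).exists_seq_tendsto_ae
  filter_upwards [hns, ae_all_iff.mpr hF] with t h1 h2
  have h3 : Tendsto (fun i => ‖e t + V t * F (ns i) t‖) atTop (𝓝 ‖e t + V t * G t‖) :=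
    ((h1.const_mul (V t)).const_add (e t)).norm
  exact le_of_tendsto h3 (Eventually.of_forall fun i => h2 (ns i))

theorem aak_max {e V : T → ℂ} (he : e ∈ HInf) (hV : IsInner V) (he1 : ∀ᵐ t ∂mu, ‖e t‖ ≤ 1 / 2) :
    ∃ g ∈ HInf, (∀ᵐ t ∂mu, ‖e t + V t * g t‖ ≤ 1) ∧
      ∀ k ∈ HInf, (∀ᵐ t ∂mu, ‖e t + V t * k t‖ ≤ 1) →
        (∫ t, k t ∂mu).re ≤ (∫ t, g t ∂mu).re := by
  let c : ℤ → Lp ℂ 2 mu →L[ℂ] ℂ := fun n => innerSL ℂ (fourierBasis (T := 1) n)
  have hc : ∀ n (G : Lp ℂ 2 mu), c n G = fourierCoeff G n := by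
    intro n G
    rw [← fourierBasis_repr, HilbertBasis.repr_apply_apply]
    rfl
  have hc0 : ∀ G : Lp ℂ 2 mu, c 0 G = ∫ t, G t ∂mu := by
    intro G
    rw [hc, fc_def]
    congr 1
    funext t
    rw [neg_zero, e_zero, one_mul]
  let S : Set (Lp ℂ 2 mu) := {G | (∀ n : ℤ, n < 0 → c n G = 0) ∧
    ∀ᵐ t ∂mu, ‖e t + V t * G t‖ ≤ 1}
  have hbound : ∀ G : T → ℂ, (∀ᵐ t ∂mu, ‖e t + V t * G t‖ ≤ 1) → ∀ᵐ t ∂mu, ‖G t‖ ≤ 3 / 2 := by
    intro G hG
    filter_upwards [hG, he1, hV.2] with t h1 h2 h3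
    have h4 : ‖V t * G t‖ ≤ ‖e t + V t * G t‖ + ‖e t‖ := by
      have := norm_sub_le (e t + V t * G t) (e t)
      rwa [add_sub_cancel_left] at this
    rw [norm_mul, h3, one_mul] at h4
    linarith
  have hmem : ∀ k ∈ HInf, (∀ᵐ t ∂mu, ‖e t + V t * k t‖ ≤ 1) → ∀ hk2 : MemLp k 2 mu,
      hk2.toLp k ∈ S := by
    intro k hk hk1 hk2
    have h1 := hk2.coeFn_toLp
    refine ⟨fun n hn => ?_, ?_⟩
    · rw [hc, fc_def, ← hk.2 n hn, fc_def]
      refine integral_congr_ae ?_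
      filter_upwards [h1] with t ht
      rw [ht]
    · filter_upwards [h1, hk1] with t ht ht1
      rw [ht]; exact ht1
  have hSne : S.Nonempty := by
    refine ⟨_, hmem (fun _ => 0) (const_HInf 0) ?_ (memLp2 (const_HInf 0).1)⟩
    filter_upwards [he1] with t ht
    rw [mul_zero, add_zero]; linarith
  have hScl : IsClosed S := by
    refine IsSeqClosed.isClosed fun F G hF hFG => ⟨fun n hn => ?_, ?_⟩
    · have h1 : Tendsto (fun i => c n (F i)) atTop (𝓝 (c n G)) :=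
        ((c n).continuous.tendsto G).comp hFG
      have h2 : (fun i => c n (F i)) = fun _ => 0 := funext fun i => (hF i).1 n hn
      rw [h2] at h1
      exact (tendsto_nhds_unique h1 tendsto_const_nhds)
    · exact ae_le_of_tendsto hFG fun i => (hF i).2
  have hScv : Convex ℝ S := by
    intro F hF G hG p q hp hq hpq
    refine ⟨fun n hn => ?_, ?_⟩
    · rw [map_add, (c n).map_smul_of_tower p F, (c n).map_smul_of_tower q G, hF.1 n hn,
        hG.1 n hn, smul_zero, smul_zero, add_zero]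
    · filter_upwards [hF.2, hG.2, Lp.coeFn_add (p • F) (q • G), Lp.coeFn_smul p F,
        Lp.coeFn_smul q G] with t h1 h2 h3 h4 h5
      rw [h3, Pi.add_apply, h4, h5, Pi.smul_apply, Pi.smul_apply]
      have h6 : e t + V t * (p • F t + q • G t) =
          (p : ℂ) * (e t + V t * F t) + (q : ℂ) * (e t + V t * G t) := by
        have h7 : (p : ℂ) + q = 1 := by exact_mod_cast hpq
        rw [Complex.real_smul, Complex.real_smul]
        linear_combination (-(e t)) * h7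
      rw [h6]
      refine (norm_add_le _ _).trans ?_
      rw [norm_mul, norm_mul, Complex.norm_real, Complex.norm_real, Real.norm_eq_abs,
        Real.norm_eq_abs, abs_of_nonneg hp, abs_of_nonneg hq]
      nlinarith
  have hSB : ∀ G ∈ S, ‖G‖ ≤ 3 / 2 := by
    intro G hG
    have h1 := Lp.norm_le_of_ae_bound (μ := mu) (p := 2) (f := G) (by norm_num : (0 : ℝ) ≤ 3 / 2)
      (hbound _ hG.2)
    have h2 : (measureUnivNNReal mu : NNReal) = 1 := by
      simp [measureUnivNNReal]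
    rw [h2] at h1
    simpa using h1
  obtain ⟨G, hGS, hGmax⟩ := exists_max_convex S hSne hScl hScv (3 / 2) hSB
    (Complex.reCLM.comp ((c 0).restrictScalars ℝ))
  have hG1 := hGS.2
  have hGInf : (G : T → ℂ) ∈ HInf := by
    refine ⟨memLp_top_of_bound (Lp.aestronglyMeasurable G) (3 / 2) (hbound _ hG1), fun n hn => ?_⟩
    rw [← hc]
    exact hGS.1 n hn
  refine ⟨G, hGInf, hG1, fun k hk hk1 => ?_⟩
  have h1 := hGmax _ (hmem k hk hk1 (memLp2 hk.1))
  have h2 : (c 0 ((memLp2 hk.1).toLp k)).re ≤ (c 0 G).re := h1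
  rw [hc0, hc0] at h2
  have h3 : ∫ t, ((memLp2 hk.1).toLp k : T → ℂ) t ∂mu = ∫ t, k t ∂mu :=
    integral_congr_ae (memLp2 hk.1).coeFn_toLp
  rwa [h3] at h2

theorem aak
    (hout : ∀ E : Set T, MeasurableSet E → ∀ a b : ℝ, 0 < a → 0 < b →
      ∃ k ∈ HInf, (∀ᵐ t ∂mu, (t ∈ E → ‖k t‖ = a) ∧ (t ∉ E → ‖k t‖ = b)) ∧
        ∫ t, k t ∂mu = ((a ^ (mu.real E) * b ^ (1 - mu.real E) : ℝ) : ℂ))
    {e V : T → ℂ} (he : e ∈ HInf) (hV : IsInner V) (he1 : ∀ᵐ t ∂mu, ‖e t‖ ≤ 1 / 2) :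
    ∃ g ∈ HInf, (∀ᵐ t ∂mu, ‖e t + V t * g t‖ = 1) ∧
      ∀ k ∈ HInf, (∀ᵐ t ∂mu, ‖e t + V t * k t‖ ≤ 1) →
        (∫ t, k t ∂mu).re ≤ (∫ t, g t ∂mu).re := by
  obtain ⟨g, hg, hg1, hmax⟩ := aak_max he hV he1
  refine ⟨g, hg, ?_, hmax⟩
  by_contra hcon
  -- a measurable version of the function
  have haesm : AEStronglyMeasurable (fun t => e t + V t * g t) mu :=
    he.1.1.add (hV.1.1.1.mul hg.1.1)
  obtain ⟨η, hη0, hη1, E, hEm, hE0, hE⟩ : ∃ η : ℝ, 0 < η ∧ η < 1 ∧ ∃ E : Set T, MeasurableSet E ∧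
      0 < mu.real E ∧ ∀ᵐ t ∂mu, t ∈ E → ‖e t + V t * g t‖ ≤ 1 - η := by
    let F := haesm.mk
    have hF : (fun t => e t + V t * g t) =ᵐ[mu] F := haesm.ae_eq_mk
    have hFm : StronglyMeasurable F := haesm.stronglyMeasurable_mk
    have hEm : ∀ r : ℝ, MeasurableSet {t | ‖F t‖ ≤ r} := fun r =>
      measurableSet_le hFm.norm.measurable measurable_const
    by_contra hno
    apply hcon
    have h0 : ∀ n : ℕ, ∀ᵐ t ∂mu, t ∉ {t | ‖F t‖ ≤ 1 - 1 / (n + 2 : ℝ)} := by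
      intro n
      rw [← measure_eq_zero_iff_ae_notMem]
      by_contra hne
      apply hno
      have hn : (1 : ℝ) / (n + 2 : ℝ) < 1 := by
        rw [div_lt_one (by positivity)]
        have : (0 : ℝ) ≤ n := Nat.cast_nonneg n
        linarith
      refine ⟨1 / (n + 2 : ℝ), by positivity, hn, {t | ‖F t‖ ≤ 1 - 1 / (n + 2 : ℝ)}, hEm _, ?_, ?_⟩
      · rw [measureReal_def]
        exact ENNReal.toReal_pos hne (measure_ne_top _ _)
      · filter_upwards [hF] with t ht htE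
        rw [ht]
        exact htE
    filter_upwards [hg1, hF, ae_all_iff.mpr h0] with t h1 h2 h3
    refine le_antisymm h1 ?_
    refine le_of_forall_pos_lt_add fun ε hε => ?_
    obtain ⟨n, hn⟩ := exists_nat_one_div_lt hε
    have h4 := h3 n
    have h4 := not_le.mp h4
    rw [h2]
    have h5 : (1 : ℝ) / (n + 2 : ℝ) ≤ 1 / (n + 1 : ℝ) := by
      apply one_div_le_one_div_of_le (by positivity)
      linarith
    linarith
  set m := mu.real E with hm
  set A := (∫ t, g t ∂mu).re with hA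
  have hm1 : m ≤ 1 := by
    rw [hm]; exact measureReal_le_one
  -- the competitor
  have key : ∀ s : ℝ, 0 < s → s ≤ η → (η / 2) ^ m * (s / 2) ^ (1 - m) ≤ s * A := by
    intro s hs hsη
    obtain ⟨k, hk, hk1, hk2⟩ := hout E hEm (η / 2) (s / 2) (by positivity) (by positivity)
    have hg' : (fun t => ((1 - s : ℝ) : ℂ) * g t + k t) ∈ HInf := add_HInf (smul_HInf hg _) hk
    have h1 := hmax _ hg' (by
      filter_upwards [hg1, hE, hk1, he1, hV.2] with t h1 h2 h3 h4 h5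
      have h6 : e t + V t * (((1 - s : ℝ) : ℂ) * g t + k t) =
          ((1 - s : ℝ) : ℂ) * (e t + V t * g t) + (s : ℂ) * e t + V t * k t := by
        push_cast; ring
      rw [h6]
      refine (norm_add_le _ _).trans ?_
      have h7 := norm_add_le (((1 - s : ℝ) : ℂ) * (e t + V t * g t)) ((s : ℂ) * e t)
      rw [norm_mul, norm_mul, Complex.norm_real, Complex.norm_real, Real.norm_eq_abs,
        Real.norm_eq_abs, abs_of_nonneg (by linarith : (0 : ℝ) ≤ 1 - s), abs_of_pos hs] at h7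
      rw [norm_mul, h5, one_mul]
      have h8 : s * ‖e t‖ ≤ s * (1 / 2) := mul_le_mul_of_nonneg_left h4 hs.le
      by_cases htE : t ∈ E
      · have h9 := h2 htE
        have h10 := h3.1 htE
        have h11 : (1 - s) * ‖e t + V t * g t‖ ≤ (1 - s) * (1 - η) :=
          mul_le_mul_of_nonneg_left h9 (by linarith)
        rw [h10]
        nlinarith
      · have h10 := h3.2 htE
        have h11 : (1 - s) * ‖e t + V t * g t‖ ≤ (1 - s) * 1 :=
          mul_le_mul_of_nonneg_left h1 (by linarith)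
        rw [h10]
        linarith)
    have h2 : ∫ t, (((1 - s : ℝ) : ℂ) * g t + k t) ∂mu =
        ((1 - s : ℝ) : ℂ) * ∫ t, g t ∂mu + ∫ t, k t ∂mu := by
      rw [integral_add ((memLp_integrable hg.1).const_mul _) (memLp_integrable hk.1),
        integral_const_mul]
    rw [h2, hk2, Complex.add_re, Complex.re_ofReal_mul, Complex.ofReal_re, ← hm, ← hA] at h1
    linarith
  -- the limit
  have hC : 0 < (η / 2) ^ m * (1 / 2 : ℝ) ^ (1 - m) := by positivity
  have hle : ∀ᶠ s : ℝ in 𝓝[>] 0, (η / 2) ^ m * (1 / 2 : ℝ) ^ (1 - m) ≤ A * s ^ m := by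
    filter_upwards [Ioc_mem_nhdsGT hη0] with s hs
    have h1 := key s hs.1 hs.2
    have h2 : (s / 2) ^ (1 - m) = s ^ (1 - m) * (1 / 2 : ℝ) ^ (1 - m) := by
      rw [← Real.mul_rpow hs.1.le (by norm_num)]
      congr 1; ring
    have h3 : s = s ^ (1 - m) * s ^ m := by
      rw [← Real.rpow_add hs.1, sub_add_cancel, Real.rpow_one]
    have h4 : 0 < s ^ (1 - m) := Real.rpow_pos_of_pos hs.1 _
    rw [h2] at h1
    have h5 : s ^ (1 - m) * ((η / 2) ^ m * (1 / 2 : ℝ) ^ (1 - m)) ≤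
        s ^ (1 - m) * (A * s ^ m) := by
      calc s ^ (1 - m) * ((η / 2) ^ m * (1 / 2 : ℝ) ^ (1 - m)) =
            (η / 2) ^ m * (s ^ (1 - m) * (1 / 2 : ℝ) ^ (1 - m)) := by ring
        _ ≤ s * A := h1
        _ = (s ^ (1 - m) * s ^ m) * A := by rw [← h3]
        _ = s ^ (1 - m) * (A * s ^ m) := by ring
    exact le_of_mul_le_mul_left h5 h4
  have hlim : Tendsto (fun s : ℝ => A * s ^ m) (𝓝[>] 0) (𝓝 0) := by
    have h1 : Tendsto (fun s : ℝ => s ^ m) (𝓝 0) (𝓝 (0 ^ m)) :=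
      (Real.continuousAt_rpow_const 0 m (Or.inr hE0.le)).tendsto
    rw [Real.zero_rpow hE0.ne'] at h1
    have h2 := (h1.mono_left (nhdsWithin_le_nhds (s := Set.Ioi 0))).const_mul A
    rwa [mul_zero] at h2
  have := ge_of_tendsto hlim hle
  linarith


end P645
end Pool.Agent.Helper900.UB
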