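import Pool.Agent.Helper900.UB.Defs

set_option autoImplicit false

namespace Pool.Agent.Helper900.UB
namespace P646

open MeasureTheory AddCircle Complex Filter Topology
open scoped ENNReal ComplexConjugate

lemma pow_HInf {f : T → ℂ} (hf : f ∈ HInf) (n : ℕ) : (fun t => f t ^ n) ∈ HInf := by
  induction n with
  | zero => simpa using const_HInf 1
  | succ n ih => simp_rw [pow_succ]; exact mul_HInf ih hf

lemma q_nonneg {f : T → ℂ} {q : ℝ} (hb : ∀ᵐ t ∂mu, ‖f t‖ ≤ q) : 0 ≤ q := by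
  obtain ⟨t, ht⟩ := hb.exists
  exact (norm_nonneg _).trans ht

/-- `HInf` is closed under uniform limits -/
lemma closed_HInf {f : T → ℂ} (hfm : AEStronglyMeasurable f mu) (F : ℕ → T → ℂ) (ε : ℕ → ℝ)
    (hF : ∀ n, F n ∈ HInf) (hε : Tendsto ε atTop (𝓝 0)) (h : ∀ n, ∀ᵐ t ∂mu, ‖f t - F n t‖ ≤ ε n) :
    f ∈ HInf := by
  have hsub : ∀ n, MemLp (fun t => f t - F n t) ∞ mu := fun n =>
    memLp_top_of_bound (hfm.sub (hF n).1.1) (ε n) (h n)
  have hf : MemLp f ∞ mu := by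
    have h1 := (hsub 0).add (hF 0).1
    refine (memLp_congr_ae ?_).1 h1
    exact Eventually.of_forall fun t => by simp
  refine ⟨hf, fun n hn => ?_⟩
  have hbd : ∀ k, ‖fourierCoeff f n‖ ≤ ε k := by
    intro k
    have h1 : fourierCoeff (fun t => f t - F k t) n = fourierCoeff f n - fourierCoeff (F k) n := by
      rw [fc_def, fc_def, fc_def, ← integral_sub]
      · congr 1; funext t; ring
      · exact memLp_integrable (bdd_mul (bdd_e _) hf)
      · exact memLp_integrable (bdd_mul (bdd_e _) (hF k).1)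
    rw [(hF k).2 n hn, sub_zero] at h1
    rw [← h1]
    exact norm_fc_le (h k) n
  have h0 : ‖fourierCoeff f n‖ ≤ 0 := ge_of_tendsto' hε hbd
  exact norm_le_zero_iff.1 h0

lemma one_add_ne {u : ℂ} {q : ℝ} (hq : q < 1) (hu : ‖u‖ ≤ q) : 1 + u ≠ 0 := by
  intro h
  have h1 : u = -1 := by linear_combination h
  rw [h1, norm_neg, norm_one] at hu
  linarith

lemma norm_inv_one_add {u : ℂ} {q : ℝ} (hq : q < 1) (hu : ‖u‖ ≤ q) : ‖(1 + u)⁻¹‖ ≤ (1 - q)⁻¹ := by
  rw [norm_inv]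
  apply inv_anti₀ (by linarith)
  have h1 : ‖(1 : ℂ)‖ - ‖-u‖ ≤ ‖(1 : ℂ) - -u‖ := norm_sub_norm_le _ _
  rw [norm_neg, norm_one, sub_neg_eq_add] at h1
  linarith

lemma geo_id (u : ℂ) (hu : 1 + u ≠ 0) (n : ℕ) :
    (1 + u)⁻¹ = (∑ k ∈ Finset.range n, (-u) ^ k) + (-u) ^ n * (1 + u)⁻¹ := by
  have h1 := geom_sum_mul (-u) n
  have h2 : (∑ k ∈ Finset.range n, (-u) ^ k) * (1 + u) = 1 - (-u) ^ n := by
    linear_combination -h1
  field_simp
  linear_combination (-1 : ℂ) * h2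

theorem inv_HInf {w : T → ℂ} (hw : w ∈ HInf) {q : ℝ} (hq : q < 1)
    (hb : ∀ᵐ t ∂mu, ‖w t‖ ≤ q) : (fun t => (1 + w t)⁻¹) ∈ HInf := by
  have hq0 := q_nonneg hb
  refine closed_HInf ?_ (fun n t => ∑ k ∈ Finset.range n, (-w t) ^ k) (fun n => q ^ n * (1 - q)⁻¹)
    ?_ ?_ ?_
  · have h1 : AEMeasurable w mu := hw.1.1.aemeasurable
    exact ((aemeasurable_const.add h1).inv).aestronglyMeasurable
  · intro n
    refine sum_HInf _ _ fun k _ => ?_
    refine pow_HInf ?_ k
    have := smul_HInf hw (-1)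
    simpa using this
  · have := (tendsto_pow_atTop_nhds_zero_of_lt_one hq0 hq).mul_const (1 - q)⁻¹
    simpa using this
  · intro n
    filter_upwards [hb] with t ht
    rw [geo_id (w t) (one_add_ne hq ht) n, add_sub_cancel_left, norm_mul, norm_pow, norm_neg]
    have h1 := norm_inv_one_add hq ht
    have h2 : ‖w t‖ ^ n ≤ q ^ n := pow_le_pow_left₀ (norm_nonneg _) ht n
    exact mul_le_mul h2 h1 (norm_nonneg _) (by positivity)

theorem mobius_mem {H f g D D' : T → ℂ}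
    (hH : H ∈ HInf) (hf : f ∈ HInf) (hg : g ∈ HInf) (hD : D ∈ HInf) (hD' : D' ∈ HInf)
    (hDD : ∀ᵐ t ∂mu, D t * D' t = 1) {q : ℝ} (hq : q < 1)
    (hgb : ∀ᵐ t ∂mu, ‖g t * D' t‖ ≤ q) (ζ : ℂ) (hζ : ‖ζ‖ = 1) :
    (fun t => (H t + ζ * f t) / (D t + conj ζ * g t)) ∈ HInf := by
  have hu : (fun t => conj ζ * (g t * D' t)) ∈ HInf := smul_HInf (mul_HInf hg hD') _
  have hub : ∀ᵐ t ∂mu, ‖conj ζ * (g t * D' t)‖ ≤ q := by
    filter_upwards [hgb] with t ht
    rw [norm_mul, RCLike.norm_conj, hζ, one_mul]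
    exact ht
  have h1 := mul_HInf (mul_HInf (add_HInf hH (smul_HInf hf ζ)) hD') (inv_HInf hu hq hub)
  refine congr_HInf h1 ?_
  filter_upwards [hDD, hub] with t ht hut
  have h2 : D t ≠ 0 := left_ne_zero_of_mul_eq_one ht
  have h3 : D t + conj ζ * g t = D t * (1 + conj ζ * (g t * D' t)) := by
    linear_combination (-conj ζ * g t) * ht
  have h4 := one_add_ne hq hut
  have h5 : D' t = (D t)⁻¹ := eq_inv_of_mul_eq_one_right ht
  rw [h3, div_eq_mul_inv, mul_inv, ← h5]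
  ring

/-- averaging over the roots of unity -/
lemma avg_scalar (N : ℕ) (hN : 0 < N) (b : ℕ → ℂ) (G : ℂ → ℂ) (M ε : ℝ)
    (hG : ∀ ζ : ℂ, ζ ^ N = 1 → ‖G ζ‖ ≤ M)
    (hE : ∀ ζ : ℂ, ζ ^ N = 1 → ‖G ζ - ∑ k ∈ Finset.range N, ζ ^ k * b k‖ ≤ ε) :
    ‖b 0‖ ≤ M + ε := by
  obtain ⟨ω, hω⟩ : ∃ ω : ℂ, IsPrimitiveRoot ω N :=
    ⟨_, Complex.isPrimitiveRoot_exp N hN.ne'⟩
  have hN' : (0 : ℝ) < N := by exact_mod_cast hN
  have hωN : ∀ i, (ω ^ i) ^ N = 1 := by
    intro i; rw [← pow_mul, mul_comm, pow_mul, hω.pow_eq_one, one_pow]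
  have h1 : ∑ i ∈ Finset.range N, ∑ k ∈ Finset.range N, (ω ^ i) ^ k * b k = N * b 0 := by
    rw [Finset.sum_comm]
    have h2 : ∀ k ∈ Finset.range N, ∑ i ∈ Finset.range N, (ω ^ i) ^ k * b k =
        if k = 0 then N * b 0 else 0 := by
      intro k hk
      have hk' : k < N := by simpa using hk
      by_cases hk0 : k = 0
      · subst hk0; simp
      · rw [if_neg hk0, ← Finset.sum_mul]
        have h3 : ∑ i ∈ Finset.range N, (ω ^ i) ^ k = ∑ i ∈ Finset.range N, (ω ^ k) ^ i :=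
          Finset.sum_congr rfl fun i _ => by rw [← pow_mul, ← pow_mul, mul_comm]
        have h4 : ω ^ k ≠ 1 := hω.pow_ne_one_of_pos_of_lt hk0 hk'
        have h5 := geom_sum_mul (ω ^ k) N
        rw [hωN k, sub_self] at h5
        have h6 := (mul_eq_zero.1 h5).resolve_right (sub_ne_zero.2 h4)
        rw [h3, h6, zero_mul]
    rw [Finset.sum_congr rfl h2, Finset.sum_ite_eq' (Finset.range N) 0]
    simp [hN]
  have h2 : ‖(N : ℂ) * b 0‖ ≤ N * (M + ε) := by
    rw [← h1]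
    calc ‖∑ i ∈ Finset.range N, ∑ k ∈ Finset.range N, (ω ^ i) ^ k * b k‖
        ≤ ∑ i ∈ Finset.range N, ‖∑ k ∈ Finset.range N, (ω ^ i) ^ k * b k‖ := norm_sum_le _ _
      _ ≤ ∑ _i ∈ Finset.range N, (M + ε) := by
          refine Finset.sum_le_sum fun i _ => ?_
          have h3 := hG _ (hωN i)
          have h4 := hE _ (hωN i)
          have h5 : ∑ k ∈ Finset.range N, (ω ^ i) ^ k * b k =
              G (ω ^ i) - (G (ω ^ i) - ∑ k ∈ Finset.range N, (ω ^ i) ^ k * b k) := by ring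
          rw [h5]
          exact (norm_sub_le _ _).trans (add_le_add h3 h4)
      _ = N * (M + ε) := by rw [Finset.sum_const, Finset.card_range, nsmul_eq_mul]
  rw [norm_mul, Complex.norm_natCast] at h2
  exact le_of_mul_le_mul_left h2 hN'

lemma L_sub {L : (T → ℂ) → ℂ} {K : ℝ} (hL : IsFunc L K) {f g : T → ℂ} (hf : f ∈ HInf)
    (hg : g ∈ HInf) {M : ℝ} (h : ∀ᵐ t ∂mu, ‖f t - g t‖ ≤ M) : ‖L f - L g‖ ≤ K * M := by
  have h1 := hL.2.1 g hg (-1)
  have h2 := hL.1 f hf _ (smul_HInf hg (-1))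
  have h3 : L f - L g = L (fun t => f t + -1 * g t) := by rw [h2, h1]; ring
  rw [h3]
  refine hL.2.2 _ (add_HInf hf (smul_HInf hg (-1))) M ?_
  filter_upwards [h] with t ht
  have : f t + -1 * g t = f t - g t := by ring
  rw [this]; exact ht

lemma L_congr {L : (T → ℂ) → ℂ} {K : ℝ} (hL : IsFunc L K) {f g : T → ℂ} (hf : f ∈ HInf)
    (hg : g ∈ HInf) (h : ∀ᵐ t ∂mu, f t = g t) : L f = L g := by
  have h1 := L_sub hL hf hg (M := 0) (by
    filter_upwards [h] with t ht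
    rw [ht]; simp)
  rw [mul_zero] at h1
  exact sub_eq_zero.1 (norm_le_zero_iff.1 h1)

lemma L_zero {L : (T → ℂ) → ℂ} {K : ℝ} (hL : IsFunc L K) : L (fun _ => 0) = 0 := by
  have h1 := hL.2.1 _ (const_HInf 0) 0
  simpa using h1

lemma L_sum {L : (T → ℂ) → ℂ} {K : ℝ} (hL : IsFunc L K) {ι : Type*} (s : Finset ι)
    (f : ι → T → ℂ) (hf : ∀ i ∈ s, f i ∈ HInf) :
    L (fun t => ∑ i ∈ s, f i t) = ∑ i ∈ s, L (f i) := by
  classical
  induction s using Finset.induction_on with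
  | empty => simpa using L_zero hL
  | insert a s ha ih =>
    simp_rw [Finset.sum_insert ha]
    rw [hL.1 _ (hf a (Finset.mem_insert_self _ _)) _
      (sum_HInf s f fun i hi => hf i (Finset.mem_insert_of_mem hi)),
      ih fun i hi => hf i (Finset.mem_insert_of_mem hi)]

lemma norm_one_of_pow {ζ : ℂ} {N : ℕ} (hN : 0 < N) (h : ζ ^ N = 1) : ‖ζ‖ = 1 := by
  have h1 := congrArg norm h
  rw [norm_pow, norm_one] at h1
  exact (pow_eq_one_iff_of_nonneg (norm_nonneg _) hN.ne').1 h1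

theorem avg_mobius {L : (T → ℂ) → ℂ} {K : ℝ} (hL : IsFunc L K) {H f g D D' : T → ℂ}
    (hH : H ∈ HInf) (hf : f ∈ HInf) (hg : g ∈ HInf) (hD : D ∈ HInf) (hD' : D' ∈ HInf)
    (hDD : ∀ᵐ t ∂mu, D t * D' t = 1) {q : ℝ} (hq : q < 1)
    (hgb : ∀ᵐ t ∂mu, ‖g t * D' t‖ ≤ q) {M : ℝ}
    (hM : ∀ ζ : ℂ, ‖ζ‖ = 1 → ‖L (fun t => (H t + ζ * f t) / (D t + conj ζ * g t))‖ ≤ M) :
    ‖L (fun t => f t * D' t)‖ ≤ M := by
  have hq0 := q_nonneg hgb
  obtain ⟨C1, hC1, hb1⟩ := exists_bound (mul_HInf hf hD').1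
  obtain ⟨C2, hC2, hb2⟩ := exists_bound (mul_HInf hH hD').1
  have hu := mul_HInf hg hD'
  have hfu : ∀ j : ℕ, (fun t => f t * D' t * (g t * D' t) ^ j) ∈ HInf := fun j =>
    mul_HInf (mul_HInf hf hD') (pow_HInf hu j)
  have hHu : ∀ j : ℕ, (fun t => H t * D' t * (g t * D' t) ^ j) ∈ HInf := fun j =>
    mul_HInf (mul_HInf hH hD') (pow_HInf hu j)
  have key : ∀ n : ℕ, ‖L (fun t => f t * D' t)‖ ≤
      M + K * ((C1 * q + C2) * (q ^ n * (1 - q)⁻¹)) := by
    intro n
    let b : ℕ → ℂ := fun k => (-1) ^ k * L (fun t => f t * D' t * (g t * D' t) ^ k) +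
      (if k = 0 then 0 else (-1) ^ (k - 1) * L (fun t => H t * D' t * (g t * D' t) ^ (k - 1)))
    have hb0 : b 0 = L (fun t => f t * D' t) := by simp [b]
    rw [← hb0]
    refine avg_scalar (n + 1) (Nat.succ_pos n) b
      (fun η => η * L (fun t => (H t + conj η * f t) / (D t + conj (conj η) * g t))) M _ ?_ ?_
    · intro η hη
      have h1 := norm_one_of_pow (Nat.succ_pos n) hη
      rw [norm_mul, h1, one_mul]
      exact hM _ (by rw [RCLike.norm_conj, h1])
    · intro η hη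
      have h1 := norm_one_of_pow (Nat.succ_pos n) hη
      have hcc : η * conj η = 1 := by
        rw [Complex.mul_conj, Complex.normSq_eq_norm_sq, h1]; simp
      -- the truncated expansion
      let P : T → ℂ := fun t =>
        (∑ j ∈ Finset.range (n + 1), (conj η * (-η) ^ j) * (f t * D' t * (g t * D' t) ^ j)) +
        ∑ j ∈ Finset.range n, (-η) ^ j * (H t * D' t * (g t * D' t) ^ j)
      have hP1 : (fun t => ∑ j ∈ Finset.range (n + 1),
          (conj η * (-η) ^ j) * (f t * D' t * (g t * D' t) ^ j)) ∈ HInf :=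
        sum_HInf _ _ fun j _ => smul_HInf (hfu j) _
      have hP2 : (fun t => ∑ j ∈ Finset.range n, (-η) ^ j * (H t * D' t * (g t * D' t) ^ j)) ∈ HInf :=
        sum_HInf _ _ fun j _ => smul_HInf (hHu j) _
      have hP : P ∈ HInf := add_HInf hP1 hP2
      have hLP : η * L P = ∑ k ∈ Finset.range (n + 1), η ^ k * b k := by
        have e1 : L P = (∑ j ∈ Finset.range (n + 1),
            (conj η * (-η) ^ j) * L (fun t => f t * D' t * (g t * D' t) ^ j)) +
            ∑ j ∈ Finset.range n, (-η) ^ j * L (fun t => H t * D' t * (g t * D' t) ^ j) := by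
          rw [show L P = L (fun t => (∑ j ∈ Finset.range (n + 1),
            (conj η * (-η) ^ j) * (f t * D' t * (g t * D' t) ^ j)) +
            ∑ j ∈ Finset.range n, (-η) ^ j * (H t * D' t * (g t * D' t) ^ j)) from rfl,
            hL.1 _ hP1 _ hP2, L_sum hL _ _ (fun j _ => smul_HInf (hfu j) _),
            L_sum hL _ _ (fun j _ => smul_HInf (hHu j) _)]
          congr 1
          · exact Finset.sum_congr rfl fun j _ => hL.2.1 _ (hfu j) _
          · exact Finset.sum_congr rfl fun j _ => hL.2.1 _ (hHu j) _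
        rw [e1, mul_add, Finset.mul_sum, Finset.mul_sum]
        have e2 : ∑ k ∈ Finset.range (n + 1), η ^ k * b k =
            (∑ k ∈ Finset.range (n + 1), η ^ k * ((-1) ^ k * L (fun t => f t * D' t * (g t * D' t) ^ k))) +
            ∑ k ∈ Finset.range (n + 1), η ^ k * (if k = 0 then 0 else (-1) ^ (k - 1) *
              L (fun t => H t * D' t * (g t * D' t) ^ (k - 1))) := by
          rw [← Finset.sum_add_distrib]
          exact Finset.sum_congr rfl fun k _ => by simp only [b]; ring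
        rw [e2]
        congr 1
        · refine Finset.sum_congr rfl fun j _ => ?_
          have e3 : (-η) ^ j = η ^ j * (-1) ^ j := by rw [← mul_pow]; ring
          rw [e3]
          linear_combination (η ^ j * (-1) ^ j * L (fun t => f t * D' t * (g t * D' t) ^ j)) * hcc
        · rw [Finset.sum_range_succ']
          simp only [Nat.add_eq_zero_iff, one_ne_zero, and_false, if_false, if_true, mul_zero,
            add_zero, Nat.add_sub_cancel]
          refine Finset.sum_congr rfl fun j _ => ?_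
          have e3 : (-η) ^ j = η ^ j * (-1) ^ j := by rw [← mul_pow]; ring
          rw [e3]; ring
      rw [← hLP, ← mul_sub, norm_mul, h1, one_mul]
      refine L_sub hL (mobius_mem hH hf hg hD hD' hDD hq hgb _ (by rw [RCLike.norm_conj, h1])) hP ?_
      filter_upwards [hDD, hgb, hb1, hb2] with t ht hut h1t h2t
      rw [Complex.conj_conj]
      have hu1 : ‖η * (g t * D' t)‖ ≤ q := by rw [norm_mul, h1, one_mul]; exact hut
      have h3 : D t + η * g t = D t * (1 + η * (g t * D' t)) := by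
        linear_combination (-η * g t) * ht
      have h5 : D' t = (D t)⁻¹ := eq_inv_of_mul_eq_one_right ht
      have hne := one_add_ne hq hu1
      have e4 : (H t + conj η * f t) / (D t + η * g t) =
          conj η * (f t * D' t) * (1 + η * (g t * D' t))⁻¹ +
          (H t * D' t) * (1 + η * (g t * D' t))⁻¹ := by
        rw [h3, div_eq_mul_inv, mul_inv, ← h5]; ring
      have e5 := geo_id (η * (g t * D' t)) hne (n + 1)
      have e6 := geo_id (η * (g t * D' t)) hne n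
      have e7 : (H t + conj η * f t) / (D t + η * g t) - P t =
          (conj η * (f t * D' t)) * ((-(η * (g t * D' t))) ^ (n + 1) * (1 + η * (g t * D' t))⁻¹) +
          (H t * D' t) * ((-(η * (g t * D' t))) ^ n * (1 + η * (g t * D' t))⁻¹) := by
        rw [e4]
        have e8 : P t = (conj η * (f t * D' t)) * (∑ k ∈ Finset.range (n + 1), (-(η * (g t * D' t))) ^ k) +
            (H t * D' t) * (∑ k ∈ Finset.range n, (-(η * (g t * D' t))) ^ k) := by
          simp only [P]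
          rw [Finset.mul_sum, Finset.mul_sum]
          congr 1
          · refine Finset.sum_congr rfl fun j _ => ?_
            rw [show -(η * (g t * D' t)) = (-η) * (g t * D' t) by ring, mul_pow]; ring
          · refine Finset.sum_congr rfl fun j _ => ?_
            rw [show -(η * (g t * D' t)) = (-η) * (g t * D' t) by ring, mul_pow]; ring
        rw [e8]
        linear_combination (conj η * (f t * D' t)) * e5 + (H t * D' t) * e6
      rw [e7]
      have hinv := norm_inv_one_add hq hu1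
      have hpn : ∀ m : ℕ, ‖(-(η * (g t * D' t))) ^ m * (1 + η * (g t * D' t))⁻¹‖ ≤
          q ^ m * (1 - q)⁻¹ := by
        intro m
        rw [norm_mul, norm_pow, norm_neg]
        exact mul_le_mul (pow_le_pow_left₀ (norm_nonneg _) hu1 m) hinv (norm_nonneg _) (by positivity)
      calc _ ≤ ‖(conj η * (f t * D' t)) * ((-(η * (g t * D' t))) ^ (n + 1) * (1 + η * (g t * D' t))⁻¹)‖ +
          ‖(H t * D' t) * ((-(η * (g t * D' t))) ^ n * (1 + η * (g t * D' t))⁻¹)‖ := norm_add_le _ _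
        _ ≤ C1 * (q ^ (n + 1) * (1 - q)⁻¹) + C2 * (q ^ n * (1 - q)⁻¹) := by
            refine add_le_add ?_ ?_
            · rw [norm_mul, norm_mul, RCLike.norm_conj, h1, one_mul]
              exact mul_le_mul h1t (hpn _) (norm_nonneg _) hC1
            · rw [norm_mul]
              exact mul_le_mul h2t (hpn _) (norm_nonneg _) hC2
        _ = (C1 * q + C2) * (q ^ n * (1 - q)⁻¹) := by rw [pow_succ]; ring
  have htend : Tendsto (fun n : ℕ => M + K * ((C1 * q + C2) * (q ^ n * (1 - q)⁻¹))) atTop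
      (𝓝 (M + K * ((C1 * q + C2) * (0 * (1 - q)⁻¹)))) :=
    ((((tendsto_pow_atTop_nhds_zero_of_lt_one hq0 hq).mul_const _).const_mul _).const_mul _).const_add _
  have := ge_of_tendsto' htend key
  simpa using this

lemma frost_bound {w : T → ℂ} (hw1 : ∀ᵐ t ∂mu, ‖w t‖ ≤ 1) {a : ℝ} (ha0 : 0 < a) {ζ : ℂ}
    (hζ : ‖ζ‖ = 1) : ∀ᵐ t ∂mu, ‖(a : ℂ) * ζ * w t‖ ≤ a := by
  filter_upwards [hw1] with t ht
  rw [norm_mul, norm_mul, hζ, mul_one, Complex.norm_real, Real.norm_of_nonneg ha0.le]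
  nlinarith

theorem frostman_mem {w : T → ℂ} (hw : w ∈ HInf)
    (hw1 : ∀ᵐ t ∂mu, ‖w t‖ ≤ 1) {a : ℝ} (ha0 : 0 < a) (ha1 : a < 1) (ζ : ℂ) (hζ : ‖ζ‖ = 1) :
    (fun t => (a + ζ * w t) / (1 + a * ζ * w t)) ∈ HInf := by
  have h1 := inv_HInf (smul_HInf hw ((a : ℂ) * ζ)) ha1 (frost_bound hw1 ha0 hζ)
  have h2 := mul_HInf (add_HInf (const_HInf (a : ℂ)) (smul_HInf hw ζ)) h1
  refine congr_HInf h2 (Eventually.of_forall fun t => ?_)
  simp only [div_eq_mul_inv]

theorem avg_frostman {L : (T → ℂ) → ℂ} {K : ℝ} (hL : IsFunc L K) {w : T → ℂ} (hw : w ∈ HInf)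
    (hw1 : ∀ᵐ t ∂mu, ‖w t‖ ≤ 1) {a : ℝ} (ha0 : 0 < a) (ha1 : a < 1) {M : ℝ}
    (hM : ∀ ζ : ℂ, ‖ζ‖ = 1 → ‖L (fun t => (a + ζ * w t) / (1 + a * ζ * w t))‖ ≤ M) :
    (1 - a ^ 2) * ‖L w‖ ≤ M := by
  have key : ∀ n : ℕ, (1 - a ^ 2) * ‖L w‖ ≤
      M + K * ((1 - a ^ 2) * (a ^ (n + 1) * (1 - a)⁻¹)) := by
    intro m
    set n := m + 1 with hn
    let b : ℕ → ℂ := fun k => if k = n then (a : ℂ) * L (fun _ => 1) else
      ((1 - a ^ 2 : ℝ) : ℂ) * (-(a : ℂ)) ^ k * L (fun t => w t ^ (k + 1))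
    have hb0 : ‖b 0‖ = (1 - a ^ 2) * ‖L w‖ := by
      have : (0 : ℕ) ≠ n := by omega
      simp only [b, if_neg this, pow_zero, mul_one, zero_add, pow_one, norm_mul, Complex.norm_real]
      rw [Real.norm_of_nonneg (by nlinarith)]
    rw [← hb0]
    refine avg_scalar (n + 1) (Nat.succ_pos n) b
      (fun ζ => ζ ^ n * L (fun t => (a + ζ * w t) / (1 + a * ζ * w t))) M _ ?_ ?_
    · intro ζ hζ
      have h1 := norm_one_of_pow (Nat.succ_pos n) hζ
      rw [norm_mul, norm_pow, h1, one_pow, one_mul]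
      exact hM _ h1
    · intro ζ hζ
      have h1 := norm_one_of_pow (Nat.succ_pos n) hζ
      let P : T → ℂ := fun t => (a : ℂ) * 1 +
        ∑ k ∈ Finset.range n, (((1 - a ^ 2 : ℝ) : ℂ) * (-(a : ℂ)) ^ k * ζ ^ (k + 1)) * w t ^ (k + 1)
      have hP1 : (fun _ : T => (a : ℂ) * 1) ∈ HInf := const_HInf _
      have hP2 : (fun t => ∑ k ∈ Finset.range n,
          (((1 - a ^ 2 : ℝ) : ℂ) * (-(a : ℂ)) ^ k * ζ ^ (k + 1)) * w t ^ (k + 1)) ∈ HInf :=
        sum_HInf _ _ fun j _ => smul_HInf (pow_HInf hw _) _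
      have hP : P ∈ HInf := add_HInf hP1 hP2
      have hLP : ζ ^ n * L P = ∑ k ∈ Finset.range (n + 1), ζ ^ k * b k := by
        have e1 : L P = (a : ℂ) * L (fun _ => 1) + ∑ k ∈ Finset.range n,
            (((1 - a ^ 2 : ℝ) : ℂ) * (-(a : ℂ)) ^ k * ζ ^ (k + 1)) * L (fun t => w t ^ (k + 1)) := by
          rw [show L P = L (fun t => (a : ℂ) * 1 + ∑ k ∈ Finset.range n,
            (((1 - a ^ 2 : ℝ) : ℂ) * (-(a : ℂ)) ^ k * ζ ^ (k + 1)) * w t ^ (k + 1)) from rfl,
            hL.1 _ hP1 _ hP2, L_sum hL _ _ (fun j _ => smul_HInf (pow_HInf hw _) _)]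
          congr 1
          · exact hL.2.1 _ (const_HInf 1) _
          · exact Finset.sum_congr rfl fun j _ => hL.2.1 _ (pow_HInf hw _) _
        rw [e1, Finset.sum_range_succ (fun k => ζ ^ k * b k) n, mul_add, add_comm, Finset.mul_sum]
        congr 1
        · refine Finset.sum_congr rfl fun k hk => ?_
          have hk' : k < n := by simpa using hk
          simp only [b, if_neg hk'.ne]
          have e2 : ζ ^ n * ζ ^ (k + 1) = ζ ^ k := by
            rw [← pow_add, show n + (k + 1) = (n + 1) + k by ring, pow_add, hζ, one_mul]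
          linear_combination (((1 - a ^ 2 : ℝ) : ℂ) * (-(a : ℂ)) ^ k * L (fun t => w t ^ (k + 1))) * e2
        · simp only [b, if_true]
      rw [← hLP, ← mul_sub, norm_mul, norm_pow, h1, one_pow, one_mul]
      refine L_sub hL (frostman_mem hw hw1 ha0 ha1 ζ h1) hP ?_
      filter_upwards [hw1, frost_bound hw1 ha0 h1] with t ht hut
      have hne := one_add_ne ha1 hut
      have e6 := geo_id ((a : ℂ) * ζ * w t) hne n
      have e5 : ((a : ℂ) + ζ * w t) / (1 + a * ζ * w t) =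
          (a : ℂ) + ((1 - a ^ 2 : ℝ) : ℂ) * (ζ * w t) * (1 + a * ζ * w t)⁻¹ := by
        push_cast
        field_simp
        ring
      have e7 : ((a : ℂ) + ζ * w t) / (1 + a * ζ * w t) - P t =
          ((1 - a ^ 2 : ℝ) : ℂ) * (ζ * w t) * ((-((a : ℂ) * ζ * w t)) ^ n * (1 + a * ζ * w t)⁻¹) := by
        rw [e5]
        have e8 : P t = (a : ℂ) + ((1 - a ^ 2 : ℝ) : ℂ) * (ζ * w t) *
            ∑ k ∈ Finset.range n, (-((a : ℂ) * ζ * w t)) ^ k := by
          simp only [P]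
          rw [Finset.mul_sum, mul_one]
          congr 1
          refine Finset.sum_congr rfl fun j _ => ?_
          rw [show -((a : ℂ) * ζ * w t) = (-(a : ℂ)) * (ζ * w t) by ring, mul_pow, mul_pow, pow_succ,
            pow_succ]
          ring
        rw [e8]
        linear_combination (((1 - a ^ 2 : ℝ) : ℂ) * (ζ * w t)) * e6
      rw [e7, norm_mul, norm_mul, norm_mul, Complex.norm_real, norm_mul, norm_pow, norm_neg, h1,
        Real.norm_of_nonneg (by nlinarith : 0 ≤ 1 - a ^ 2), one_mul]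
      have hinv := norm_inv_one_add ha1 hut
      have h4 : ‖(a : ℂ) * ζ * w t‖ ^ n ≤ a ^ n := pow_le_pow_left₀ (norm_nonneg _) hut n
      have h5 : 0 ≤ 1 - a ^ 2 := by nlinarith
      have h6 : ‖(a : ℂ) * ζ * w t‖ ^ n * ‖(1 + (a : ℂ) * ζ * w t)⁻¹‖ ≤ a ^ n * (1 - a)⁻¹ :=
        mul_le_mul h4 hinv (norm_nonneg _) (by positivity)
      have h7 : 0 ≤ a ^ n * (1 - a)⁻¹ := by
        have : 0 < 1 - a := by linarith
        positivity
      calc (1 - a ^ 2) * ‖w t‖ * (‖(a : ℂ) * ζ * w t‖ ^ n * ‖(1 + (a : ℂ) * ζ * w t)⁻¹‖)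
          ≤ (1 - a ^ 2) * 1 * (a ^ n * (1 - a)⁻¹) := by
            refine mul_le_mul (mul_le_mul_of_nonneg_left ht h5) h6 (by positivity) (by linarith)
        _ = (1 - a ^ 2) * (a ^ (m + 1) * (1 - a)⁻¹) := by rw [mul_one, hn]
  have htend : Tendsto (fun n : ℕ => M + K * ((1 - a ^ 2) * (a ^ (n + 1) * (1 - a)⁻¹))) atTop
      (𝓝 (M + K * ((1 - a ^ 2) * (0 * (1 - a)⁻¹)))) :=
    (((((tendsto_pow_atTop_nhds_zero_of_lt_one ha0.le ha1).comp (tendsto_add_atTop_nat 1)).mul_const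
      _).const_mul _).const_mul _).const_add _
  have := ge_of_tendsto' htend key
  simpa using this


end P646
end Pool.Agent.Helper900.UB
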