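import Pool.Agent.Helper900.UB.Defs

set_option autoImplicit false

namespace Pool.Agent.Helper900.UB
namespace P647

open MeasureTheory AddCircle Complex Filter Topology
open scoped ENNReal ComplexConjugate

lemma norm_pprod {φ : ℕ → T → ℂ} (hφ : ∀ j, IsInner (φ j)) (n : ℕ) :
    IsInner (fun t => ∏ i ∈ Finset.range n, φ i t) := by
  induction n with
  | zero =>
    refine ⟨by simpa using const_HInf 1, ?_⟩
    filter_upwards with t
    simp
  | succ n ih =>
    have h1 : (fun t => ∏ i ∈ Finset.range (n + 1), φ i t) =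
        fun t => (∏ i ∈ Finset.range n, φ i t) * φ n t := by
      funext t
      rw [Finset.prod_range_succ]
    rw [h1]
    refine ⟨mul_HInf ih.1 (hφ n).1, ?_⟩
    filter_upwards [ih.2, (hφ n).2] with t h2 h3
    rw [norm_mul, h2, h3, mul_one]

/-- Limits of inner functions in the mean of order two. -/
lemma lim_inner {P : ℕ → T → ℂ} (hP : ∀ n, IsInner (P n))
    (hd : ∀ n, ∫ t, ‖P (n + 1) t - P n t‖ ^ 2 ∂mu ≤ ((1 / 2 : ℝ) ^ n) ^ 2) :
    ∃ B : T → ℂ, IsInner B ∧ Tendsto (fun n => ∫ t, ‖P n t - B t‖ ^ 2 ∂mu) atTop (𝓝 0) := by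
  have hm : ∀ n, MemLp (P n) 2 mu := fun n => memLp2 (hP n).1.1
  set u : ℕ → Lp ℂ 2 mu := fun n => (hm n).toLp (P n) with hu
  have hcau : CauchySeq u := by
    apply cauchySeq_of_le_geometric (1 / 2) 1 (by norm_num)
    intro n
    rw [one_mul]
    have h1 : dist (u n) (u (n + 1)) ^ 2 = ∫ t, ‖P (n + 1) t - P n t‖ ^ 2 ∂mu := by
      rw [dist_comm, dist_eq_norm, hu]
      simp only
      rw [← MemLp.toLp_sub, norm_toLp_sq]
      rfl
    have h2 := hd n
    rw [← h1] at h2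
    exact le_of_sq_le_sq h2 (by positivity)
  obtain ⟨B0, hB0⟩ := cauchySeq_tendsto_of_complete hcau
  set B : T → ℂ := (B0 : T → ℂ) with hB
  have hBm : MemLp B 2 mu := Lp.memLp B0
  have hBeq : hBm.toLp B = B0 := Lp.toLp_coeFn B0 hBm
  have hdist : ∀ n, dist (u n) B0 ^ 2 = ∫ t, ‖P n t - B t‖ ^ 2 ∂mu := by
    intro n
    rw [dist_eq_norm, ← hBeq, hu]
    simp only
    rw [← MemLp.toLp_sub, norm_toLp_sq]
    rfl
  -- `L¹` convergence
  have hL1 : ∀ δ : ℝ, 0 < δ → ∀ᶠ n : ℕ in atTop, ∫ t, ‖P n t - B t‖ ∂mu ≤ δ := by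
    intro δ hδ
    filter_upwards [Metric.tendsto_nhds.1 hB0 δ hδ] with F hF
    have hsub : MemLp (fun t => P F t - B t) 2 mu := (hm F).sub hBm
    refine L1_le_of_L2 hsub hδ ?_
    rw [← hdist]
    exact pow_le_pow_left₀ dist_nonneg hF.le 2
  have hBint : Integrable B mu := hBm.integrable (by norm_num)
  have hbint : ∀ n, Integrable (P n) mu := fun n => memLp_integrable (hP n).1.1
  -- modulus one
  have hB1 : ∀ᵐ t ∂mu, ‖B t‖ = 1 := by
    have hi : Integrable (fun t => |1 - ‖B t‖|) mu :=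
      ((integrable_const (1 : ℝ)).sub hBint.norm).abs
    have h0 : ∫ t, |1 - ‖B t‖| ∂mu = 0 := by
      apply le_antisymm _ (integral_nonneg fun t => abs_nonneg _)
      refine le_of_forall_pos_le_add fun δ hδ => ?_
      rw [zero_add]
      obtain ⟨F, hF⟩ := (hL1 δ hδ).exists
      refine le_trans ?_ hF
      have hd : Integrable (fun t => P F t - B t) mu := (hbint F).sub hBint
      apply integral_mono_ae hi hd.norm
      filter_upwards [(hP F).2] with t ht
      rw [← ht]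
      exact abs_norm_sub_norm_le _ _
    rw [integral_eq_zero_iff_of_nonneg (fun t => abs_nonneg _) hi] at h0
    filter_upwards [h0] with t ht
    have h1 : 1 - ‖B t‖ = 0 := abs_eq_zero.1 ht
    linarith
  have hBtop : MemLp B ∞ mu := memLp_top_of_bound hBm.1 1 (by
    filter_upwards [hB1] with t ht; rw [ht])
  -- weak convergence
  have hint : ∀ g : T → ℂ, MemLp g ∞ mu →
      Tendsto (fun n => ∫ t, P n t * g t ∂mu) atTop (𝓝 (∫ t, B t * g t ∂mu)) := by
    intro g hg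
    obtain ⟨D, hD0, hD⟩ := exists_bound hg
    rw [Metric.tendsto_nhds]
    intro ε hε
    filter_upwards [hL1 (ε / (2 * (D + 1))) (by positivity)] with F hF
    rw [dist_eq_norm]
    have i1 := memLp_integrable (bdd_mul (hP F).1.1 hg)
    have i2 := memLp_integrable (bdd_mul hBtop hg)
    have i3 : Integrable (fun t => D * ‖P F t - B t‖) mu :=
      (((hbint F).sub hBint).norm).const_mul D
    rw [← integral_sub i1 i2]
    calc ‖∫ t, (P F t * g t - B t * g t) ∂mu‖ ≤ ∫ t, D * ‖P F t - B t‖ ∂mu := by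
          apply norm_integral_le_of_norm_le i3
          filter_upwards [hD] with t ht
          rw [← sub_mul, norm_mul, mul_comm]
          exact mul_le_mul_of_nonneg_right ht (norm_nonneg _)
      _ = D * ∫ t, ‖P F t - B t‖ ∂mu := integral_const_mul _ _
      _ ≤ D * (ε / (2 * (D + 1))) := mul_le_mul_of_nonneg_left hF hD0
      _ < ε := by
        rw [mul_div_assoc', div_lt_iff₀ (by positivity)]
        nlinarith
  have hBH : B ∈ HInf := by
    refine (mem_HInf_iff hBtop).2 fun n hn => ?_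
    have h1 := hint (e n) (bdd_e n)
    have h2 : ∀ F : ℕ, ∫ t, P F t * e n t ∂mu = 0 := fun F =>
      (mem_HInf_iff (hP F).1.1).1 (hP F).1 n hn
    simp_rw [h2] at h1
    exact (tendsto_nhds_unique tendsto_const_nhds h1).symm
  refine ⟨B, ⟨hBH, hB1⟩, ?_⟩
  have h3 : Tendsto (fun n => dist (u n) B0 ^ 2) atTop (𝓝 0) := by
    have := (tendsto_iff_dist_tendsto_zero.1 hB0).pow 2
    simpa using this
  exact h3.congr hdist

lemma pprod_step {φ : ℕ → T → ℂ} (hφ : ∀ j, IsInner (φ j))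
    (hs : ∀ j, ∫ t, ‖φ j t - 1‖ ^ 2 ∂mu ≤ ((1 / 2 : ℝ) ^ j) ^ 2) (n : ℕ) :
    ∫ t, ‖(∏ i ∈ Finset.range (n + 1), φ i t) - ∏ i ∈ Finset.range n, φ i t‖ ^ 2 ∂mu ≤
      ((1 / 2 : ℝ) ^ n) ^ 2 := by
  refine le_trans (le_of_eq ?_) (hs n)
  apply integral_congr_ae
  filter_upwards [(norm_pprod hφ n).2] with t ht
  rw [Finset.prod_range_succ]
  have h1 : (∏ i ∈ Finset.range n, φ i t) * φ n t - ∏ i ∈ Finset.range n, φ i t =
      (∏ i ∈ Finset.range n, φ i t) * (φ n t - 1) := by ring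
  rw [h1, norm_mul, ht, one_mul]


theorem inf_prod {φ : ℕ → T → ℂ} (hφ : ∀ j, IsInner (φ j))
    (hs : ∀ j, ∫ t, ‖φ j t - 1‖ ^ 2 ∂mu ≤ ((1 / 2 : ℝ) ^ j) ^ 2) :
    ∃ P : T → ℂ, IsInner P ∧ ∀ j, ∃ Q : T → ℂ, IsInner Q ∧ ∀ᵐ t ∂mu, P t = φ j t * Q t := by
  classical
  obtain ⟨P, hP, hPt⟩ := lim_inner (P := fun n t => ∏ i ∈ Finset.range n, φ i t)
    (norm_pprod hφ) (pprod_step hφ hs)
  refine ⟨P, hP, fun j => ?_⟩
  set ψ : ℕ → T → ℂ := fun i => if i = j then fun _ => 1 else φ i with hψ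
  have hψi : ∀ i, IsInner (ψ i) := by
    intro i
    by_cases h : i = j
    · simp only [hψ, h, if_true]
      exact ⟨const_HInf 1, by filter_upwards with t; simp⟩
    · simp only [hψ, h, if_false]
      exact hφ i
  have hψs : ∀ i, ∫ t, ‖ψ i t - 1‖ ^ 2 ∂mu ≤ ((1 / 2 : ℝ) ^ i) ^ 2 := by
    intro i
    by_cases h : i = j
    · simp only [hψ, h, if_true]
      simp
    · simp only [hψ, h, if_false]
      exact hs i
  obtain ⟨Q, hQ, hQt⟩ := lim_inner (P := fun n t => ∏ i ∈ Finset.range n, ψ i t)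
    (norm_pprod hψi) (pprod_step hψi hψs)
  refine ⟨Q, hQ, ?_⟩
  have hprod : ∀ n, j < n → ∀ t, ∏ i ∈ Finset.range n, φ i t =
      φ j t * ∏ i ∈ Finset.range n, ψ i t := by
    intro n hn t
    have hj : j ∈ Finset.range n := Finset.mem_range.2 hn
    rw [← Finset.mul_prod_erase _ _ hj, ← Finset.mul_prod_erase _ (fun i => ψ i t) hj]
    have h1 : ψ j t = 1 := by simp [hψ]
    rw [h1, one_mul]
    congr 1
    apply Finset.prod_congr rfl
    intro i hi
    have h2 : i ≠ j := (Finset.mem_erase.1 hi).1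
    simp [hψ, h2]
  have hm2 : ∀ {f g : T → ℂ}, IsInner f → IsInner g → Integrable (fun t => ‖f t - g t‖ ^ 2) mu := by
    intro f g hf hg
    exact ((memLp2 hf.1.1).sub (memLp2 hg.1.1)).integrable_norm_pow (by norm_num)
  have hφQ : IsInner (fun t => φ j t * Q t) := by
    refine ⟨mul_HInf (hφ j).1 hQ.1, ?_⟩
    filter_upwards [(hφ j).2, hQ.2] with t h2 h3
    rw [norm_mul, h2, h3, mul_one]
  have hbound : ∀ n, j < n → ∫ t, ‖P t - φ j t * Q t‖ ^ 2 ∂mu ≤
      2 * ∫ t, ‖(∏ i ∈ Finset.range n, φ i t) - P t‖ ^ 2 ∂mu +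
      2 * ∫ t, ‖(∏ i ∈ Finset.range n, ψ i t) - Q t‖ ^ 2 ∂mu := by
    intro n hn
    rw [← integral_const_mul, ← integral_const_mul, ← integral_add]
    · apply integral_mono_ae (hm2 hP hφQ)
      · exact ((hm2 (norm_pprod hφ n) hP).const_mul 2).add
          ((hm2 (norm_pprod hψi n) hQ).const_mul 2)
      · filter_upwards [(hφ j).2] with t ht
        have h1 : P t - φ j t * Q t = -((∏ i ∈ Finset.range n, φ i t) - P t) +
            φ j t * ((∏ i ∈ Finset.range n, ψ i t) - Q t) := by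
          rw [hprod n hn t]; ring
        have h2 : ‖P t - φ j t * Q t‖ ≤ ‖(∏ i ∈ Finset.range n, φ i t) - P t‖ +
            ‖(∏ i ∈ Finset.range n, ψ i t) - Q t‖ := by
          rw [h1]
          refine (norm_add_le _ _).trans ?_
          rw [norm_neg, norm_mul, ht, one_mul]
        have h3 := norm_nonneg (P t - φ j t * Q t)
        nlinarith [sq_nonneg (‖(∏ i ∈ Finset.range n, φ i t) - P t‖ -
          ‖(∏ i ∈ Finset.range n, ψ i t) - Q t‖)]
    · exact (hm2 (norm_pprod hφ n) hP).const_mul 2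
    · exact (hm2 (norm_pprod hψi n) hQ).const_mul 2
  have hlim : Tendsto (fun n => 2 * ∫ t, ‖(∏ i ∈ Finset.range n, φ i t) - P t‖ ^ 2 ∂mu +
      2 * ∫ t, ‖(∏ i ∈ Finset.range n, ψ i t) - Q t‖ ^ 2 ∂mu) atTop (𝓝 0) := by
    have := (hPt.const_mul 2).add (hQt.const_mul 2)
    simpa using this
  have hzero : ∫ t, ‖P t - φ j t * Q t‖ ^ 2 ∂mu = 0 := by
    apply le_antisymm _ (integral_nonneg fun t => by positivity)
    apply ge_of_tendsto hlim
    filter_upwards [eventually_gt_atTop j] with n hn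
    exact hbound n hn
  rw [integral_eq_zero_iff_of_nonneg (fun t => by positivity) (hm2 hP hφQ)] at hzero
  filter_upwards [hzero] with t ht
  have h1 : ‖P t - φ j t * Q t‖ ^ 2 = 0 := ht
  have h2 := pow_eq_zero_iff (two_ne_zero) |>.1 h1
  exact sub_eq_zero.1 (norm_eq_zero.1 h2)


end P647
end Pool.Agent.Helper900.UB
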