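import Pool.Agent.Helper900.UB.P641
import Pool.Agent.Helper900.UB.P642
import Pool.Agent.Helper900.UB.P643
import Pool.Agent.Helper900.UB.P644

set_option autoImplicit false

namespace Pool.Agent.Helper900.UB

open MeasureTheory AddCircle Complex Filter Topology
open scoped ENNReal ComplexConjugate

theorem exists_boundary {F : ℂ → ℂ} (hF : DifferentiableOn ℂ F (Metric.ball 0 1)) {M : ℝ}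
    (hM : ∀ z : ℂ, ‖z‖ < 1 → ‖F z‖ ≤ M) :
    ∃ f ∈ HInf, (∀ᵐ t ∂mu, ‖f t‖ ≤ M) ∧ ∀ z : ℂ, ‖z‖ < 1 → ext f z = F z :=
  P641.exists_boundary hF hM

theorem exists_herglotz {E : Set T} (hE : MeasurableSet E) :
    ∃ h ∈ H2, (∀ᵐ t ∂mu, (t ∈ E → (h t).re = 1) ∧ (t ∉ E → (h t).re = 0)) ∧
      ext h 0 = ((mu.real E : ℝ) : ℂ) ∧
      ∀ z : ℂ, ‖z‖ < 1 → 0 ≤ (ext h z).re ∧ (ext h z).re ≤ 1 :=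
  P642.exists_herglotz hE

theorem comp_strip {h : T → ℂ} (hh : h ∈ H2) (hb : ∀ᵐ t ∂mu, 0 ≤ (h t).re ∧ (h t).re ≤ 1)
    (hz : ∀ z : ℂ, ‖z‖ < 1 → 0 ≤ (ext h z).re ∧ (ext h z).re ≤ 1)
    {ψ : ℂ → ℂ} (hψ : DifferentiableOn ℂ ψ {w : ℂ | -(1 / 4) < w.re ∧ w.re < 5 / 4}) {M : ℝ}
    (hM : ∀ w : ℂ, 0 ≤ w.re → w.re ≤ 1 → ‖ψ w‖ ≤ M) :
    (fun t => ψ (h t)) ∈ HInf ∧
      ∀ z : ℂ, ‖z‖ < 1 → ext (fun t => ψ (h t)) z = ψ (ext h z) :=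
  P643.comp_strip (fun F hF M hM => exists_boundary hF hM) hh hb hz hψ hM

theorem exists_strip_pair {ε : ℝ} (hε : 0 < ε) : ∃ ψ₁ ψ₂ : ℂ → ℂ,
    DifferentiableOn ℂ ψ₁ {w : ℂ | -(1 / 4) < w.re ∧ w.re < 5 / 4} ∧
    DifferentiableOn ℂ ψ₂ {w : ℂ | -(1 / 4) < w.re ∧ w.re < 5 / 4} ∧
    (∀ w : ℂ, 0 ≤ w.re → w.re ≤ 1 → ‖ψ₁ w‖ ≤ 1 ∧ ‖ψ₂ w‖ ≤ 1) ∧
    (∀ w : ℂ, w.re = 0 ∨ w.re = 1 → ‖ψ₁ w‖ = 1 ∧ ‖ψ₂ w‖ = 1) ∧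
    (∀ w : ℂ, w.re = 0 → ‖ψ₁ w * conj (ψ₂ w) - 1‖ ≤ ε) ∧
    (∀ w : ℂ, w.re = 1 → ‖ψ₁ w * conj (ψ₂ w) + 1‖ ≤ ε) ∧
    ψ₁ 0 = 1 ∧ ψ₂ 0 = 1 :=
  P644.exists_strip_pair hε

end Pool.Agent.Helper900.UB
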