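import Pool.Agent.Helper900.UB.Outer
import Pool.Agent.Helper900.UB.P645
import Pool.Agent.Helper900.UB.P646
import Pool.Agent.Helper900.UB.P647
import Pool.Agent.Helper900.UB.P648

set_option autoImplicit false

namespace Pool.Agent.Helper900.UB

open MeasureTheory AddCircle Complex Filter Topology
open scoped ENNReal ComplexConjugate

theorem aak {e V : T → ℂ} (he : e ∈ HInf) (hV : IsInner V) (he1 : ∀ᵐ t ∂mu, ‖e t‖ ≤ 1 / 2) :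
    ∃ g ∈ HInf, (∀ᵐ t ∂mu, ‖e t + V t * g t‖ = 1) ∧
      ∀ k ∈ HInf, (∀ᵐ t ∂mu, ‖e t + V t * k t‖ ≤ 1) →
        (∫ t, k t ∂mu).re ≤ (∫ t, g t ∂mu).re :=
  P645.aak (fun E hE a b ha hb => exists_outer hE ha hb) he hV he1

theorem inv_HInf {w : T → ℂ} (hw : w ∈ HInf) {q : ℝ} (hq : q < 1)
    (hb : ∀ᵐ t ∂mu, ‖w t‖ ≤ q) : (fun t => (1 + w t)⁻¹) ∈ HInf :=
  P646.inv_HInf hw hq hb

theorem avg_mobius {L : (T → ℂ) → ℂ} {K : ℝ} (hL : IsFunc L K) {H f g D D' : T → ℂ}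
    (hH : H ∈ HInf) (hf : f ∈ HInf) (hg : g ∈ HInf) (hD : D ∈ HInf) (hD' : D' ∈ HInf)
    (hDD : ∀ᵐ t ∂mu, D t * D' t = 1) {q : ℝ} (hq : q < 1)
    (hgb : ∀ᵐ t ∂mu, ‖g t * D' t‖ ≤ q) {M : ℝ}
    (hM : ∀ ζ : ℂ, ‖ζ‖ = 1 → ‖L (fun t => (H t + ζ * f t) / (D t + conj ζ * g t))‖ ≤ M) :
    ‖L (fun t => f t * D' t)‖ ≤ M :=
  P646.avg_mobius hL hH hf hg hD hD' hDD hq hgb hM

theorem mobius_mem {H f g D D' : T → ℂ}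
    (hH : H ∈ HInf) (hf : f ∈ HInf) (hg : g ∈ HInf) (hD : D ∈ HInf) (hD' : D' ∈ HInf)
    (hDD : ∀ᵐ t ∂mu, D t * D' t = 1) {q : ℝ} (hq : q < 1)
    (hgb : ∀ᵐ t ∂mu, ‖g t * D' t‖ ≤ q) (ζ : ℂ) (hζ : ‖ζ‖ = 1) :
    (fun t => (H t + ζ * f t) / (D t + conj ζ * g t)) ∈ HInf :=
  P646.mobius_mem hH hf hg hD hD' hDD hq hgb ζ hζ

theorem avg_frostman {L : (T → ℂ) → ℂ} {K : ℝ} (hL : IsFunc L K) {w : T → ℂ} (hw : w ∈ HInf)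
    (hw1 : ∀ᵐ t ∂mu, ‖w t‖ ≤ 1) {a : ℝ} (ha0 : 0 < a) (ha1 : a < 1) {M : ℝ}
    (hM : ∀ ζ : ℂ, ‖ζ‖ = 1 → ‖L (fun t => (a + ζ * w t) / (1 + a * ζ * w t))‖ ≤ M) :
    (1 - a ^ 2) * ‖L w‖ ≤ M :=
  P646.avg_frostman hL hw hw1 ha0 ha1 hM

theorem frostman_mem {w : T → ℂ} (hw : w ∈ HInf)
    (hw1 : ∀ᵐ t ∂mu, ‖w t‖ ≤ 1) {a : ℝ} (ha0 : 0 < a) (ha1 : a < 1) (ζ : ℂ) (hζ : ‖ζ‖ = 1) :
    (fun t => (a + ζ * w t) / (1 + a * ζ * w t)) ∈ HInf :=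
  P646.frostman_mem hw hw1 ha0 ha1 ζ hζ

theorem inf_prod {φ : ℕ → T → ℂ} (hφ : ∀ j, IsInner (φ j))
    (hs : ∀ j, ∫ t, ‖φ j t - 1‖ ^ 2 ∂mu ≤ ((1 / 2 : ℝ) ^ j) ^ 2) :
    ∃ P : T → ℂ, IsInner P ∧ ∀ j, ∃ Q : T → ℂ, IsInner Q ∧ ∀ᵐ t ∂mu, P t = φ j t * Q t :=
  P647.inf_prod hφ hs

theorem fatou {f : T → ℂ} (hf : f ∈ HInf) :
    ∀ᵐ θ : ℝ, Tendsto (fun r : ℝ => ext f ((r : ℂ) * Complex.exp ((θ : ℂ) * Complex.I)))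
      (𝓝[<] 1) (𝓝 (f ((θ / (2 * Real.pi) : ℝ) : T))) :=
  P648.fatou hf

end Pool.Agent.Helper900.UB
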